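import Pool.Agent.LibVT36.Fin

/-!
[VT36 Ex] Cyclic coverings of the line.
-/

open scoped Classical

namespace Pool.Agent.LibVT36

open Pool.Agent.LibBH2
open Pool.Agent.LibCHd (FunF)

variable {k : Type} [Field k]

/-- there are functions `x` (not constant) and `y` in `L` and a polynomial `f` with roots `c` of multiplicity `e_c`, such that
`y ^ n = f(x)` and `∑_c (1 - gcd(n, e_c) / n) + (1 - gcd(n, deg f) / n) > 2` -/
def Cyc (k : Type) [Field k] (L : Type) [Field L] [Algebra k L] : Prop :=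
  ∃ (x y : L) (f : Polynomial k) (n : ℕ), x ∉ Set.range (algebraMap k L) ∧ 0 < n ∧ y ^ n = Polynomial.aeval x f ∧
    (2 : ℚ) < ∑ c ∈ f.roots.toFinset, (1 - (Nat.gcd n (f.rootMultiplicity c) : ℚ) / n) +
      (1 - (Nat.gcd n f.natDegree : ℚ) / n)

/-- multiplicity at a point of the line, up to sign -/
private noncomputable def ee (f : Polynomial k) : Option k → ℕ
  | some c => f.rootMultiplicity c
  | none => f.natDegree

private theorem ex_fin {L : Type} [Field L] [Algebra k L] {x y : L} {f : Polynomial k} {n : ℕ} (hf : f ≠ 0)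
    (hx : NC k x) (h : y ^ n = Polynomial.aeval x f) (c : k) (w : Place k L) (hw : 0 < w.ord (x - algebraMap k L c)) :
    (n : ℤ) * w.ord y = (f.rootMultiplicity c : ℤ) * w.ord (x - algebraMap k L c) := by
  obtain ⟨g, hg, hgn⟩ := Polynomial.exists_eq_pow_rootMultiplicity_mul_and_not_dvd f hf c
  have hxc : x - algebraMap k L c ≠ 0 := by
    intro h0
    exact hx ⟨c, (sub_eq_zero.1 h0).symm⟩
  have hgc : g.eval c ≠ 0 := by
    intro h0
    exact hgn (Polynomial.dvd_iff_isRoot.2 h0)
  have hz : w.Zer (x - algebraMap k L c) := Or.inr hw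
  have hga : w.ord (Polynomial.aeval x g) = 0 := Place.ord_eq_zero_of_val (Place.val_aeval hz g) hgc
  have hg0 : Polynomial.aeval x g ≠ 0 := Place.ne_zero_of_val (Place.val_aeval hz g) hgc
  have e1 : y ^ n = (x - algebraMap k L c) ^ (f.rootMultiplicity c) * Polynomial.aeval x g := by
    rw [h]
    conv_lhs => rw [hg]
    simp
  have := congrArg w.ord e1
  rw [w.ord_pow, w.ord_mul _ _ (pow_ne_zero _ hxc) hg0, w.ord_pow, hga, add_zero] at this
  exact this

private theorem ex_inf {L : Type} [Field L] [Algebra k L] {x y : L} {f : Polynomial k} {n : ℕ} (hf : f ≠ 0)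
    (h : y ^ n = Polynomial.aeval x f) (w : Place k L) (hw : 0 < w.ord x⁻¹) :
    (n : ℤ) * w.ord y = -((f.natDegree : ℤ) * w.ord x⁻¹) := by
  have hx0 : x ≠ 0 := by
    intro h0
    rw [h0, inv_zero, w.ord_zero] at hw
    exact lt_irrefl _ hw
  let inst : Invertible x⁻¹ := invertibleOfNonzero (inv_ne_zero hx0)
  let inst2 : Invertible x := invertibleOfNonzero hx0
  have h1 := Polynomial.eval₂_reverse_mul_pow (algebraMap k L) x f
  rw [invOf_eq_inv] at h1
  have hz : w.Zer (x⁻¹ - algebraMap k L 0) := by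
    rw [map_zero, sub_zero]
    exact Or.inr hw
  have hc : f.reverse.eval 0 ≠ 0 := by
    rw [← Polynomial.coeff_zero_eq_eval_zero, Polynomial.coeff_zero_reverse]
    exact Polynomial.leadingCoeff_ne_zero.2 hf
  have ho : w.ord (Polynomial.aeval x⁻¹ f.reverse) = 0 := Place.ord_eq_zero_of_val (Place.val_aeval hz f.reverse) hc
  have hn : Polynomial.aeval x⁻¹ f.reverse ≠ 0 := Place.ne_zero_of_val (Place.val_aeval hz f.reverse) hc
  have e1 : y ^ n = Polynomial.aeval x⁻¹ f.reverse * x ^ f.natDegree := by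
    rw [h]
    exact h1.symm
  have := congrArg w.ord e1
  rw [w.ord_pow, w.ord_mul _ _ hn (pow_ne_zero _ hx0), w.ord_pow, ho, zero_add] at this
  rw [this, w.ord_inv]
  ring

private theorem ex_dvd {n e : ℕ} (hn : 0 < n) {a b : ℤ} (h : (n : ℤ) * a = (e : ℤ) * b) :
    ((n / Nat.gcd n e : ℕ) : ℤ) ∣ b := by
  have hg : 0 < Nat.gcd n e := Nat.gcd_pos_of_pos_left _ hn
  obtain ⟨n', e', hc, h1, h2⟩ : ∃ n' e' : ℕ, Nat.Coprime n' e' ∧ n = Nat.gcd n e * n' ∧ e = Nat.gcd n e * e' := by
    obtain ⟨n', e', hc, h1, h2⟩ := Nat.exists_coprime n e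
    exact ⟨n', e', hc, by rw [mul_comm]; exact h1, by rw [mul_comm]; exact h2⟩
  have h3 : n / Nat.gcd n e = n' := by
    conv_lhs => rw [h1]
    rw [← h1]
    exact Nat.div_eq_of_eq_mul_right hg h1
  rw [h3]
  have h4 : (n' : ℤ) * a = (e' : ℤ) * b := by
    have hg0 : ((Nat.gcd n e : ℕ) : ℤ) ≠ 0 := by exact_mod_cast hg.ne'
    have h5 : ((Nat.gcd n e : ℕ) : ℤ) * ((n' : ℤ) * a) = ((Nat.gcd n e : ℕ) : ℤ) * ((e' : ℤ) * b) := by
      have e1 : (n : ℤ) = ((Nat.gcd n e : ℕ) : ℤ) * n' := by exact_mod_cast h1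
      have e2 : (e : ℤ) = ((Nat.gcd n e : ℕ) : ℤ) * e' := by exact_mod_cast h2
      rw [← mul_assoc, ← mul_assoc, ← e1, ← e2]
      exact h
    exact mul_left_cancel₀ hg0 h5
  have h6 : (n' : ℤ) ∣ (e' : ℤ) * b := ⟨a, h4.symm⟩
  exact (Nat.isCoprime_iff_coprime.2 hc).dvd_of_dvd_mul_left h6

/-- a prime `l` with `l ^ v_l(n) ∣ e` does not divide `n / gcd(n, e)`, and conversely -/
private theorem ex_val {n e l : ℕ} (hn : 0 < n) (hl : l.Prime) :
    ¬ l ∣ n / Nat.gcd n e ↔ l ^ n.factorization l ∣ e := by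
  have hg : 0 < Nat.gcd n e := Nat.gcd_pos_of_pos_left _ hn
  have hm : Nat.gcd n e * (n / Nat.gcd n e) = n := Nat.mul_div_cancel' (Nat.gcd_dvd_left n e)
  constructor
  · intro h
    have h1 : l ^ n.factorization l ∣ Nat.gcd n e * (n / Nat.gcd n e) := by
      rw [hm]
      exact Nat.ordProj_dvd n l
    have h2 : Nat.Coprime (l ^ n.factorization l) (n / Nat.gcd n e) :=
      Nat.Coprime.pow_left _ ((Nat.Prime.coprime_iff_not_dvd hl).2 h)
    exact (h2.dvd_of_dvd_mul_right h1).trans (Nat.gcd_dvd_right n e)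
  · intro h h1
    have h2 : l ^ n.factorization l ∣ Nat.gcd n e := Nat.dvd_gcd (Nat.ordProj_dvd n l) h
    have h3 : l ^ (n.factorization l + 1) ∣ n := by
      rw [pow_succ, ← hm]
      rw [hm]
      have := Nat.mul_dvd_mul h2 h1
      rwa [hm] at this
    exact Nat.pow_succ_factorization_not_dvd hn.ne' hl h3

theorem orb_cyc [IsAlgClosed k] {L : Type} [Field L] [Algebra k L] (h : Cyc k L) : Orb k L := by
  obtain ⟨x, y, f, n, hx, hn, h, hs⟩ := h
  have hn0 : (0 : ℚ) < n := by exact_mod_cast hn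
  have hf : f ≠ 0 := by
    intro h0
    rw [h0] at hs
    simp [hn0.ne'] at hs
    norm_num at hs
  let T : Finset (Option k) := Finset.insertNone f.roots.toFinset
  let nn : Option k → ℕ := fun p => n / Nat.gcd n (ee f p)
  have hgd : ∀ p, (1 : ℚ) - 1 / nn p = 1 - (Nat.gcd n (ee f p) : ℚ) / n := by
    intro p
    have hg : 0 < Nat.gcd n (ee f p) := Nat.gcd_pos_of_pos_left _ hn
    have h1 : (nn p : ℚ) = n / (Nat.gcd n (ee f p) : ℚ) := by
      simp only [nn]
      rw [Nat.cast_div (Nat.gcd_dvd_left _ _) (by exact_mod_cast hg.ne')]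
    rw [h1, one_div_div]
  have hsum : (2 : ℚ) < ∑ p ∈ T, ((1 : ℚ) - 1 / nn p) := by
    rw [Finset.sum_insertNone]
    simp only [hgd]
    simp only [ee]
    linarith
  have hpos : ∀ p, 0 < nn p := by
    intro p
    exact Nat.div_pos (Nat.gcd_le_left _ hn) (Nat.gcd_pos_of_pos_left _ hn)
  let S : Finset (Option k) := T.filter (fun p => 2 ≤ nn p)
  have hsum2 : (2 : ℚ) < ∑ p ∈ S, ((1 : ℚ) - 1 / nn p) := by
    have : ∑ p ∈ S, ((1 : ℚ) - 1 / nn p) = ∑ p ∈ T, ((1 : ℚ) - 1 / nn p) := by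
      apply Finset.sum_filter_of_ne
      intro p _ hp
      by_contra hlt
      have h1 : nn p = 1 := by
        have := hpos p
        omega
      apply hp
      rw [h1]
      norm_num
    rw [this]
    exact hsum
  refine ⟨x, S, nn, hx, ?_, hsum2, ?_⟩
  · intro p hp
    refine ⟨(Finset.mem_filter.1 hp).2, ?_⟩
    rcases p with _ | c
    · intro w hw
      have h1 := ex_inf hf h w hw
      have h2 : (n : ℤ) * (-w.ord y) = (f.natDegree : ℤ) * w.ord x⁻¹ := by linarith
      exact ex_dvd hn h2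
    · intro w hw
      exact ex_dvd hn (ex_fin hf hx h c w hw)
  · by_contra hcop
    push_neg at hcop
    have hS : S.Nonempty := by
      by_contra h0
      rw [Finset.not_nonempty_iff_eq_empty] at h0
      rw [h0] at hsum2
      norm_num at hsum2
    obtain ⟨p, hp⟩ := hS
    have hp2 : 2 ≤ nn p := (Finset.mem_filter.1 hp).2
    have hpT : p ∈ T := (Finset.mem_filter.1 hp).1
    obtain ⟨l, hl, hlp⟩ := Nat.exists_prime_and_dvd (n := nn p) (by omega)
    have hq : ∀ q ∈ T, q ≠ p → l ^ n.factorization l ∣ ee f q := by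
      intro q hqT hqp
      rw [← ex_val hn hl]
      intro h1
      change l ∣ nn q at h1
      have h2 : 2 ≤ nn q := by
        have h3 := Nat.le_of_dvd (hpos q) h1
        exact hl.two_le.trans h3
      have h4 := hcop p hp q (Finset.mem_filter.2 ⟨hqT, h2⟩) (Ne.symm hqp)
      exact Nat.not_coprime_of_dvd_of_dvd hl.one_lt hlp h1 h4
    have hnp : ¬ l ^ n.factorization l ∣ ee f p := by
      rw [← ex_val hn hl, not_not]
      exact hlp
    have hdeg : f.natDegree = ∑ c ∈ f.roots.toFinset, f.rootMultiplicity c := by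
      rw [(IsAlgClosed.splits f).natDegree_eq_card_roots, ← Multiset.toFinset_sum_count_eq]
      exact Finset.sum_congr rfl (fun c _ => Polynomial.count_roots f)
    rcases p with _ | c
    · apply hnp
      show _ ∣ f.natDegree
      rw [hdeg]
      refine Finset.dvd_sum (fun c hc => ?_)
      exact hq (some c) (Finset.some_mem_insertNone.2 hc) (by simp)
    · apply hnp
      have hc : c ∈ f.roots.toFinset := Finset.some_mem_insertNone.1 hpT
      have h1 : l ^ n.factorization l ∣ f.natDegree := hq none (Finset.none_mem_insertNone) (by simp)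
      rw [hdeg, ← Finset.add_sum_erase _ _ hc] at h1
      have h2 : l ^ n.factorization l ∣ ∑ c ∈ f.roots.toFinset.erase c, f.rootMultiplicity c := by
        refine Finset.dvd_sum (fun d hd => ?_)
        exact hq (some d) (Finset.some_mem_insertNone.2 (Finset.mem_of_mem_erase hd))
          (by simpa using Finset.ne_of_mem_erase hd)
      exact (Nat.dvd_add_left h2).1 h1

end Pool.Agent.LibVT36
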