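import Pool.Agent.LibVT36.Z

/-!
# LibVT36, second part: signatures on the projective line (helper36)
Page: PAGE2_29b22a_VIRTUAL_helper36.md
-/

namespace Pool.Agent.LibVT36

open Pool.Agent.LibBH2
open Pool.Agent.LibCHd (FunF)

variable {k : Type} [Field k]

section

variable {L : Type} [Field L] [Algebra k L]

/-- the local parameter of the projective line at the point `p` (`none` is infinity), at `t` -/
def lp (t : L) : Option k → L
  | some c => t - cc k L c
  | none => t⁻¹

/-- all ramification indices of `t` over the point `p` are divisible by `n` -/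
def Ram (t : L) (p : Option k) (n : ℕ) : Prop :=
  ∀ w : Place k L, 0 < w.ord (lp t p) → (n : ℤ) ∣ w.ord (lp t p)

/-- a point of an elliptic curve with ramification over the origin divisible by `m` -/
structure DEm (X Y : L) (A B : k) (m : ℕ) : Prop where
  nc : NC k X
  eq : Y ^ 2 = X ^ 3 + cc k L A * X + cc k L B
  disc : 4 * A ^ 3 + 27 * B ^ 2 ≠ 0
  pole : ∀ w : Place k L, w.ord X < 0 → (2 * m : ℤ) ∣ w.ord X

/-- four points with even ramification, ramification divisible by `m` over infinity -/
structure DA1m (s : L) (e : Fin 4 → k) (m : ℕ) : Prop where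
  nc : NC k s
  inj : Function.Injective e
  sum : ∑ i, e i = 0
  pole : ∀ w : Place k L, w.ord s < 0 → (m : ℤ) ∣ w.ord s
  ev : ∀ (w : Place k L) (i : Fin 4), 0 < w.ord (s - cc k L (e i)) → (2 : ℤ) ∣ w.ord (s - cc k L (e i))

/-- a point of a curve `y ^ 2 = ∏ (s - e_i)`, ramification divisible by `m` over the points at infinity -/
structure DA2m (s y : L) (e : Fin 4 → k) (m : ℕ) : Prop where
  nc : NC k s
  inj : Function.Injective e
  sum : ∑ i, e i = 0
  eq : y ^ 2 = ∏ i, (s - cc k L (e i))
  pole : ∀ w : Place k L, w.ord s < 0 → (m : ℤ) ∣ w.ord s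

end

/-- there is a nonconstant function with ramification divisible by the members of the list over different points -/
def Sig (k : Type) [Field k] (L : Type) [Field L] [Algebra k L] (l : List ℕ) : Prop :=
  ∃ (t : L) (P : List (Option k)), NC k t ∧ P.Nodup ∧ List.Forall₂ (fun p n => Ram t p n) P l

/-- every curve with the signature `l` has an unramified covering which dominates the curve of `End` -/
def VV (k : Type) [Field k] (l : List ℕ) : Prop :=
  ∀ (L : Type) [Field L] [Algebra k L], FunF k 1 L → Sig k L l → Reach k L (fun L' _ _ => End k L')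

end Pool.Agent.LibVT36
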