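import Pool.Agent.LibVT36.K11

/-!
[VT36 K12] (MEDIUM) The general theorem. `l` a list of numbers `≥ 2`, `∑ (1 - 1/n) > 2`, two entries (at different positions) not coprime: up to a permutation `l = p a :: p b :: l'` with a prime `p`. `l' = []`: the sum is `< 2`. `l' = [c]`: `vv_tri`. `l'` has at least two entries: if there are entries `c, e` of `l'` (different positions) with
not both `2`: `VV.cyc` on `[p a, p b, c, e]`: `[a, b] ++ p` times `[c, e]`, `p ≥ 2`: contains `[c, c, e, e]`: `vvq`. Otherwise all entries of `l'` are 2 [if `l'` has at least two entries and every pair is `(2, 2)`]: `p ≥ 3`: `VV.cyc` on `[p a, p b, 2, 2]` gives `2 p ≥ 6` entries 2: `vv_2222m`.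
`p = 2`: if `a ≥ 2` (or `b ≥ 2`, permute): `[a, b, 2, 2, 2, 2]`: `vv_2222m`. `a = b = 1`: all entries are 2 and `∑ (1/2) > 2`: at least five.
`sig_all`: from functions: `S` a finite set of points with indices `n p ≥ 2`: the list `S.toList.map n`, `P = S.toList`.
-/

namespace Pool.Agent.LibVT36

open Pool.Agent.LibBH2
open Pool.Agent.LibCHd (FunF)

variable {k : Type} [Field k]
variable [IsAlgClosed k] [CharZero k]

private theorem K12_pair : ∀ l : List ℕ, ¬ l.Pairwise Nat.Coprime →
    ∃ (x y : ℕ) (l' : List ℕ), l.Perm (x :: y :: l') ∧ ¬ Nat.Coprime x y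
  | [], h => absurd List.Pairwise.nil h
  | a :: l, h => by
    rw [List.pairwise_cons, not_and_or] at h
    rcases h with h | h
    · push Not at h
      obtain ⟨b, hb, hab⟩ := h
      exact ⟨a, b, l.erase b, (List.perm_cons_erase hb).cons a, hab⟩
    · obtain ⟨x, y, l', hp, hxy⟩ := K12_pair l h
      refine ⟨x, y, a :: l', ?_, hxy⟩
      refine (hp.cons a).trans ?_
      exact (List.Perm.swap x a (y :: l')).trans ((List.Perm.swap y a l').cons x)

/-- two entries which are not both `2` besides `p a, p b` -/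
private theorem K12_four {p a b c e : ℕ} (hp : 2 ≤ p) (hc : 2 ≤ c) (he : 2 ≤ e) (h : ¬ (c = 2 ∧ e = 2)) :
    VV k [p * a, p * b, c, e] := by
  obtain ⟨q, rfl⟩ := Nat.exists_eq_add_of_le hp
  apply VV.cyc (by omega)
  have h1 : VV k [c, e, c, e] := (vvq hc he h).perm ((List.Perm.swap c e [e]).cons c)
  refine h1.sub ?_
  rw [add_comm 2 q, List.replicate_succ, List.replicate_succ, List.flatten_cons, List.flatten_cons]
  refine List.Sublist.cons _ (List.Sublist.cons _ ?_)
  simp

/-- two entries `2` besides `p a, p b`, `p ≥ 3` -/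
private theorem K12_p3 {p a b : ℕ} (hp : 3 ≤ p) : VV k [p * a, p * b, 2, 2] := by
  obtain ⟨q, rfl⟩ := Nat.exists_eq_add_of_le hp
  apply VV.cyc (by omega)
  refine (vv22222 (k := k)).sub ?_
  rw [add_comm 3 q, List.replicate_succ, List.replicate_succ, List.replicate_succ, List.flatten_cons,
    List.flatten_cons, List.flatten_cons]
  refine List.Sublist.cons _ (List.Sublist.cons _ ?_)
  simp

/-- two entries `2` besides `2 a, 2 b`, `a ≥ 2` -/
private theorem K12_p2 {a b : ℕ} (ha : 2 ≤ a) : VV k [2 * a, 2 * b, 2, 2] := by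
  apply VV.cyc (by omega)
  have h1 : VV k [a, 2, 2, 2, 2] := by
    refine (vv_2222m ha).perm ?_
    exact (List.perm_append_comm (l₁ := [a]) (l₂ := [2, 2, 2, 2]))
  refine h1.sub ?_
  refine List.Sublist.cons_cons _ (List.Sublist.cons _ ?_)
  simp [List.replicate_succ]

theorem vv_all {l : List ℕ} (h2 : ∀ n ∈ l, 2 ≤ n) (hs : (2 : ℚ) < (l.map fun n : ℕ => (1 : ℚ) - 1 / n).sum)
    (hc : ¬ l.Pairwise Nat.Coprime) : VV k l := by
  obtain ⟨x, y, l', hp, hxy⟩ := K12_pair l hc
  have h2' : ∀ n ∈ x :: y :: l', 2 ≤ n := fun n hn => h2 n (hp.mem_iff.mpr hn)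
  have hs' : (2 : ℚ) < ((x :: y :: l').map fun n : ℕ => (1 : ℚ) - 1 / n).sum := by
    rwa [← (hp.map _).sum_eq]
  refine VV.perm ?_ hp
  obtain ⟨p, pp, ⟨a, rfl⟩, ⟨b, rfl⟩⟩ := Nat.Prime.not_coprime_iff_dvd.mp hxy
  have hpa : 2 ≤ p * a := h2' _ (by simp)
  have hpb : 2 ≤ p * b := h2' _ (by simp)
  have ha : 1 ≤ a := by
    rcases Nat.eq_zero_or_pos a with h | h
    · subst h
      omega
    · exact h
  have hb : 1 ≤ b := by
    rcases Nat.eq_zero_or_pos b with h | h
    · subst h
      omega
    · exact h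
  have hp2 : 2 ≤ p := pp.two_le
  rcases l' with _ | ⟨c, _ | ⟨e, l''⟩⟩
  · exfalso
    have e1 : (0 : ℚ) < 1 / ((p * a : ℕ) : ℚ) := by
      have : 0 < p * a := by omega
      positivity
    have e2 : (0 : ℚ) < 1 / ((p * b : ℕ) : ℚ) := by
      have : 0 < p * b := by omega
      positivity
    simp only [List.map_cons, List.map_nil, List.sum_cons, List.sum_nil] at hs'
    linarith
  · apply vv_tri pp ha hb (h2' c (by simp))
    simp only [List.map_cons, List.map_nil, List.sum_cons, List.sum_nil] at hs'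
    push_cast at hs'
    linarith
  · by_cases hall : ∀ n ∈ c :: e :: l'', n = 2
    · have hc2 : c = 2 := hall c (by simp)
      have he2 : e = 2 := hall e (by simp)
      subst hc2
      subst he2
      have hsub : List.Sublist [p * a, p * b, 2, 2] (p * a :: p * b :: 2 :: 2 :: l'') := by simp
      rcases Nat.lt_or_ge 2 p with h3 | h3
      · exact (K12_p3 h3).sub hsub
      · have hp' : p = 2 := le_antisymm h3 hp2
        subst hp'
        rcases Nat.lt_or_ge 1 a with ha2 | ha2
        · exact (K12_p2 ha2).sub hsub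
        rcases Nat.lt_or_ge 1 b with hb2 | hb2
        · exact ((K12_p2 hb2).perm (List.Perm.swap _ _ _)).sub hsub
        have ha1 : a = 1 := le_antisymm ha2 ha
        have hb1 : b = 1 := le_antisymm hb2 hb
        subst ha1
        subst hb1
        have hl : ∀ n ∈ 2 * 1 :: 2 * 1 :: 2 :: 2 :: l'', n = 2 := by
          intro n hn
          rw [List.mem_cons, List.mem_cons] at hn
          rcases hn with h | h | h
          · exact h
          · exact h
          · exact hall n h
        have hr := List.eq_replicate_of_mem hl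
        rw [hr] at hs' ⊢
        rw [List.map_replicate, List.sum_replicate, nsmul_eq_mul] at hs'
        refine (vv22222 (k := k)).sub ?_
        have h5 : 5 ≤ (2 * 1 :: 2 * 1 :: 2 :: 2 :: l'').length := by
          by_contra hlt
          have hle : (2 * 1 :: 2 * 1 :: 2 :: 2 :: l'').length ≤ 4 := by omega
          have hle' : (((2 * 1 :: 2 * 1 :: 2 :: 2 :: l'').length : ℕ) : ℚ) ≤ 4 := by exact_mod_cast hle
          norm_num at hs' hle'
          linarith
        exact (List.replicate_sublist_replicate (m := 5) 2).mpr h5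
    · push Not at hall
      obtain ⟨n, hn, hn2⟩ := hall
      have hperm := List.perm_cons_erase hn
      have hlen : ((c :: e :: l'').erase n).length = l''.length + 1 := by
        rw [List.length_erase_of_mem hn]
        simp
      obtain ⟨m, l3, hl3⟩ : ∃ m l3, (c :: e :: l'').erase n = m :: l3 := by
        rcases hh : (c :: e :: l'').erase n with _ | ⟨m, l3⟩
        · rw [hh] at hlen
          simp at hlen
        · exact ⟨m, l3, rfl⟩
      rw [hl3] at hperm
      have hn' : 2 ≤ n := h2' n (List.mem_cons_of_mem _ (List.mem_cons_of_mem _ hn))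
      have hm' : 2 ≤ m := h2' m (List.mem_cons_of_mem _ (List.mem_cons_of_mem _ (hperm.mem_iff.mpr (by simp))))
      have h4 : VV k [p * a, p * b, n, m] := K12_four hp2 hn' hm' (fun h => hn2 h.1)
      have h5 : VV k (p * a :: p * b :: n :: m :: l3) := h4.sub (by simp)
      exact h5.perm ((hperm.cons _).cons _)

theorem sig_all {L : Type} [Field L] [Algebra k L] {t : L} (ht : NC k t) (S : Finset (Option k)) (n : Option k → ℕ)
    (h : ∀ p ∈ S, Ram t p (n p)) : Sig k L (S.toList.map n) := by
  refine ⟨t, S.toList, ht, S.nodup_toList, ?_⟩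
  rw [List.forall₂_map_right_iff, List.forall₂_same]
  intro p hp
  exact h p (Finset.mem_toList.mp hp)

/-- the virtual theorem -/
theorem virtual {L : Type} [Field L] [Algebra k L] (hL : FunF k 1 L) {t : L} (ht : NC k t) (S : Finset (Option k))
    (n : Option k → ℕ) (h2 : ∀ p ∈ S, 2 ≤ n p) (h : ∀ p ∈ S, Ram t p (n p))
    (hs : (2 : ℚ) < ∑ p ∈ S, ((1 : ℚ) - 1 / n p)) (hc : ∃ p ∈ S, ∃ q ∈ S, p ≠ q ∧ ¬ Nat.Coprime (n p) (n q)) :
    Reach k L (fun L' _ _ => End k L') := by
  have hv : VV k (S.toList.map n) := by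
    apply vv_all
    · intro m hm
      rw [List.mem_map] at hm
      obtain ⟨p, hp, rfl⟩ := hm
      exact h2 p (Finset.mem_toList.mp hp)
    · rw [List.map_map]
      have e1 : (S.toList.map ((fun n : ℕ => (1 : ℚ) - 1 / n) ∘ n)).sum = ∑ p ∈ S, ((1 : ℚ) - 1 / n p) :=
        Finset.sum_map_toList S _
      rw [e1]
      exact hs
    · intro hpw
      rw [List.pairwise_map] at hpw
      obtain ⟨p, hp, q, hq, hpq, hne⟩ := hc
      haveI hsym : Std.Symm fun a b => Nat.Coprime (n a) (n b) := ⟨fun a b hab => hab.symm⟩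
      exact hne (hpw.forall (Finset.mem_toList.mpr hp) (Finset.mem_toList.mpr hq) hpq)
  exact hv L hL (sig_all ht S n h)

end Pool.Agent.LibVT36
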