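import Pool.Agent.LibVT36.Defs
import Pool.Agent.LibCW77.T2

/-!
[VT36 A1] (SHORT/MEDIUM) The field `L (f ^ (1 / n))`. `p` an irreducible factor of `X ^ n - C f` in `L[X]` (degree `n > 0`), `L' = AdjoinRoot p` (field instance with `Fact (Irreducible p)`), `φ` = the algebra homomorphism
`L → L'` as a `k`-algebra homomorphism (`Algebra k L'` through `L`), `β = root p`; `L'` is finite over `L` (power basis), so over `φ.fieldRange` (finrank `≠ 0`); every element is a polynomial in the root
(`AdjoinRoot.mk_surjective`). `FunF k 1 L'`: `funF_finite` (LibCW77/T2.lean).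
-/

namespace Pool.Agent.LibVT36

open Pool.Agent.LibBH2
open Pool.Agent.LibCHd (FunF)

variable {k : Type} [Field k]
variable {L : Type} [Field L] [Algebra k L]

private theorem A1_finrank {M M' : Type} [Field M] [Algebra k M] [Field M'] [Algebra k M'] [Algebra M M']
    (σ : M →ₐ[k] M') (hσ : ∀ x, algebraMap M M' x = σ x) [Module.Finite M M'] :
    Module.finrank σ.fieldRange M' ≠ 0 := by
  have h1 : Module.Finite σ.fieldRange M' := by
    refine Module.Finite.of_equiv_equiv (A₁ := M) (B₁ := M') (AlgHom.equivFieldRange σ).toRingEquiv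
      (RingEquiv.refl M') ?_
    ext x
    change ((AlgHom.equivFieldRange σ x : σ.fieldRange) : M') = algebraMap M M' x
    rw [hσ]
    rfl
  exact (Module.finrank_pos (R := σ.fieldRange) (M := M')).ne'

theorem ext_exists (hL : FunF k 1 L) {f : L} (hf : f ≠ 0) {n : ℕ} (hn : 0 < n) :
    ∃ (L' : Type) (_ : Field L') (_ : Algebra k L') (φ : L →ₐ[k] L') (β : L'),
      β ^ n = φ f ∧ Module.finrank φ.fieldRange L' ≠ 0 ∧ FunF k 1 L' ∧
        ∀ h : L', ∃ P : Polynomial L, h = Polynomial.eval₂ (φ : L →+* L') β P := by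
  have hdeg : 0 < (Polynomial.X ^ n - Polynomial.C f : Polynomial L).natDegree := by
    rw [Polynomial.natDegree_X_pow_sub_C]; exact hn
  obtain ⟨p, hp, hpd⟩ := Polynomial.exists_irreducible_of_natDegree_pos hdeg
  have hfact : Fact (Irreducible p) := ⟨hp⟩
  have hfin : Module.Finite L (AdjoinRoot p) := (AdjoinRoot.powerBasis hp.ne_zero).finite
  have hfr : Module.finrank (AdjoinRoot.ofAlgHom k p).fieldRange (AdjoinRoot p) ≠ 0 :=
    A1_finrank (AdjoinRoot.ofAlgHom k p) (fun x => rfl)
  refine ⟨AdjoinRoot p, inferInstance, inferInstance, AdjoinRoot.ofAlgHom k p, AdjoinRoot.root p, ?_, hfr,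
    Pool.Agent.LibCW77.funF_finite _ hfr hL, ?_⟩
  · obtain ⟨q, hq⟩ := hpd
    have h1 : Polynomial.eval₂ (AdjoinRoot.of p) (AdjoinRoot.root p) (Polynomial.X ^ n - Polynomial.C f) = 0 := by
      rw [hq, Polynomial.eval₂_mul, AdjoinRoot.eval₂_root, zero_mul]
    rw [Polynomial.eval₂_sub, Polynomial.eval₂_X_pow, Polynomial.eval₂_C] at h1
    exact sub_eq_zero.1 h1
  · intro h
    obtain ⟨P, rfl⟩ := AdjoinRoot.mk_surjective h
    refine ⟨P, ?_⟩
    rw [← AdjoinRoot.aeval_eq]
    rfl

end Pool.Agent.LibVT36
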