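import Pool.Agent.LibVT36.A0

/-!
[VT36 J2] (SHORT/MEDIUM) Hyperelliptic curves: `y^2 = P(t)`, `P` squarefree of degree `≥ 5`, `t` not constant: five roots `c_i` of `P` (`IsAlgClosed`, squarefree = separable: the number of roots is the degree). `0 < w.ord (t - c_i)`: `P = (X - c_i) Q`, `Q(c_i) ≠ 0`, `w.ord (Q(t)) = 0` (value `Q(c_i)`, `val_aeval`),
`w.ord (t - c_i) = w.ord (P(t)) = 2 w.ord y`.
-/

namespace Pool.Agent.LibVT36

open Pool.Agent.LibBH2
open Pool.Agent.LibCHd (FunF)

variable {k : Type} [Field k]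
variable {L : Type} [Field L] [Algebra k L]

/-- one root -/
private theorem J2_ev {t y : L} {P : Polynomial k} (hP : Squarefree P) (hy : y ^ 2 = Polynomial.aeval t P)
    {c : k} (hc : P.IsRoot c) (w : Place k L) (hw : 0 < w.ord (t - cc k L c)) :
    (2 : ℤ) ∣ w.ord (t - cc k L c) := by
  obtain ⟨Q, hQ⟩ := Polynomial.dvd_iff_isRoot.2 hc
  have hQc : Q.eval c ≠ 0 := by
    intro h0
    obtain ⟨R, hR⟩ := Polynomial.dvd_iff_isRoot.2 h0
    have h1 : (Polynomial.X - Polynomial.C c) * (Polynomial.X - Polynomial.C c) ∣ P :=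
      ⟨R, by rw [hQ, hR]; ring⟩
    have h2 := hP _ h1
    exact Polynomial.not_isUnit_X_sub_C c h2
  have hz : w.Zer (t - algebraMap k L c) := Or.inr hw
  have hv := Place.val_aeval hz Q
  have ho := Place.ord_eq_zero_of_val hv hQc
  have hn := Place.ne_zero_of_val hv hQc
  have ht0 : t - cc k L c ≠ 0 := by
    intro h0
    rw [h0, w.ord_zero] at hw
    exact lt_irrefl _ hw
  have h3 : y ^ 2 = (t - cc k L c) * Polynomial.aeval t Q := by
    rw [hy, hQ]
    simp
  have h4 := w.ord_mul _ _ ht0 hn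
  rw [← h3, w.ord_pow, ho, add_zero] at h4
  exact ⟨w.ord y, by rw [← h4]; push_cast; ring⟩

theorem hyp [IsAlgClosed k] [CharZero k] {t y : L} (ht : NC k t) {P : Polynomial k} (hP : Squarefree P)
    (hd : 5 ≤ P.natDegree) (hy : y ^ 2 = Polynomial.aeval t P) : ∃ c : Fin 5 → k, DA t c := by
  classical
  have hP0 : P ≠ 0 := hP.ne_zero
  have hcard : P.roots.toFinset.card = P.natDegree := by
    rw [Multiset.toFinset_card_of_nodup (Polynomial.nodup_roots (PerfectField.separable_iff_squarefree.2 hP))]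
    exact (IsAlgClosed.splits P).natDegree_eq_card_roots.symm
  obtain ⟨s, hs, hs5⟩ := Finset.exists_subset_card_eq (s := P.roots.toFinset) (n := 5) (by omega)
  let e := (s.equivFinOfCardEq hs5).symm
  refine ⟨fun i => (e i : k), ⟨ht, ?_, ?_⟩⟩
  · intro i j hij
    exact e.injective (Subtype.ext hij)
  · intro w i hw
    have hroot : P.IsRoot (e i : k) := by
      have h1 : (e i : k) ∈ P.roots.toFinset := hs (e i).2
      rw [Multiset.mem_toFinset, Polynomial.mem_roots hP0] at h1
      exact h1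
    exact J2_ev hP hy hroot w hw

end Pool.Agent.LibVT36
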