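import Pool.Agent.LibVT36.K12
import Pool.Agent.LibVT36.J2
import Pool.Agent.LibGS7.F
import Pool.Agent.LibCW77.RZ7

/-!
[VT36 Fin] The virtual theorem for the cycles of Gross and Schoen.
-/

open scoped Classical

namespace Pool.Agent.LibVT36

open Pool.Agent.LibBH2
open Pool.Agent.LibCHd (FunF)
open Pool.Agent.LibGS7
open Pool.Agent.LibCW77

variable {k : Type} [Field k]

/-- some finite unramified extension `L'` of `L` has the following property: for every function field `L''` of dimension one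
over `L'` there are divisors of degree one, and all modified diagonal cycles for divisors of degree `≠ 0` have infinite
order -/
def Virt (k : Type) [Field k] (L : Type) [Field L] [Algebra k L] : Prop :=
  ∃ (L' : Type) (_ : Field L') (_ : Algebra k L') (φ : L →ₐ[k] L'), φ.toRingHom.Finite ∧
    (∀ w : Place k L', ∃ f : L, w.ord (φ f) = 1) ∧ FunF k 1 L' ∧
    ∀ (L'' : Type) [Field L''] [Algebra k L''] (_ : L' →ₐ[k] L''), FunF k 1 L'' →
      (∃ D : XDv k L'', xdeg D = 1) ∧ ∀ D : XDv k L'', xdeg D ≠ 0 → ¬ IsOfFinAddOrder (GSX D)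

private theorem fin_prod {M : Type} [Field M] {ω α x : M} (h : ω ^ 2 + ω + 1 = 0) :
    (x - α) * (x - ω * α) * (x - ω ^ 2 * α) = x ^ 3 - α ^ 3 := by
  have h3 : ω ^ 3 = 1 := by linear_combination (ω - 1) * h
  linear_combination (-(x ^ 2) * α + x * α ^ 2 * ω) * h - α ^ 3 * h3

theorem end_cov [IsAlgClosed k] [CharZero k] {L : Type} [Field L] [Algebra k L] (hL : FunF k 1 L) {x v : L} {i : k}
    (h : DF x v i) {ω : k} (hω : IsPrimitiveRoot ω 3) : Cov (cov 6 ω i) x v := by
  refine ⟨hL, ?_, ?_⟩
  · intro hx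
    exact h.nc (mem_of_alg hx)
  · have hw : ω ^ 2 + ω + 1 = 0 := by
      have h1 := hω.pow_eq_one
      have h2 : ω ≠ 1 := hω.ne_one (by norm_num)
      have h3 : (ω - 1) * (ω ^ 2 + ω + 1) = 0 := by linear_combination h1
      rcases mul_eq_zero.1 h3 with h4 | h4
      · exact absurd (sub_eq_zero.1 h4) h2
      · exact h4
    have hwL : (algebraMap k L ω) ^ 2 + algebraMap k L ω + 1 = 0 := by
      rw [← map_pow, ← map_add, ← map_one (algebraMap k L), ← map_add, hw, map_zero]
    have hw3 : ω ^ 3 = 1 := hω.pow_eq_one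
    have hi0 : i ≠ 0 := by
      intro h0
      have := h.i2
      rw [h0] at this
      norm_num at this
    have hw0 : ω ≠ 0 := by
      intro h0
      rw [h0] at hw3
      norm_num at hw3
    have hi4 : i ^ 4 = 1 := by
      have : i ^ 4 = (i ^ 2) ^ 2 := by ring
      rw [this, h.i2]; norm_num
    have hi3 : i ^ 3 = -i := by linear_combination i * h.i2
    show v ^ 6 * ∏ j : Fin 3, (x - algebraMap k L ((![i, ω * i, ω ^ 2 * i] j)⁻¹)) =
      ∏ j : Fin 3, (x - algebraMap k L (![i, ω * i, ω ^ 2 * i] j))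
    have e0 : i⁻¹ = -i := by
      symm
      apply eq_inv_of_mul_eq_one_left
      linear_combination -h.i2
    have e1 : (ω * i)⁻¹ = ω ^ 2 * -i := by
      rw [mul_inv, e0]
      congr 1
      field_simp
      linear_combination -hw3
    have e2 : (ω ^ 2 * i)⁻¹ = ω * -i := by
      rw [mul_inv, e0]
      congr 1
      field_simp
      linear_combination -hw3
    rw [Fin.prod_univ_three, Fin.prod_univ_three]
    simp only [Matrix.cons_val_zero, Matrix.cons_val_one, Matrix.cons_val_two, Matrix.head_cons, Matrix.tail_cons,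
      Matrix.cons_val, e0, e1, e2, map_mul, map_pow, map_neg]
    have p1 := fin_prod (x := x) (α := algebraMap k L i) hwL
    have p2 := fin_prod (x := x) (α := -algebraMap k L i) hwL
    have hi3L : (algebraMap k L i) ^ 3 = -algebraMap k L i := by rw [← map_pow, hi3, map_neg]
    have q := h.eq
    simp only [cc] at q
    have p2' : (x - -algebraMap k L i) * (x - algebraMap k L ω ^ 2 * -algebraMap k L i) *
        (x - algebraMap k L ω * -algebraMap k L i) = x ^ 3 - algebraMap k L i := by
      linear_combination p2 + hi3L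
    rw [p1, p2']
    linear_combination q + hi3L

theorem cov6_all [IsAlgClosed k] [CharZero k] {ω i : k} (hω : IsPrimitiveRoot ω 3) (hi : i ^ 2 = -1) :
    AllInf (cov 6 ω i) := by
  have hi0 : i ≠ 0 := by
    intro h0
    rw [h0] at hi
    norm_num at hi
  have hi6 : i ^ 6 ≠ 1 := by
    have : i ^ 6 = (i ^ 2) ^ 3 := by ring
    rw [this, hi]; norm_num
  have hg : (cov 6 ω i).Good := cov_good hω (by norm_num) hi0 hi6
  refine allInf hg (gs_cov hω (by norm_num) ?_ hg (Or.inl (by decide)))
  intro j hj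
  have h2 : (2 : ℕ) ∣ 3 ^ j := by rw [← hj]; norm_num
  have h3 := Nat.prime_two.dvd_of_dvd_pow h2
  norm_num at h3

theorem reach_virt [IsAlgClosed k] [CharZero k] {L : Type} [Field L] [Algebra k L]
    (h : Reach k L (fun L' _ _ => End k L')) : Virt k L := by
  obtain ⟨L', i1, i2, φ, hφ, hL', x, v, i, hF⟩ := h
  obtain ⟨ω, hω⟩ : ∃ ω : k, IsPrimitiveRoot ω 3 := by
    have : NeZero ((3 : ℕ) : k) := ⟨by norm_num⟩
    exact HasEnoughRootsOfUnity.exists_primitiveRoot k 3
  refine ⟨L', i1, i2, φ, ?_, hφ.unr, hL', ?_⟩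
  · have h1 : Module.Finite φ.fieldRange L' := Module.finite_of_finrank_pos (Nat.pos_of_ne_zero hφ.fin)
    have h2 : (algebraMap φ.fieldRange L').Finite := h1
    have h3 : ((algebraMap φ.fieldRange L').comp (AlgHom.rangeRestrict φ).toRingHom).Finite := by
      refine h2.comp ?_
      refine RingHom.Finite.of_surjective _ ?_
      exact AlgHom.rangeRestrict_surjective φ
    exact h3
  · intro L'' _ _ ψ hL''
    have hF' : DF (ψ x) (ψ v) i := by
      refine ⟨hF.nc.map ψ, hF.i2, ?_⟩
      have := congrArg ψ hF.eq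
      simp only [cc, map_mul, map_pow, map_add, map_sub, AlgHom.commutes] at this ⊢
      exact this
    exact (cov6_all hω hF.i2).2 L'' (ψ x) (ψ v) (end_cov hL'' hF' hω)

/-- there are a nonconstant map `t : X → ℙ¹`, a finite set `S` of points of `ℙ¹` and numbers `n p ≥ 2` dividing all
ramification indices of `t` over `p`, with `∑ (1 - 1 / n p) > 2`, the `n p` not pairwise coprime -/
def Orb (k : Type) [Field k] (L : Type) [Field L] [Algebra k L] : Prop :=
  ∃ (t : L) (S : Finset (Option k)) (n : Option k → ℕ), NC k t ∧ (∀ p ∈ S, 2 ≤ n p ∧ Ram t p (n p)) ∧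
    (2 : ℚ) < ∑ p ∈ S, ((1 : ℚ) - 1 / n p) ∧ ∃ p ∈ S, ∃ q ∈ S, p ≠ q ∧ ¬ Nat.Coprime (n p) (n q)

/-- there are a nonconstant map from `X` to an elliptic curve and a number `m ≥ 2` dividing all its ramification indices
over the origin -/
def OrbE (k : Type) [Field k] (L : Type) [Field L] [Algebra k L] : Prop :=
  ∃ (X Y : L) (A B : k) (m : ℕ), 2 ≤ m ∧ DEm X Y A B m

theorem virt [IsAlgClosed k] [CharZero k] {L : Type} [Field L] [Algebra k L] (hL : FunF k 1 L)
    (h : Orb k L ∨ OrbE k L) : Virt k L := by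
  apply reach_virt
  rcases h with ⟨t, S, n, ht, h, hs, hc⟩ | ⟨X, Y, A, B, m, hm, h⟩
  · exact virtual hL ht S n (fun p hp => (h p hp).1) (fun p hp => (h p hp).2) hs hc
  · exact z_DEm hL hm h

end Pool.Agent.LibVT36
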