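import Pool.Agent.LibVT36.Defs

/-!
[VT36 A0] (SHORT) Basic facts. Nonconstant functions; unramified homomorphisms.
`mem_of_alg`: an element of `L` algebraic over the algebraically closed `k` is a constant (`IsAlgClosed.algebraMap_surjective_of_isIntegral`-like, or: the minimal polynomial splits over `k`, one of the linear factors vanishes).
`IsEt.restr`: the place of `L` with `ord f := w.ord (φ f)` (uniformizer by `unr`). `IsEt.comp`: finrank of the field ranges (see `T2_fin`, `T2_map` in LibCW77/T2.lean: `Module.finrank φ.fieldRange L' ≠ 0` says that `L'` is finite over `φ L`); places by `restr`.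
-/

namespace Pool.Agent.LibVT36

open Pool.Agent.LibBH2
open Pool.Agent.LibCHd (FunF)

variable {k : Type} [Field k]
variable {L : Type} [Field L] [Algebra k L]

private theorem A0_finrank {M M' : Type} [Field M] [Algebra k M] [Field M'] [Algebra k M'] [Algebra M M']
    (σ : M →ₐ[k] M') (hσ : ∀ x, algebraMap M M' x = σ x) [Module.Finite M M'] :
    Module.finrank σ.fieldRange M' ≠ 0 := by
  have h1 : Module.Finite σ.fieldRange M' := by
    refine Module.Finite.of_equiv_equiv (A₁ := M) (B₁ := M') (AlgHom.equivFieldRange σ).toRingEquiv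
      (RingEquiv.refl M') ?_
    ext x
    change ((AlgHom.equivFieldRange σ x : σ.fieldRange) : M') = algebraMap M M' x
    rw [hσ]
    rfl
  exact (Module.finrank_pos (R := σ.fieldRange) (M := M')).ne'

private theorem A0_map {M M' : Type} [Field M] [Algebra k M] [Field M'] [Algebra k M'] (σ : M →ₐ[k] M')
    (F : IntermediateField k M) :
    Module.finrank (F.map σ) M' = Module.finrank σ.fieldRange M' * Module.finrank F M := by
  rw [AlgHom.fieldRange_eq_map,
    ← IntermediateField.relfinrank_mul_finrank_top (IntermediateField.map_mono σ (le_top :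
      F ≤ ⊤)), IntermediateField.relfinrank_map_map,
    IntermediateField.relfinrank_top_right, mul_comm]

theorem mem_of_alg [IsAlgClosed k] {x : L} (h : IsAlgebraic k x) : x ∈ Set.range (algebraMap k L) := by
  have hi : IsIntegral k x := h.isIntegral
  have h1 := IsAlgClosed.degree_eq_one_of_irreducible k (minpoly.irreducible hi)
  exact minpoly.mem_range_of_degree_eq_one k x h1

theorem mem_of_root [IsAlgClosed k] {x : L} (P : Polynomial k) (hP : P ≠ 0) (h : Polynomial.aeval x P = 0) :
    x ∈ Set.range (algebraMap k L) :=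
  mem_of_alg ⟨P, hP, h⟩

theorem NC.ne {x : L} (h : NC k x) (a : k) : x ≠ cc k L a := by
  intro he
  exact h ⟨a, he.symm⟩

theorem NC.sub_ne {x : L} (h : NC k x) (a : k) : x - cc k L a ≠ 0 := by
  intro he
  exact h.ne a (sub_eq_zero.1 he)

theorem NC.add_ne {x : L} (h : NC k x) (a : k) : x + cc k L a ≠ 0 := by
  intro he
  apply h.ne (-a)
  simp only [cc, map_neg]
  exact eq_neg_of_add_eq_zero_left he

theorem NC.ne_zero {x : L} (h : NC k x) : x ≠ 0 := by
  have h1 := h.ne 0
  simpa [cc] using h1

theorem NC.sub {x : L} (h : NC k x) (a : k) : NC k (x - cc k L a) := by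
  rintro ⟨b, hb⟩
  apply h.ne (b + a)
  simp only [cc, map_add] at *
  rw [hb]
  ring

/-- `p / q` with `a d - b c ≠ 0` -/
theorem NC.mob {x : L} (h : NC k x) {a b c d : k} (hd : a * d - b * c ≠ 0) :
    NC k ((cc k L a * x + cc k L b) / (cc k L c * x + cc k L d)) := by
  have hinj : Function.Injective (algebraMap k L) := (algebraMap k L).injective
  -- a linear form is zero only if both coefficients are
  have hlin : ∀ u v : k, cc k L u * x + cc k L v = 0 → u = 0 ∧ v = 0 := by
    intro u v huv
    by_cases hu : u = 0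
    · refine ⟨hu, ?_⟩
      rw [hu] at huv
      simp only [cc, map_zero, zero_mul, zero_add] at huv
      exact (map_eq_zero _).1 huv
    · exfalso
      apply h.ne (-v / u)
      have hu' : algebraMap k L u ≠ 0 := (_root_.map_ne_zero _).2 hu
      simp only [cc, map_div₀, map_neg] at *
      field_simp
      linear_combination huv
  have hden : cc k L c * x + cc k L d ≠ 0 := by
    intro h0
    obtain ⟨h1, h2⟩ := hlin c d h0
    apply hd
    rw [h1, h2]
    ring
  rintro ⟨e, he⟩
  rw [eq_div_iff hden] at he
  have h1 : cc k L (a - e * c) * x + cc k L (b - e * d) = 0 := by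
    simp only [cc, map_sub, map_mul] at *
    linear_combination -he
  obtain ⟨h2, h3⟩ := hlin _ _ h1
  apply hd
  linear_combination d * h2 - c * h3

/-- a root of a nonconstant element is nonconstant -/
theorem NC.of_pow {x : L} {n : ℕ} (h : NC k (x ^ n)) : NC k x := by
  rintro ⟨b, hb⟩
  apply h
  exact ⟨b ^ n, by rw [map_pow, hb]⟩

variable {L' L'' : Type} [Field L'] [Algebra k L'] [Field L''] [Algebra k L'']

theorem NC.map {x : L} (h : NC k x) (φ : L →ₐ[k] L') : NC k (φ x) := by
  rintro ⟨b, hb⟩
  apply h
  refine ⟨b, (φ : L →+* L').injective ?_⟩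
  show φ (algebraMap k L b) = φ x
  rw [AlgHom.commutes, hb]

theorem IsEt.refl : IsEt (AlgHom.id k L) := by
  refine ⟨?_, fun w => w.exists_uniformizer⟩
  exact A0_finrank (AlgHom.id k L) (fun _ => rfl)

/-- restriction of places -/
theorem IsEt.restr {φ : L →ₐ[k] L'} (h : IsEt φ) (w : Place k L') :
    ∃ v : Place k L, ∀ f, v.ord f = w.ord (φ f) := by
  have hi : ∀ f : L, f ≠ 0 → φ f ≠ 0 := fun f hf => (_root_.map_ne_zero φ).2 hf
  refine ⟨{ ord := fun f => w.ord (φ f)
            ord_zero := by rw [map_zero, w.ord_zero]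
            ord_mul := fun f g hf hg => by rw [map_mul, w.ord_mul _ _ (hi f hf) (hi g hg)]
            ord_add := fun f g hf hg hfg => by
              rw [map_add]
              exact w.ord_add _ _ (hi f hf) (hi g hg) (by rw [← map_add]; exact hi _ hfg)
            ord_const := fun c hc => by rw [AlgHom.commutes]; exact w.ord_const c hc
            exists_uniformizer := h.unr w }, fun _ => rfl⟩

theorem IsEt.comp {φ : L →ₐ[k] L'} {ψ : L' →ₐ[k] L''} (h : IsEt φ) (h' : IsEt ψ) : IsEt (ψ.comp φ) := by
  refine ⟨?_, fun w => ?_⟩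
  · have h1 : (ψ.comp φ).fieldRange = φ.fieldRange.map ψ := by
      rw [AlgHom.fieldRange_eq_map, AlgHom.fieldRange_eq_map, IntermediateField.map_map]
    rw [h1, A0_map]
    exact mul_ne_zero h'.fin h.fin
  · obtain ⟨v, hv⟩ := h'.restr w
    obtain ⟨f, hf⟩ := h.unr v
    exact ⟨f, by rw [AlgHom.comp_apply, ← hv, hf]⟩

end Pool.Agent.LibVT36
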