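import Pool.Agent.LibVT36.Defs

/-!
[VT36 A2] (SHORT/MEDIUM) Newton's method. Only `Place` API (LibBH2/Place.lean). `w` a place of `L'`, `β ^ n = φ g`, `c ∈ k`, `c ≠ 0`, `w.Zer (β - c)`. Claim: for all `N` there is `b ∈ L` with `w.Zer (φ b - c)` and
(`φ b = β` or `N ≤ w.ord (φ b - β)`). `N = 0, 1`: `b = c`. Step `N → N + 1` (`N ≥ 1`): `b' = b - (b ^ n - g) / (n b ^ (n - 1))`. With `d = φ b - β`: `φ b ^ n - β ^ n = d (φ b ^ (n-1) + φ b ^ (n-2) β + ... + β ^ (n-1))`,
(`Commute.geom_sum₂_mul` / `mul_geom_sum₂`), so `φ b' - β = d (n φ b ^ (n-1) - ∑ φ b ^ i β ^ (n-1-i)) / (n φ b ^ (n-1))`, and the bracket is `∑ φ b ^ i (φ b ^ (n-1-i) - β ^ (n-1-i))`, a multiple of `d` by a regular element: order `≥ 1`;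
the denominator has order `0` (`w.Zer (φ b - c)`, `c ≠ 0`, `n ≠ 0` in `k`, characteristic `0`). Alternatively: the bracket vanishes at `w` because all `φ b`, `β` have the value `c` (`val_pow`, `val_mul`, ...): `n c ^ (n-1) - n c ^ (n-1) = 0`.
-/

namespace Pool.Agent.LibVT36

open Pool.Agent.LibBH2
open Pool.Agent.LibCHd (FunF)

variable {k : Type} [Field k]
variable {L L' : Type} [Field L] [Algebra k L] [Field L'] [Algebra k L']

/-- values of finite sums -/
private theorem A2_val_sum {K : Type} [Field K] [Algebra k K] (w : Place k K) {ι : Type} (s : Finset ι)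
    (f : ι → K) (c : ι → k) (h : ∀ i ∈ s, w.Zer (f i - algebraMap k K (c i))) :
    w.Zer (∑ i ∈ s, f i - algebraMap k K (∑ i ∈ s, c i)) := by
  classical
  induction s using Finset.induction_on with
  | empty => simp [Place.zer_zero]
  | insert a s ha ih =>
    rw [Finset.sum_insert ha, Finset.sum_insert ha]
    exact Place.val_add (h a (Finset.mem_insert_self a s))
      (ih fun i hi => h i (Finset.mem_insert_of_mem hi))

theorem newton [CharZero k] (φ : L →ₐ[k] L') (w : Place k L') {n : ℕ} (hn : 0 < n) {g : L} {β : L'}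
    (hβ : β ^ n = φ g) {c : k} (hc : c ≠ 0) (hv : w.Zer (β - cc k L' c)) (N : ℕ) :
    ∃ b : L, w.Zer (φ b - cc k L' c) ∧ (φ b = β ∨ (N : ℤ) ≤ w.ord (φ b - β)) := by
  have hn0 : (n : k) ≠ 0 := Nat.cast_ne_zero.2 hn.ne'
  induction N with
  | zero =>
    refine ⟨algebraMap k L c, ?_, ?_⟩
    · have h : φ (algebraMap k L c) - cc k L' c = 0 := by
        rw [AlgHom.commutes]
        exact sub_self _
      rw [h]
      exact Place.zer_zero w
    · have h : φ (algebraMap k L c) - β = -(β - cc k L' c) := by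
        rw [AlgHom.commutes]
        show algebraMap k L' c - β = -(β - algebraMap k L' c)
        ring
      rcases hv with hv | hv
      · left
        rw [hv, neg_zero, sub_eq_zero] at h
        exact h
      · right
        rw [h, Place.ord_neg]
        simpa using hv.le
  | succ N ih =>
    obtain ⟨b, hb, h⟩ := ih
    rcases h with h | h
    · exact ⟨b, hb, Or.inl h⟩
    by_cases hd : φ b = β
    · exact ⟨b, hb, Or.inl hd⟩
    have hb' : w.Zer (φ b - algebraMap k L' c) := hb
    have hv' : w.Zer (β - algebraMap k L' c) := hv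
    have hB : φ b ≠ 0 := Place.ne_zero_of_val hb' hc
    have hnL : (n : L') = algebraMap k L' (n : k) := (map_natCast _ _).symm
    have hnL0 : (n : L') ≠ 0 := by
      rw [hnL]
      exact (map_ne_zero _).2 hn0
    have hD0 : (n : L') * φ b ^ (n - 1) ≠ 0 := mul_ne_zero hnL0 (pow_ne_zero _ hB)
    have hcn : (n : k) * c ^ (n - 1) ≠ 0 := mul_ne_zero hn0 (pow_ne_zero _ hc)
    have hDv : w.Zer ((n : L') * φ b ^ (n - 1) - algebraMap k L' ((n : k) * c ^ (n - 1))) := by
      rw [hnL]
      exact Place.val_mul (Place.val_const _) (Place.val_pow hb' _)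
    have hSv : w.Zer (∑ i ∈ Finset.range n, φ b ^ i * β ^ (n - 1 - i) -
        algebraMap k L' ((n : k) * c ^ (n - 1))) := by
      have h1 := A2_val_sum w (Finset.range n) (fun i => φ b ^ i * β ^ (n - 1 - i))
        (fun i => c ^ i * c ^ (n - 1 - i)) (fun i _ => Place.val_mul (Place.val_pow hb' _) (Place.val_pow hv' _))
      have h2 : ∑ i ∈ Finset.range n, c ^ i * c ^ (n - 1 - i) = (n : k) * c ^ (n - 1) := by
        rw [Finset.sum_congr rfl (g := fun _ => c ^ (n - 1)) (fun i hi => ?_), Finset.sum_const,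
          Finset.card_range, nsmul_eq_mul]
        have := Finset.mem_range.1 hi
        rw [← pow_add]
        congr 1
        omega
      rw [h2] at h1
      exact h1
    have hDS : w.Zer ((n : L') * φ b ^ (n - 1) - ∑ i ∈ Finset.range n, φ b ^ i * β ^ (n - 1 - i)) := by
      have h1 := Place.val_sub hDv hSv
      rwa [sub_self, map_zero, sub_zero] at h1
    have hDord : w.ord ((n : L') * φ b ^ (n - 1)) = 0 := Place.ord_eq_zero_of_val hDv hcn
    have hε : w.Zer (((n : L') * φ b ^ (n - 1) - ∑ i ∈ Finset.range n, φ b ^ i * β ^ (n - 1 - i)) *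
        ((n : L') * φ b ^ (n - 1))⁻¹) := by
      refine hDS.mul_reg (Or.inr ?_)
      rw [Place.ord_inv, hDord, neg_zero]
    have hkey : φ (b - (b ^ n - g) / ((n : L) * b ^ (n - 1))) - β = (φ b - β) *
        (((n : L') * φ b ^ (n - 1) - ∑ i ∈ Finset.range n, φ b ^ i * β ^ (n - 1 - i)) *
        ((n : L') * φ b ^ (n - 1))⁻¹) := by
      have hS := (Commute.all (φ b) β).geom_sum₂_mul n
      rw [map_sub, map_div₀, map_sub, map_mul, map_pow, map_pow, map_natCast, ← hβ, ← hS]
      field_simp
      ring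
    have hdz : w.Zer (φ b - β) := by
      have h1 := Place.val_sub hb' hv'
      rwa [sub_self, map_zero, sub_zero] at h1
    have hd0 : φ b - β ≠ 0 := sub_ne_zero.2 hd
    have hd1 : 0 < w.ord (φ b - β) := hdz.resolve_left hd0
    refine ⟨b - (b ^ n - g) / ((n : L) * b ^ (n - 1)), ?_, ?_⟩
    · have h1 : φ (b - (b ^ n - g) / ((n : L) * b ^ (n - 1))) - cc k L' c =
          (φ (b - (b ^ n - g) / ((n : L) * b ^ (n - 1))) - β) + (β - cc k L' c) := by ring
      rw [h1, hkey]
      exact (Place.Zer.mul_reg hdz hε.reg).add hv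
    · by_cases hε0 : ((n : L') * φ b ^ (n - 1) - ∑ i ∈ Finset.range n, φ b ^ i * β ^ (n - 1 - i)) *
        ((n : L') * φ b ^ (n - 1))⁻¹ = 0
      · left
        rw [hε0, mul_zero, sub_eq_zero] at hkey
        exact hkey
      · right
        have hε1 := hε.resolve_left hε0
        rw [hkey, w.ord_mul _ _ hd0 hε0]
        push_cast
        omega

end Pool.Agent.LibVT36
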