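import Pool.Agent.LibVT36.A0
import Pool.Agent.LibVT36.A1
import Pool.Agent.LibVT36.A2
import Pool.Agent.LibCHd.A1
import Pool.Agent.LibCHd.B4

/-!
[VT36 A3] (MEDIUM) Kummer extensions are unramified. Cites `ext_exists` (A1), `newton` (A2), `exists_val` (LibCHd/A1.lean: a regular function of a function field of one variable has a value in `k`), `place_restr` (LibCW77/T2.lean:
a place of `L'` restricts to `e` times a place `v` of `L`).
Take `L', φ, β` from `ext_exists`. Let `w` be a place of `L'`, `v`, `e > 0` with `w.ord (φ x) = e v.ord x`, `π` a uniformizer of `v`, `v.ord f = n m` (hypothesis), `g = f π ^ (- n m)`, `β₁ = β φ(π) ^ (- m)`: `β₁ ^ n = φ g`, `v.ord g = 0`,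
`w.ord β₁ = 0`, `c` = value of `β₁` at `w` (`exists_val` with `j = id`; trdeg of `L'` is 1: `FunF.trdeg`), `c ≠ 0`. Every `h ∈ L'` is a polynomial in `β`, hence in `β₁` (`β = φ(π ^ m) β₁`), with coefficients in `φ L`.
Take `h` with `w.ord h = 1`, `h = ∑ φ(a_i) β₁ ^ i`, `N` large (`N + w.ord (φ a_i) ≥ 2` for all `i` with `a_i ≠ 0`), `b` from `newton`: `h - φ (∑ a_i b ^ i) = ∑ φ(a_i) (β₁ ^ i - φ b ^ i)` has order `≥ 2` (or is `0`)
(`β₁ ^ i - φ b ^ i` is a multiple of `β₁ - φ b` by a regular element), so `w.ord (φ (∑ a_i b ^ i)) = 1`.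
-/

namespace Pool.Agent.LibVT36

open Pool.Agent.LibBH2
open Pool.Agent.LibCHd (FunF)

variable {k : Type} [Field k]

private def A3_G {K : Type} [Field K] [Algebra k K] (w : Place k K) (r : ℤ) (x : K) : Prop :=
  x = 0 ∨ r ≤ w.ord x

private theorem A3_G_add {K : Type} [Field K] [Algebra k K] {w : Place k K} {r : ℤ} {x y : K}
    (hx : A3_G w r x) (hy : A3_G w r y) : A3_G w r (x + y) := by
  by_cases h0 : x + y = 0
  · exact Or.inl h0
  rcases hx with rfl | hx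
  · rcases hy with rfl | hy
    · exact Or.inl (add_zero _)
    · exact Or.inr (by rwa [zero_add])
  · rcases hy with rfl | hy
    · exact Or.inr (by rwa [add_zero])
    · by_cases hx0 : x = 0
      · exact Or.inr (by rwa [hx0, zero_add])
      by_cases hy0 : y = 0
      · exact Or.inr (by rwa [hy0, add_zero])
      exact Or.inr (le_trans (le_min hx hy) (w.ord_add x y hx0 hy0 h0))

private theorem A3_G_mul {K : Type} [Field K] [Algebra k K] {w : Place k K} {r s : ℤ} {x y : K}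
    (hx : A3_G w r x) (hy : A3_G w s y) : A3_G w (r + s) (x * y) := by
  rcases hx with rfl | hx
  · exact Or.inl (zero_mul _)
  rcases hy with rfl | hy
  · exact Or.inl (mul_zero _)
  by_cases hx0 : x = 0
  · exact Or.inl (by rw [hx0, zero_mul])
  by_cases hy0 : y = 0
  · exact Or.inl (by rw [hy0, mul_zero])
  exact Or.inr (by rw [w.ord_mul _ _ hx0 hy0]; omega)

private theorem A3_G_mono {K : Type} [Field K] [Algebra k K] {w : Place k K} {r s : ℤ} {x : K}
    (hx : A3_G w r x) (h : s ≤ r) : A3_G w s x := by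
  rcases hx with rfl | hx
  · exact Or.inl rfl
  · exact Or.inr (h.trans hx)

/-- `x ^ i - y ^ i` is at least as small as `x - y` for regular `x`, `y` -/
private theorem A3_pow {K : Type} [Field K] [Algebra k K] {w : Place k K} {N : ℤ} {x y : K}
    (hx : w.Reg x) (hy : w.Reg y) (h : A3_G w N (x - y)) (i : ℕ) :
    A3_G w N (x ^ i - y ^ i) := by
  induction i with
  | zero => exact Or.inl (by rw [pow_zero, pow_zero, sub_self])
  | succ i ih =>
    have h1 : x ^ (i + 1) - y ^ (i + 1) = (x ^ i - y ^ i) * x + (x - y) * y ^ i := by ring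
    rw [h1]
    have h2 : A3_G w (N + 0) ((x ^ i - y ^ i) * x) := A3_G_mul ih hx
    have h3 : A3_G w (N + 0) ((x - y) * y ^ i) := A3_G_mul h (Place.Reg.pow hy i)
    rw [add_zero] at h2 h3
    exact A3_G_add h2 h3

private theorem A3_unr [IsAlgClosed k] [CharZero k] {L L' : Type} [Field L] [Algebra k L]
    [Field L'] [Algebra k L'] {f : L} (hf : f ≠ 0) {n : ℕ} (hn : 0 < n)
    (hd : ∀ w : Place k L, (n : ℤ) ∣ w.ord f) (φ : L →ₐ[k] L') (β : L') (hβ : β ^ n = φ f)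
    (hfin : Module.finrank φ.fieldRange L' ≠ 0) (hF : FunF k 1 L')
    (hP : ∀ h : L', ∃ P : Polynomial L, h = Polynomial.eval₂ (φ : L →+* L') β P)
    (w : Place k L') : ∃ x : L, w.ord (φ x) = 1 := by
  obtain ⟨v, e, he, hve⟩ := Pool.Agent.LibCW77.place_restr φ hfin w
  obtain ⟨m, hm⟩ := hd v
  obtain ⟨π, hπ⟩ := v.exists_uniformizer
  have hπ0 : π ≠ 0 := by
    rintro rfl
    rw [v.ord_zero] at hπ
    omega
  have hφf : φ f ≠ 0 := (map_ne_zero φ).2 hf
  have hβ0 : β ≠ 0 := by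
    rintro rfl
    rw [zero_pow hn.ne'] at hβ
    exact hφf hβ.symm
  obtain ⟨u0, hu0⟩ : ∃ u0 : L, u0 = π ^ m := ⟨_, rfl⟩
  have hu00 : u0 ≠ 0 := by
    rw [hu0]
    exact zpow_ne_zero m hπ0
  have hvu0 : v.ord u0 = m := by
    rw [hu0, v.ord_zpow, hπ, mul_one]
  have hu : φ u0 ≠ 0 := (map_ne_zero φ).2 hu00
  obtain ⟨β₁, hβ₁⟩ : ∃ β₁ : L', β₁ = β * (φ u0)⁻¹ := ⟨_, rfl⟩
  have hβ₁0 : β₁ ≠ 0 := by
    rw [hβ₁]
    exact mul_ne_zero hβ0 (inv_ne_zero hu)
  have hββ : β = φ u0 * β₁ := by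
    rw [hβ₁, mul_comm, inv_mul_cancel_right₀ hu]
  have hg : β₁ ^ n = φ (f * (u0⁻¹) ^ n) := by
    rw [hβ₁, mul_pow, hβ, map_mul, map_pow, map_inv₀]
  have hwβ : w.ord β = e * m := by
    have h1 : w.ord (β ^ n) = e * (n * m) := by
      rw [hβ, hve, hm]
    rw [w.ord_pow] at h1
    have h2 : (n : ℤ) * w.ord β = n * (e * m) := by
      rw [h1]
      ring
    exact mul_left_cancel₀ (by exact_mod_cast hn.ne') h2
  have hwβ₁ : w.ord β₁ = 0 := by
    rw [hβ₁, w.ord_mul _ _ hβ0 (inv_ne_zero hu), w.ord_inv, hwβ, hve, hvu0]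
    ring
  obtain ⟨h, hh⟩ := w.exists_uniformizer
  have hh0 : h ≠ 0 := by
    rintro rfl
    rw [w.ord_zero] at hh
    omega
  obtain ⟨c, hc⟩ := Pool.Agent.LibCHd.exists_val (k := k) (by rw [hF.trdeg]; simp)
    (AlgHom.id k L') w ⟨h, by rw [AlgHom.id_apply, hh]; omega⟩ β₁
    (by rw [AlgHom.id_apply]; exact Or.inr hwβ₁.ge)
  rw [AlgHom.id_apply] at hc
  have hc0 : c ≠ 0 := by
    rintro rfl
    rw [map_zero, sub_zero] at hc
    rcases hc with hc | hc
    · exact hβ₁0 hc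
    · omega
  obtain ⟨P, hPh⟩ := hP h
  obtain ⟨N, hN⟩ : ∃ N : ℕ, N = P.support.sup
      (fun i => (2 - w.ord (φ (P.coeff i * u0 ^ i))).toNat) := ⟨_, rfl⟩
  obtain ⟨b, hb, hbN⟩ := newton φ w hn hg hc0 hc N
  have hbG : A3_G w (N : ℤ) (β₁ - φ b) := by
    rcases hbN with hbN | hbN
    · exact Or.inl (by rw [hbN, sub_self])
    · right
      rw [← neg_sub, w.ord_neg]
      exact hbN
  have hregβ : w.Reg β₁ := Place.reg_of_val hc
  have hregb : w.Reg (φ b) := Place.reg_of_val hb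
  obtain ⟨q, hq⟩ : ∃ q : L, q = ∑ i ∈ P.support, P.coeff i * u0 ^ i * b ^ i := ⟨_, rfl⟩
  have hdiff : h - φ q = ∑ i ∈ P.support, φ (P.coeff i * u0 ^ i) * (β₁ ^ i - φ b ^ i) := by
    rw [hq, map_sum, hPh, Polynomial.eval₂_eq_sum, Polynomial.sum_def, ← Finset.sum_sub_distrib]
    refine Finset.sum_congr rfl ?_
    intro i _
    rw [map_mul φ (P.coeff i * u0 ^ i), map_mul, map_pow, map_pow, hββ, mul_pow]
    rw [AlgHom.coe_toRingHom]
    ring
  have hG2 : A3_G w 2 (h - φ q) := by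
    rw [hdiff]
    refine Finset.sum_induction _ (fun x => A3_G w 2 x) (fun x y hx hy => A3_G_add hx hy)
      (Or.inl rfl) ?_
    intro i hi
    have h1 := A3_pow hregβ hregb hbG i
    have h2 : A3_G w (w.ord (φ (P.coeff i * u0 ^ i))) (φ (P.coeff i * u0 ^ i)) := Or.inr le_rfl
    have h3 := A3_G_mul h2 h1
    refine A3_G_mono h3 ?_
    have h4 : (2 - w.ord (φ (P.coeff i * u0 ^ i))).toNat ≤ N := by
      rw [hN]
      exact Finset.le_sup (f := fun i => (2 - w.ord (φ (P.coeff i * u0 ^ i))).toNat) hi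
    omega
  refine ⟨q, ?_⟩
  rcases hG2 with h1 | h1
  · rw [← sub_eq_zero.1 h1, hh]
  · by_cases h0 : h - φ q = 0
    · rw [← sub_eq_zero.1 h0, hh]
    · have h2 := Place.ord_add_of_lt (v := w) hh0 (neg_ne_zero.2 h0)
        (by rw [w.ord_neg, hh]; omega)
      have h3 : h + -(h - φ q) = φ q := by ring
      rw [h3, hh] at h2
      exact h2.2

theorem kum [IsAlgClosed k] [CharZero k] {L : Type} [Field L] [Algebra k L] (hL : FunF k 1 L) {f : L} (hf : f ≠ 0)
    {n : ℕ} (hn : 0 < n) (hd : ∀ w : Place k L, (n : ℤ) ∣ w.ord f) :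
    ∃ (L' : Type) (_ : Field L') (_ : Algebra k L') (φ : L →ₐ[k] L') (β : L'),
      IsEt φ ∧ FunF k 1 L' ∧ β ^ n = φ f := by
  obtain ⟨L', i1, i2, φ, β, hβ, hfin, hF, hP⟩ := ext_exists hL hf hn
  exact ⟨L', i1, i2, φ, β, ⟨hfin, fun w => A3_unr hf hn hd φ β hβ hfin hF hP w⟩, hF, hβ⟩

end Pool.Agent.LibVT36
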