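import Pool.Agent.LibVT36.A0

/-!
[VT36 B0] (SHORT/MEDIUM) Five points to four points and infinity. `s₀ = 1 / (t - c_4)`, `e'_i = 1 / (c_i - c_4)` (`i < 4`), `σ = (∑ e'_i) / 4`, `s = s₀ - σ`, `e_i = e'_i - σ`. `NC`: `NC.mob` or directly.
`s - e_i = s₀ - e'_i = (c_i - t) / ((t - c_4) (c_i - c_4))`. If `w.ord s < 0` then `w.ord s₀ < 0`, `w.ord s = w.ord s₀ = - w.ord (t - c_4)` (`ord_add_of_lt`). If `0 < w.ord (s - e_i)` then `s₀` has the value `e'_i ≠ 0`, so
`w.ord (t - c_4) = 0` and `w.ord (s - e_i) = w.ord (t - c_i)`.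
-/

namespace Pool.Agent.LibVT36

open Pool.Agent.LibBH2
open Pool.Agent.LibCHd (FunF)

variable {k : Type} [Field k]
variable {L : Type} [Field L] [Algebra k L]

private theorem B0_ord_const_add {w : Place k L} {f : L} (hf : f ≠ 0) (a : k) (h : w.ord f < 0) :
    w.ord (f + cc k L a) = w.ord f := by
  by_cases ha : a = 0
  · subst ha
    simp [cc]
  · have h1 : algebraMap k L a ≠ 0 := by simpa using ha
    have h2 : w.ord (algebraMap k L a) = 0 := w.ord_const a ha
    exact (Place.ord_add_of_lt hf h1 (by rw [h2]; exact h)).2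

private theorem B0_reg_of_nonneg {w : Place k L} {f : L} (a : k) (h : 0 ≤ w.ord f) :
    0 ≤ w.ord (f + cc k L a) := by
  have h1 : w.Reg f := Or.inr h
  have h2 : w.Reg (f + cc k L a) := h1.add (Place.reg_const w a)
  rcases h2 with h2 | h2
  · rw [h2, w.ord_zero]
  · exact h2

theorem b0 [CharZero k] {t : L} {c : Fin 5 → k} (h : DA t c) : ∃ (s : L) (e : Fin 4 → k), DA1 s e := by
  have htne : ∀ a : k, t - cc k L a ≠ 0 := by
    intro a ha
    exact h.nc ⟨a, (sub_eq_zero.mp ha).symm⟩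
  obtain ⟨c4, hc4⟩ : ∃ c4, c4 = c 4 := ⟨_, rfl⟩
  obtain ⟨u, hu⟩ : ∃ u : L, u = t - cc k L c4 := ⟨_, rfl⟩
  have hune : u ≠ 0 := by rw [hu]; exact htne _
  have hcne : ∀ i : Fin 4, c (Fin.castSucc i) - c4 ≠ 0 := by
    intro i hi
    rw [sub_eq_zero, hc4] at hi
    have h1 := h.inj hi
    have h2 : ((Fin.castSucc i : Fin 5) : ℕ) = ((4 : Fin 5) : ℕ) := by rw [h1]
    have h3 : ((Fin.castSucc i : Fin 5) : ℕ) = (i : ℕ) := rfl
    have h4 : ((4 : Fin 5) : ℕ) = 4 := rfl
    have h5 := i.isLt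
    omega
  obtain ⟨E, hE⟩ : ∃ E : Fin 4 → k, E = fun i => (c (Fin.castSucc i) - c4)⁻¹ := ⟨_, rfl⟩
  obtain ⟨σ, hσ⟩ : ∃ σ : k, σ = (∑ i, E i) / 4 := ⟨_, rfl⟩
  have h4 : (4 : k) ≠ 0 := by norm_num
  refine ⟨u⁻¹ - cc k L σ, fun i => E i - σ, ?_, ?_, ?_, ?_, ?_⟩
  · rintro ⟨a, ha⟩
    have h1 : u⁻¹ = algebraMap k L (a + σ) := by
      rw [map_add, ha]; simp [cc]
    have h2 : u = algebraMap k L ((a + σ)⁻¹) := by
      rw [map_inv₀, ← h1, inv_inv]
    apply h.nc
    refine ⟨(a + σ)⁻¹ + c4, ?_⟩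
    rw [map_add, ← h2, hu]
    simp [cc]
  · intro i j hij
    have h1 : E i = E j := by
      have : E i - σ = E j - σ := hij
      exact sub_left_injective this
    rw [hE] at h1
    have h2 : c (Fin.castSucc i) - c4 = c (Fin.castSucc j) - c4 := inv_injective h1
    have h3 : c (Fin.castSucc i) = c (Fin.castSucc j) := sub_left_injective h2
    exact Fin.castSucc_injective _ (h.inj h3)
  · rw [Finset.sum_sub_distrib]
    simp only [Finset.sum_const, Finset.card_univ, Fintype.card_fin, nsmul_eq_mul]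
    rw [hσ]
    push_cast
    field_simp
    ring
  · intro w hw
    have hui : u⁻¹ ≠ 0 := inv_ne_zero hune
    have hrew : u⁻¹ - cc k L σ = u⁻¹ + cc k L (-σ) := by
      simp [cc, sub_eq_add_neg]
    rw [hrew] at hw ⊢
    have h1 : w.ord u⁻¹ < 0 := by
      by_contra hcon
      push Not at hcon
      have := B0_reg_of_nonneg (w := w) (-σ) hcon
      omega
    rw [B0_ord_const_add hui _ h1, Place.ord_inv]
    rw [Place.ord_inv] at h1
    have h2 : 0 < w.ord (t - cc k L (c 4)) := by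
      rw [← hc4, ← hu]; omega
    have h3 := h.ev w 4 h2
    rw [← hc4, ← hu] at h3
    exact (dvd_neg).mpr h3
  · intro w i hw
    have hEi : E i = (c (Fin.castSucc i) - c4)⁻¹ := by rw [hE]
    have hci : cc k L (c (Fin.castSucc i) - c4) ≠ 0 := by
      intro h0
      exact hcne i ((map_eq_zero (algebraMap k L)).mp h0)
    have hrew : u⁻¹ - cc k L σ - cc k L (E i - σ)
        = (-(t - cc k L (c (Fin.castSucc i)))) / (u * cc k L (c (Fin.castSucc i) - c4)) := by
      have h1 : cc k L (E i - σ) = cc k L (E i) - cc k L σ := by simp [cc]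
      have h2 : cc k L (E i) = (cc k L (c (Fin.castSucc i) - c4))⁻¹ := by
        rw [hEi]; simp [cc]
      have h3 : cc k L (c (Fin.castSucc i) - c4) = cc k L (c (Fin.castSucc i)) - cc k L c4 := by simp [cc]
      rw [h1, h2]
      rw [eq_div_iff (mul_ne_zero hune hci)]
      have h5 : (u⁻¹ - cc k L σ - ((cc k L (c (Fin.castSucc i) - c4))⁻¹ - cc k L σ)) * (u * cc k L (c (Fin.castSucc i) - c4))
          = (u⁻¹ * u) * cc k L (c (Fin.castSucc i) - c4)
            - ((cc k L (c (Fin.castSucc i) - c4))⁻¹ * cc k L (c (Fin.castSucc i) - c4)) * u := by ring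
      rw [h5, inv_mul_cancel₀ hune, inv_mul_cancel₀ hci, h3, hu]
      ring
    have hti : t - cc k L (c (Fin.castSucc i)) ≠ 0 := htne _
    have hcz : w.ord (cc k L (c (Fin.castSucc i) - c4)) = 0 := w.ord_const _ (hcne i)
    have hord : w.ord (u⁻¹ - cc k L σ - cc k L (E i - σ))
        = w.ord (t - cc k L (c (Fin.castSucc i))) - w.ord u := by
      rw [hrew, Place.ord_div _ _ _ (neg_ne_zero.mpr hti) (mul_ne_zero hune hci), Place.ord_neg,
        w.ord_mul _ _ hune hci, hcz, add_zero]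
    have hut : t - cc k L (c (Fin.castSucc i)) = u + cc k L (-(c (Fin.castSucc i) - c4)) := by
      rw [hu]; simp [cc]
    have hpos : 0 < w.ord (t - cc k L (c (Fin.castSucc i))) - w.ord u := by
      have h1 : 0 < w.ord (u⁻¹ - cc k L σ - cc k L (E i - σ)) := hw
      rwa [hord] at h1
    have hu0 : w.ord u = 0 := by
      rcases lt_trichotomy (w.ord u) 0 with h1 | h1 | h1
      · rw [hut, B0_ord_const_add hune _ h1] at hpos
        omega
      · exact h1
      · exfalso
        have h2 : w.Zer (t - cc k L (c (Fin.castSucc i))) := Or.inr (by omega)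
        have h3 : w.Zer u := Or.inr h1
        have h4 : w.Zer (u - (t - cc k L (c (Fin.castSucc i)))) := h3.sub h2
        have h5 : u - (t - cc k L (c (Fin.castSucc i))) = cc k L (c (Fin.castSucc i) - c4) := by
          rw [hu]; simp [cc]
        rw [h5] at h4
        exact hcne i ((Place.zer_const_iff w _).mp h4)
    have h6 : w.ord (u⁻¹ - cc k L σ - cc k L (E i - σ)) = w.ord (t - cc k L (c (Fin.castSucc i))) := by
      rw [hord, hu0, sub_zero]
    have h7 : 0 < w.ord (t - cc k L (c (Fin.castSucc i))) := by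
      rw [hu0, sub_zero] at hpos; exact hpos
    have h8 := h.ev w (Fin.castSucc i) h7
    show (2 : ℤ) ∣ w.ord (u⁻¹ - cc k L σ - cc k L (E i - σ))
    rw [h6]
    exact h8

end Pool.Agent.LibVT36
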