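import Pool.Agent.LibVT36.A0

/-!
[VT36 B1] (SHORT/MEDIUM) The quartic. At a pole of `s`: every factor has order `w.ord s`, the sum is `4 w.ord s`. Otherwise `s` is regular: the product is nonzero; every factor has order `≥ 0`, and its order is even (0 or by `ev`): use
`w.ord (∏ ...) = ∑ w.ord ...` (`Fin.prod_univ_four`, `ord_mul`). `b1'`: `IsEt.restr` for `pole`.
-/

namespace Pool.Agent.LibVT36

open Pool.Agent.LibBH2
open Pool.Agent.LibCHd (FunF)

variable {k : Type} [Field k]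
variable {L L' : Type} [Field L] [Algebra k L] [Field L'] [Algebra k L']

private theorem B1_pole {s : L} {w : Place k L} (hs : w.ord s < 0) (c : k)
    (hc : s - cc k L c ≠ 0) : w.ord (s - cc k L c) = w.ord s := by
  by_cases hc0 : c = 0
  · rw [hc0]
    show w.ord (s - algebraMap k L 0) = w.ord s
    rw [map_zero, sub_zero]
  have hs0 : s ≠ 0 := by
    rintro rfl
    rw [w.ord_zero] at hs
    exact absurd hs (lt_irrefl _)
  have hc1 : cc k L c ≠ 0 := by
    intro h
    exact hc0 ((map_eq_zero (algebraMap k L)).1 h)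
  have h1 : w.ord (cc k L c) = 0 := w.ord_const c hc0
  have h2 := w.ord_add s (-cc k L c) hs0 (neg_ne_zero.2 hc1) (by rw [← sub_eq_add_neg]; exact hc)
  rw [Place.ord_neg, h1, ← sub_eq_add_neg] at h2
  have h3 := w.ord_add (s - cc k L c) (cc k L c) hc hc1 (by rw [sub_add_cancel]; exact hs0)
  rw [sub_add_cancel, h1] at h3
  rw [min_def] at h2 h3
  split_ifs at h2 h3 <;> omega

theorem b1 {s : L} {e : Fin 4 → k} (h : DA1 s e) :
    (∏ i, (s - cc k L (e i))) ≠ 0 ∧ ∀ w : Place k L, (2 : ℤ) ∣ w.ord (∏ i, (s - cc k L (e i))) := by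
  have hne : ∀ i, s - cc k L (e i) ≠ 0 := fun i => h.nc.sub_ne (e i)
  refine ⟨Finset.prod_ne_zero_iff.2 fun i _ => hne i, fun w => ?_⟩
  rw [Fin.prod_univ_four, w.ord_mul _ _ (mul_ne_zero (mul_ne_zero (hne 0) (hne 1)) (hne 2)) (hne 3),
    w.ord_mul _ _ (mul_ne_zero (hne 0) (hne 1)) (hne 2), w.ord_mul _ _ (hne 0) (hne 1)]
  by_cases hs : w.ord s < 0
  · rw [B1_pole hs _ (hne 0), B1_pole hs _ (hne 1), B1_pole hs _ (hne 2), B1_pole hs _ (hne 3)]
    omega
  · have hreg : w.Reg s := Or.inr (not_lt.1 hs)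
    have key : ∀ i, (2 : ℤ) ∣ w.ord (s - cc k L (e i)) := by
      intro i
      have h1 : w.Reg (s - cc k L (e i)) := hreg.sub (w.reg_const (e i))
      rcases h1 with h1 | h1
      · exact absurd h1 (hne i)
      · rcases h1.eq_or_lt with h2 | h2
        · rw [← h2]
          exact dvd_zero _
        · exact h.ev w i h2
    exact dvd_add (dvd_add (dvd_add (key 0) (key 1)) (key 2)) (key 3)

theorem b1' {s : L} {e : Fin 4 → k} (h : DA1 s e) {φ : L →ₐ[k] L'} (hφ : IsEt φ) {y : L'}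
    (hy : y ^ 2 = φ (∏ i, (s - cc k L (e i)))) : DA2 (φ s) y e := by
  refine ⟨h.nc.map φ, h.inj, h.sum, ?_, ?_⟩
  · rw [hy, map_prod]
    refine Finset.prod_congr rfl fun i _ => ?_
    rw [map_sub]
    show φ s - φ (algebraMap k L (e i)) = φ s - algebraMap k L' (e i)
    rw [φ.commutes]
  · intro w hw
    obtain ⟨v, hv⟩ := hφ.restr w
    rw [← hv] at hw ⊢
    exact h.pole v hw

end Pool.Agent.LibVT36
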