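import Pool.Agent.LibVT36.A0

/-!
[VT36 B2] (MEDIUM) Quartic to Weierstrass. `∏ (s - e_i) = s^4 + p s^2 + q s + r` (`∑ e = 0`; `p = e_2(e)`, `q = - e_3(e)`, `r = e_4(e)`). `X₁ = 2 (y + s^2)`, `Y = 2 (X₁ + p) s + q`: `Y^2 = X₁^3 + p X₁^2 - 4 r X₁ + q^2 - 4 p r`
(linear_combination from `y^2 = ...`). `X = X₁ + p / 3`, `A = - 4 r - p^2 / 3`, `B = q^2 - 4 p r + (4/3) p r + (2/27) p^3` (check). Discriminant: `- (4 A^3 + 27 B^2) = ∏_{i<j} (e_i - e_j)^2` after `e_3 = - e_0 - e_1 - e_2` (the roots of the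
cubic in `X₁` are `- (e_0 e_1 + e_2 e_3)`, ...; differences `(e_0 - e_3)(e_1 - e_2)`, ...): prove `4 A^3 + 27 B^2 = - (∏_{i<j} (e_i - e_j))^2` by `ring` after substituting.
`NC X`: if `X₁ = a` constant then `y = a / 2 - s^2`, so `(a/2 - s^2)^2 = s^4 + p s^2 + q s + r`: `(a + p) s^2 + q s + r - a^2 / 4 = 0`, a polynomial relation for the nonconstant `s` (`mem_of_root`): `a = - p`, `q = 0`, `r = p^2 / 4`, so `∏ (X - e_i) = (X^2 + p/2)^2`,
the `e_i` are not different [e.g. by the discriminant identity: `A = - (4/3) p^2`..., `4 A^3 + 27 B^2 = 0`].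
Orders: let `w.ord X < 0`, so `w.ord X₁ = w.ord X`. If `s` is regular then `y` is (`y^2` is), so `X₁` is regular, contradiction; so `w.ord s < 0`, even by `pole`. `X₂ = 2 (s^2 - y)`: `X₁ + X₂ = 4 s^2`, `X₁ X₂ = - 4 (p s^2 + q s + r)`, of order `≥ 2 w.ord s` (or `0`).
If `w.ord X₁ < 2 w.ord s` then `w.ord X₂ = w.ord X₁`, `2 w.ord X₁ ≥ 2 w.ord s > ...` contradiction [`2 w.ord X₁ < 4 w.ord s < 2 w.ord s`]. If `w.ord X₁ > 2 w.ord s` then `w.ord X₂ = 2 w.ord s`, so `w.ord X₁ ≥ 0`, contradiction.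
So `w.ord X₁ = 2 w.ord s`, divisible by 4. (`X₁ X₂ = 0` is impossible: `X₁ ≠ 0`; `X₂ = 0` gives `X₁ = 4 s^2`, order `2 w.ord s`: fine.)
-/

namespace Pool.Agent.LibVT36

open Pool.Agent.LibBH2
open Pool.Agent.LibCHd (FunF)

variable {k : Type} [Field k]
variable {L : Type} [Field L] [Algebra k L]

private theorem B2_ord_add_const (w : Place k L) {f : L} (hf : w.ord f < 0) (a : k) :
    w.ord (f + cc k L a) = w.ord f := by
  by_cases ha : a = 0
  · subst ha; simp [cc]
  · have hf0 : f ≠ 0 := by rintro rfl; rw [w.ord_zero] at hf; exact lt_irrefl _ hf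
    have ha0 : algebraMap k L a ≠ 0 := by simpa using ha
    exact (Place.ord_add_of_lt hf0 ha0 (by rw [w.ord_const a ha]; exact hf)).2

private theorem B2_disc (e0 e1 e2 e3 : k) [CharZero k] (hs : e0 + e1 + e2 + e3 = 0)
    (p q r : k) (hp : p = e0 * e1 + e0 * e2 + e0 * e3 + e1 * e2 + e1 * e3 + e2 * e3)
    (hq : q = -(e0 * e1 * e2 + e0 * e1 * e3 + e0 * e2 * e3 + e1 * e2 * e3))
    (hr : r = e0 * e1 * e2 * e3) :
    4 * (-4 * r - p ^ 2 / 3) ^ 3 + 27 * (q ^ 2 - 4 * p * r + 4 / 3 * p * r + 2 / 27 * p ^ 3) ^ 2 =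
      -((e0 - e1) * (e0 - e2) * (e0 - e3) * (e1 - e2) * (e1 - e3) * (e2 - e3)) ^ 2 := by
  have h3 : e3 = -e0 - e1 - e2 := by linear_combination hs
  subst hp hq hr h3
  ring

theorem b2 [IsAlgClosed k] [CharZero k] {s y : L} {e : Fin 4 → k} (h : DA2 s y e) :
    ∃ (X Y : L) (A B : k), DE X Y A B := by
  haveI : CharZero L := charZero_of_injective_algebraMap (algebraMap k L).injective
  obtain ⟨hnc, hinj, hsum, heq, hpole⟩ := h
  rw [Fin.sum_univ_four] at hsum
  rw [Fin.prod_univ_four] at heq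
  set e0 := e 0 with he0
  set e1 := e 1 with he1
  set e2 := e 2 with he2
  set e3 := e 3 with he3
  obtain ⟨p, hp⟩ : ∃ p, p = e0 * e1 + e0 * e2 + e0 * e3 + e1 * e2 + e1 * e3 + e2 * e3 := ⟨_, rfl⟩
  obtain ⟨q, hq⟩ : ∃ q, q = -(e0 * e1 * e2 + e0 * e1 * e3 + e0 * e2 * e3 + e1 * e2 * e3) := ⟨_, rfl⟩
  obtain ⟨r, hr⟩ : ∃ r, r = e0 * e1 * e2 * e3 := ⟨_, rfl⟩
  have hdisc := B2_disc e0 e1 e2 e3 hsum p q r hp hq hr
  have hd0 : 4 * (-4 * r - p ^ 2 / 3) ^ 3 +
      27 * (q ^ 2 - 4 * p * r + 4 / 3 * p * r + 2 / 27 * p ^ 3) ^ 2 ≠ 0 := by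
    rw [hdisc]
    have hne : ∀ i j : Fin 4, i ≠ j → e i - e j ≠ 0 := by
      intro i j hij h0
      exact hij (hinj (sub_eq_zero.1 h0))
    have h01 : e0 - e1 ≠ 0 := hne 0 1 (by decide)
    have h02 : e0 - e2 ≠ 0 := hne 0 2 (by decide)
    have h03 : e0 - e3 ≠ 0 := hne 0 3 (by decide)
    have h12 : e1 - e2 ≠ 0 := hne 1 2 (by decide)
    have h13 : e1 - e3 ≠ 0 := hne 1 3 (by decide)
    have h23 : e2 - e3 ≠ 0 := hne 2 3 (by decide)
    exact neg_ne_zero.2 (pow_ne_zero _
      (mul_ne_zero (mul_ne_zero (mul_ne_zero (mul_ne_zero (mul_ne_zero h01 h02) h03) h12) h13) h23))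
  -- images
  have hS : cc k L e0 + cc k L e1 + cc k L e2 + cc k L e3 = 0 := by
    have := congrArg (algebraMap k L) hsum
    simpa [cc] using this
  have hP : cc k L p = cc k L e0 * cc k L e1 + cc k L e0 * cc k L e2 + cc k L e0 * cc k L e3 +
      cc k L e1 * cc k L e2 + cc k L e1 * cc k L e3 + cc k L e2 * cc k L e3 := by
    rw [hp]; simp [cc]
  have hQ : cc k L q = -(cc k L e0 * cc k L e1 * cc k L e2 + cc k L e0 * cc k L e1 * cc k L e3 +
      cc k L e0 * cc k L e2 * cc k L e3 + cc k L e1 * cc k L e2 * cc k L e3) := by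
    rw [hq]; simp only [cc, map_neg, map_add, map_mul]
  have hR : cc k L r = cc k L e0 * cc k L e1 * cc k L e2 * cc k L e3 := by
    rw [hr]; simp [cc]
  have hy : y ^ 2 = s ^ 4 + cc k L p * s ^ 2 + cc k L q * s + cc k L r := by
    rw [heq, hP, hQ, hR]
    linear_combination (-s ^ 3) * hS
  set P := cc k L p with hPd
  set Q := cc k L q with hQd
  set R := cc k L r with hRd
  have hX1 : cc k L (p / 3) = P / 3 := by simp only [cc, map_div₀, map_ofNat, hPd]
  have hAm : cc k L (-4 * r - p ^ 2 / 3) = -4 * R - P ^ 2 / 3 := by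
    simp only [cc, map_sub, map_mul, map_neg, map_div₀, map_pow, map_ofNat, hPd, hRd]
  have hBm : cc k L (q ^ 2 - 4 * p * r + 4 / 3 * p * r + 2 / 27 * p ^ 3) =
      Q ^ 2 - 4 * P * R + 4 / 3 * P * R + 2 / 27 * P ^ 3 := by
    simp only [cc, map_add, map_sub, map_mul, map_div₀, map_pow, map_ofNat, hPd, hRd, hQd]
  refine ⟨2 * (y + s ^ 2) + P / 3, 2 * (2 * (y + s ^ 2) + P) * s + Q, -4 * r - p ^ 2 / 3,
    q ^ 2 - 4 * p * r + 4 / 3 * p * r + 2 / 27 * p ^ 3, ?_, ?_, hd0, ?_⟩
  · -- NC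
    rintro ⟨a, ha⟩
    set a' := a - p / 3 with ha'
    have h1 : 2 * (y + s ^ 2) = cc k L a' := by
      have : cc k L a' = cc k L a - P / 3 := by rw [ha', ← hX1]; simp only [cc, map_sub]
      rw [this]; simp only [cc]; rw [ha]; ring
    have hrel : cc k L (a' + p) * s ^ 2 + Q * s + cc k L (r - a' ^ 2 / 4) = 0 := by
      have e1 : cc k L (a' + p) = cc k L a' + P := by simp only [cc, map_add, hPd]
      have e2 : cc k L (r - a' ^ 2 / 4) = R - cc k L a' ^ 2 / 4 := by
        simp only [cc, map_sub, map_div₀, map_pow, map_ofNat, hRd]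
      rw [e1, e2]
      have hyv : y = cc k L a' / 2 - s ^ 2 := by rw [← h1]; ring
      rw [hyv] at hy
      linear_combination -hy
    by_cases hz : a' + p = 0 ∧ q = 0 ∧ r - a' ^ 2 / 4 = 0
    · obtain ⟨z1, z2, z3⟩ := hz
      apply hd0
      have ea : a' = -p := by linear_combination z1
      have er : r = p ^ 2 / 4 := by rw [ea] at z3; linear_combination z3
      rw [z2, er]; ring
    · have hP0 : (Polynomial.C (a' + p) * Polynomial.X ^ 2 + Polynomial.C q * Polynomial.X +
          Polynomial.C (r - a' ^ 2 / 4) : Polynomial k) ≠ 0 := by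
        intro h0
        apply hz
        refine ⟨?_, ?_, ?_⟩
        · have := congrArg (fun F => Polynomial.coeff F 2) h0
          simpa [Polynomial.coeff_C_mul, Polynomial.coeff_X, Polynomial.coeff_C, Polynomial.coeff_X_pow,
            -map_add, -map_sub] using this
        · have := congrArg (fun F => Polynomial.coeff F 1) h0
          simpa [Polynomial.coeff_C_mul, Polynomial.coeff_X, Polynomial.coeff_C, Polynomial.coeff_X_pow,
            -map_add, -map_sub] using this
        · have := congrArg (fun F => Polynomial.coeff F 0) h0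
          simpa [Polynomial.coeff_C_mul, Polynomial.coeff_X, Polynomial.coeff_C, Polynomial.coeff_X_pow,
            -map_add, -map_sub] using this
      apply hnc
      apply mem_of_root _ hP0
      simp only [map_add, map_mul, Polynomial.aeval_C, map_pow, Polynomial.aeval_X]
      simpa [cc, hQd] using hrel
  · -- equation
    rw [hAm, hBm]
    linear_combination (-(4 * (2 * (y + s ^ 2)) + 4 * P)) * hy
  · -- orders
    intro w hw
    have hw1 : w.ord (2 * (y + s ^ 2)) = w.ord (2 * (y + s ^ 2) + P / 3) := by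
      have := B2_ord_add_const w hw (-(p / 3))
      rw [← this]
      congr 1
      have : cc k L (-(p / 3)) = -(P / 3) := by rw [← hX1]; simp only [cc, map_neg]
      rw [this]; ring
    rw [← hw1] at hw ⊢
    have hX0 : 2 * (y + s ^ 2) ≠ 0 := by
      intro h0; rw [h0, w.ord_zero] at hw; exact lt_irrefl _ hw
    have h2 : w.Reg (2 : L) := by
      have := w.reg_const (2 : k)
      rwa [map_ofNat] at this
    have hs : w.ord s < 0 := by
      by_contra hs
      push Not at hs
      have hsr : w.Reg s := Or.inr hs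
      have hyr2 : w.Reg (y ^ 2) := by
        rw [hy]
        exact (((hsr.pow 4).add ((w.reg_const p).mul (hsr.pow 2))).add ((w.reg_const q).mul hsr)).add
          (w.reg_const r)
      have hyr : w.Reg y := by
        by_cases hy0 : y = 0
        · exact Or.inl hy0
        · have := hyr2.resolve_left (pow_ne_zero _ hy0)
          rw [w.ord_pow] at this
          right; push_cast at this; omega
      have := (h2.mul (hyr.add (hsr.pow 2))).resolve_left hX0
      omega
    have hs0 : s ≠ 0 := by rintro rfl; rw [w.ord_zero] at hs; exact lt_irrefl _ hs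
    obtain ⟨n, hn⟩ := hpole w hs
    have h4s : w.ord (4 * s ^ 2) = 2 * w.ord s := by
      have h4 : w.ord (4 : L) = 0 := by
        have := w.ord_const (4 : k) (by norm_num)
        rwa [map_ofNat] at this
      rw [w.ord_mul _ _ (by norm_num) (pow_ne_zero _ hs0), h4, w.ord_pow]
      push_cast; ring
    have key : w.ord (2 * (y + s ^ 2)) = 2 * w.ord s := by
      by_cases hX2 : 2 * (s ^ 2 - y) = 0
      · rw [← h4s]
        congr 1
        linear_combination (-1 : L) * hX2
      · have hsum2 : 2 * (y + s ^ 2) + 2 * (s ^ 2 - y) = 4 * s ^ 2 := by ring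
        have hprod : 2 * (y + s ^ 2) * (2 * (s ^ 2 - y)) / s ^ 2 =
            -4 * (P + Q * s⁻¹ + R * (s⁻¹) ^ 2) := by
          field_simp
          linear_combination (-4 : L) * hy
        have hinv : w.Reg s⁻¹ := Or.inr (by rw [w.ord_inv]; omega)
        have hreg : w.Reg (2 * (y + s ^ 2) * (2 * (s ^ 2 - y)) / s ^ 2) := by
          rw [hprod]
          have h4' : w.Reg (-4 : L) := by
            have := w.reg_const (-4 : k)
            rwa [map_neg, map_ofNat] at this
          exact h4'.mul (((w.reg_const p).add ((w.reg_const q).mul hinv)).add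
            ((w.reg_const r).mul (hinv.pow 2)))
        have hne : 2 * (y + s ^ 2) * (2 * (s ^ 2 - y)) / s ^ 2 ≠ 0 :=
          div_ne_zero (mul_ne_zero hX0 hX2) (pow_ne_zero _ hs0)
        have hge := hreg.resolve_left hne
        rw [w.ord_div _ _ (mul_ne_zero hX0 hX2) (pow_ne_zero _ hs0), w.ord_mul _ _ hX0 hX2,
          w.ord_pow] at hge
        push_cast at hge
        rcases lt_trichotomy (w.ord (2 * (y + s ^ 2))) (w.ord (2 * (s ^ 2 - y))) with hlt | heq' | hgt
        · have := (Place.ord_add_of_lt hX0 hX2 hlt).2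
          rw [hsum2, h4s] at this
          exact this.symm
        · have h4ne : (4 : L) * s ^ 2 ≠ 0 := mul_ne_zero (by norm_num) (pow_ne_zero _ hs0)
          have := w.ord_add _ _ hX0 hX2 (by rw [hsum2]; exact h4ne)
          rw [hsum2, h4s, ← heq', min_self] at this
          omega
        · have := (Place.ord_add_of_lt hX2 hX0 hgt).2
          rw [add_comm, hsum2, h4s] at this
          omega
    rw [key, hn]
    exact ⟨n, by ring⟩

end Pool.Agent.LibVT36
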