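import Pool.Agent.LibVT36.Defs

/-!
[VT36 C0] (SHORT) Flexes of `Y^2 = X^3 + A X + B`. `x` a root of `3 x^4 + 6 A x^2 + 12 B x - A^2` (`IsAlgClosed`), `y0` a square root of `x^3 + A x + B`. `y0 ≠ 0`: otherwise `(3 x^2 + A)^2 = 12 x (x^3 + A x + B) - psi = 0`, so `A = - 3 x^2`,
`B = 2 x^3`, `4 A^3 + 27 B^2 = 0`. `al = (3 x^2 + A) / (2 y0)`; `al^2 = (3 x^2 + A)^2 / (4 y0^2) = 3 x`. `ne`: if `4 al^3 = 27 y0` then (times `al`) `4 al^4 = 27 al y0`: `36 x^2 = 27 (3 x^2 + A) / 2`, `A = - x^2 / 3`; `y0 al = (3x^2+A)/2 = (4/3) x^2`,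
`3 x y0^2 = (16/9) x^4`; `x ≠ 0` (else `al = 0`, `y0 = 0`), `y0^2 = (16/27) x^3`, `B = y0^2 - x^3 - A x = - (2/27) x^3`, `4 A^3 + 27 B^2 = 0`.
-/

namespace Pool.Agent.LibVT36

open Pool.Agent.LibBH2
open Pool.Agent.LibCHd (FunF)

variable {k : Type} [Field k]
private theorem C0_root [IsAlgClosed k] [CharZero k] (A B : k) :
    ∃ x : k, 3 * x ^ 4 + 6 * A * x ^ 2 + 12 * B * x - A ^ 2 = 0 := by
  have h3 : (3 : k) ≠ 0 := by norm_num
  obtain ⟨x, hx⟩ := IsAlgClosed.exists_root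
    (Polynomial.C (3 : k) * Polynomial.X ^ 4 + Polynomial.C (6 * A) * Polynomial.X ^ 2 +
      Polynomial.C (12 * B) * Polynomial.X + Polynomial.C (-A ^ 2)) (by
        have h : (Polynomial.C (3 : k) * Polynomial.X ^ 4 + Polynomial.C (6 * A) * Polynomial.X ^ 2 +
          Polynomial.C (12 * B) * Polynomial.X + Polynomial.C (-A ^ 2)).degree = 4 := by
          compute_degree!
        rw [h]
        decide)
  refine ⟨x, ?_⟩
  rw [Polynomial.IsRoot.def] at hx
  simp only [Polynomial.eval_add, Polynomial.eval_mul, Polynomial.eval_C, Polynomial.eval_pow,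
    Polynomial.eval_X] at hx
  rw [← hx]
  ring

theorem c0 [IsAlgClosed k] [CharZero k] {A B : k} (h : 4 * A ^ 3 + 27 * B ^ 2 ≠ 0) :
    ∃ x y0 al : k, Flex A B x y0 al := by
  obtain ⟨x, hx⟩ := C0_root A B
  obtain ⟨y0, hy⟩ := IsAlgClosed.exists_eq_mul_self (x ^ 3 + A * x + B)
  have hsq : (3 * x ^ 2 + A) ^ 2 = 12 * x * (y0 * y0) := by
    rw [← hy]
    linear_combination (-1 : k) * hx
  have hy0 : y0 ≠ 0 := by
    intro h0
    apply h
    rw [h0] at hsq hy
    have h1 : 3 * x ^ 2 + A = 0 := by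
      have h2 : (3 * x ^ 2 + A) ^ 2 = 0 := by
        rw [hsq]
        ring
      exact pow_eq_zero_iff (two_ne_zero) |>.mp h2
    have hA : A = -(3 * x ^ 2) := by linear_combination h1
    have hB : B = 2 * x ^ 3 := by
      rw [hA] at hy
      linear_combination hy
    rw [hA, hB]
    ring
  have h2 : (2 : k) ≠ 0 := two_ne_zero
  have htan : 2 * ((3 * x ^ 2 + A) / (2 * y0)) * y0 = 3 * x ^ 2 + A := by
    field_simp
  have hal : ((3 * x ^ 2 + A) / (2 * y0)) ^ 2 = 3 * x := by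
    rw [div_pow, hsq]
    field_simp
    ring
  refine ⟨x, y0, (3 * x ^ 2 + A) / (2 * y0), hy0, hal, htan, ?_, ?_⟩
  · rw [hy]
    ring
  · intro hne
    apply h
    obtain ⟨al, hdef⟩ : ∃ al, al = (3 * x ^ 2 + A) / (2 * y0) := ⟨_, rfl⟩
    rw [← hdef] at htan hal hne
    have hx0 : x ≠ 0 := by
      intro hx0
      have h4 : al = 0 := by
        have h5 : al ^ 2 = 0 := by
          rw [hal, hx0]
          ring
        exact pow_eq_zero_iff (two_ne_zero) |>.mp h5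
      rw [h4] at hne
      apply hy0
      have h6 : (27 : k) * y0 = 0 := by
        rw [← hne]
        ring
      have h27 : (27 : k) ≠ 0 := by norm_num
      exact (mul_eq_zero.mp h6).resolve_left h27
    have h3A : 3 * A = -x ^ 2 := by
      have h9 : (18 : k) ≠ 0 := by norm_num
      apply mul_left_cancel₀ h9
      linear_combination (-4 * al) * hne - 54 * htan + 16 * (al ^ 2 + 3 * x) * hal
    have h27y : 27 * (y0 * y0) = 16 * x ^ 3 := by
      have h4 : (4 : k) ≠ 0 := by norm_num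
      apply mul_left_cancel₀ (mul_ne_zero h4 hx0)
      -- 4 x 27 y0^2 = 9 (2 al y0)^2 = 9 (3 x^2 + A)^2 = (9 x^2 + 3 A)^2 = 64 x^4
      have h5 : 9 * (2 * al * y0) ^ 2 = 64 * x ^ 4 := by
        rw [htan]
        have h6 : 9 * (3 * x ^ 2 + A) ^ 2 = (9 * x ^ 2 + 3 * A) ^ 2 := by ring
        rw [h6, h3A]
        ring
      linear_combination h5 - 36 * (y0 * y0) * hal
    have h27B : 27 * B = -2 * x ^ 3 := by
      linear_combination 27 * hy + h27y - 9 * x * h3A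
    have h27 : (27 : k) ≠ 0 := by norm_num
    apply mul_left_cancel₀ h27
    have h7 : 27 * (4 * A ^ 3 + 27 * B ^ 2) = 4 * (3 * A) ^ 3 + (27 * B) ^ 2 := by ring
    rw [h7, h3A, h27B]
    ring

end Pool.Agent.LibVT36
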