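import Pool.Agent.LibVT36.A0

/-!
[VT36 C1] (SHORT/MEDIUM) `f1 = Y - al (X - x) - y0`, `f2 = Y + al (X - x) + y0`, `f1 f2 = (X - x)^3` (from `DE.eq` and `Flex`: `X^3 + A X + B - (al (X - x) + y0)^2 = (X - x)^3`). So `f1, f2 ≠ 0`. `X` regular at `w`: `Y` is regular, `f1, f2` regular; if
both vanish at `w` then `X - x` vanishes and `2 y0 = f2 - f1 - 2 al (X - x)` too, contradiction; so `w.ord f1 = 0` or `w.ord f2 = 0`, and `w.ord f1 + w.ord f2 = 3 w.ord (X - x)`. Pole of `X`: `w.ord X = 4 j`, `2 w.ord Y = 3 w.ord X` (from the equation), `w.ord f1 = w.ord Y`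
`= 6 j` (smaller than `w.ord X`). In this case also `w.ord f2 = 6 j`, see `c1'`.
-/

namespace Pool.Agent.LibVT36

open Pool.Agent.LibBH2
open Pool.Agent.LibCHd (FunF)

variable {k : Type} [Field k]
variable {L : Type} [Field L] [Algebra k L]

private theorem C1_add {w : Place k L} {f g : L} (hf : f ≠ 0) (h : g = 0 ∨ w.ord f < w.ord g) :
    f + g ≠ 0 ∧ w.ord (f + g) = w.ord f := by
  by_cases hg : g = 0
  · subst hg
    simp [hf]
  · rcases h with h | h
    · exact absurd h hg
    · exact w.ord_add_of_lt hf hg h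

private theorem C1_lin {w : Place k L} {X : L} (hX : w.ord X < 0) (a b : k) :
    cc k L a * X + cc k L b = 0 ∨ w.ord X ≤ w.ord (cc k L a * X + cc k L b) := by
  have hX0 : X ≠ 0 := by
    rintro rfl
    rw [w.ord_zero] at hX
    exact lt_irrefl _ hX
  by_cases hb : b = 0
  · by_cases ha : a = 0
    · left
      simp [cc, ha, hb]
    · right
      have ha' : cc k L a ≠ 0 := by simpa [cc] using ha
      have e : cc k L a * X + cc k L b = cc k L a * X := by simp [cc, hb]
      rw [e, w.ord_mul _ _ ha' hX0, w.ord_const a ha]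
      simp
  · right
    have hb' : cc k L b ≠ 0 := by simpa [cc] using hb
    have ob : w.ord (cc k L b) = 0 := w.ord_const b hb
    by_cases ha : a = 0
    · have e : cc k L a * X + cc k L b = cc k L b := by simp [cc, ha]
      rw [e, ob]
      exact hX.le
    · have ha' : cc k L a ≠ 0 := by simpa [cc] using ha
      have oa : w.ord (cc k L a * X) = w.ord X := by
        rw [w.ord_mul _ _ ha' hX0, w.ord_const a ha, zero_add]
      have := w.ord_add_of_lt (mul_ne_zero ha' hX0) hb' (by rw [oa, ob]; exact hX)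
      rw [this.2, oa]

private theorem C1_pole [CharZero k] {X Y : L} {A B x y0 al : k} (h : DE X Y A B) (w : Place k L) (hw : w.ord X < 0) :
    ∃ j : ℤ, w.ord X = 4 * j ∧ w.ord (Y - cc k L al * (X - cc k L x) - cc k L y0) = 6 * j := by
  obtain ⟨j, hj⟩ := h.pole w hw
  have hX0 : X ≠ 0 := by
    rintro rfl
    rw [w.ord_zero] at hw
    exact lt_irrefl _ hw
  have hj0 : j < 0 := by omega
  refine ⟨j, hj, ?_⟩
  have o3 : w.ord (X ^ 3) = 12 * j := by
    rw [w.ord_pow, hj]
    push_cast
    ring
  have h1 := C1_lin hw A B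
  have h2 : cc k L A * X + cc k L B = 0 ∨ w.ord (X ^ 3) < w.ord (cc k L A * X + cc k L B) := by
    rcases h1 with h1 | h1
    · exact Or.inl h1
    · right
      rw [o3]
      omega
  have h3 := C1_add (pow_ne_zero 3 hX0) h2
  have h4 : Y ^ 2 = X ^ 3 + (cc k L A * X + cc k L B) := by
    rw [h.eq]
    ring
  rw [← h4] at h3
  have hY0 : Y ≠ 0 := by
    intro h0
    apply h3.1
    rw [h0]
    ring
  have oY : w.ord Y = 6 * j := by
    have := h3.2
    rw [w.ord_pow, o3] at this
    push_cast at this
    omega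
  have h5 := C1_lin hw (-al) (al * x - y0)
  have h6 : cc k L (-al) * X + cc k L (al * x - y0) = 0 ∨
      w.ord Y < w.ord (cc k L (-al) * X + cc k L (al * x - y0)) := by
    rcases h5 with h5 | h5
    · exact Or.inl h5
    · right
      rw [oY]
      omega
  have h7 := (C1_add hY0 h6).2
  have e : Y - cc k L al * (X - cc k L x) - cc k L y0 = Y + (cc k L (-al) * X + cc k L (al * x - y0)) := by
    simp only [cc, map_neg, map_sub, map_mul]
    ring
  rw [e, h7, oY]

theorem c1 [CharZero k] {X Y : L} {A B x y0 al : k} (h : DE X Y A B) (hf : Flex A B x y0 al) :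
    Y - cc k L al * (X - cc k L x) - cc k L y0 ≠ 0 ∧
    (Y - cc k L al * (X - cc k L x) - cc k L y0) * (Y + cc k L al * (X - cc k L x) + cc k L y0) = (X - cc k L x) ^ 3 ∧
    ∀ w : Place k L, (3 : ℤ) ∣ w.ord (Y - cc k L al * (X - cc k L x) - cc k L y0) := by
  have hsq : cc k L al ^ 2 = 3 * cc k L x := by
    have := congrArg (algebraMap k L) hf.sq
    rw [map_pow, map_mul, map_ofNat] at this
    exact this
  have htan : 2 * cc k L al * cc k L y0 = 3 * cc k L x ^ 2 + cc k L A := by
    have := congrArg (algebraMap k L) hf.tan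
    rw [map_add, map_mul, map_mul, map_mul, map_pow, map_ofNat, map_ofNat] at this
    exact this
  have hon : cc k L y0 ^ 2 = cc k L x ^ 3 + cc k L A * cc k L x + cc k L B := by
    have := congrArg (algebraMap k L) hf.on
    simpa [cc] using this
  have hprod : (Y - cc k L al * (X - cc k L x) - cc k L y0) * (Y + cc k L al * (X - cc k L x) + cc k L y0)
      = (X - cc k L x) ^ 3 := by
    have e1 : (Y - cc k L al * (X - cc k L x) - cc k L y0) * (Y + cc k L al * (X - cc k L x) + cc k L y0)
      = Y ^ 2 - (cc k L al ^ 2 * (X - cc k L x) ^ 2 + (2 * cc k L al * cc k L y0) * (X - cc k L x) + cc k L y0 ^ 2) := by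
      ring
    rw [e1, h.eq, hsq, htan, hon]
    ring
  have hXx : X - cc k L x ≠ 0 := h.nc.sub_ne x
  have hne : Y - cc k L al * (X - cc k L x) - cc k L y0 ≠ 0 := by
    intro h0
    rw [h0, zero_mul] at hprod
    exact pow_ne_zero 3 hXx hprod.symm
  have hne2 : Y + cc k L al * (X - cc k L x) + cc k L y0 ≠ 0 := by
    intro h0
    rw [h0, mul_zero] at hprod
    exact pow_ne_zero 3 hXx hprod.symm
  refine ⟨hne, hprod, fun w => ?_⟩
  by_cases hw : w.ord X < 0
  · obtain ⟨j, -, hj⟩ := C1_pole (x := x) (y0 := y0) (al := al) h w hw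
    rw [hj]
    exact ⟨2 * j, by ring⟩
  · push Not at hw
    have rX : w.Reg X := Or.inr hw
    have rc : ∀ a : k, w.Reg (cc k L a) := fun a => Place.reg_const w a
    have rXx : w.Reg (X - cc k L x) := Place.Reg.sub rX (rc x)
    have rY2 : w.Reg (Y ^ 2) := by
      rw [h.eq]
      exact Place.Reg.add (Place.Reg.add (Place.Reg.pow rX 3) (Place.Reg.mul (rc A) rX)) (rc B)
    have rY : w.Reg Y := by
      by_cases hY : Y = 0
      · exact Or.inl hY
      · right
        rcases rY2 with h0 | h0
        · exact absurd (pow_eq_zero_iff (two_ne_zero)|>.1 h0) hY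
        · rw [w.ord_pow] at h0
          push_cast at h0
          omega
    have r1 : w.Reg (Y - cc k L al * (X - cc k L x) - cc k L y0) :=
      Place.Reg.sub (Place.Reg.sub rY (Place.Reg.mul (rc al) rXx)) (rc y0)
    have r2 : w.Reg (Y + cc k L al * (X - cc k L x) + cc k L y0) :=
      Place.Reg.add (Place.Reg.add rY (Place.Reg.mul (rc al) rXx)) (rc y0)
    by_cases z1 : w.Zer (Y - cc k L al * (X - cc k L x) - cc k L y0)
    · by_cases z2 : w.Zer (Y + cc k L al * (X - cc k L x) + cc k L y0)
      · exfalso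
        have zp : w.Zer ((X - cc k L x) ^ 3) := by
          rw [← hprod]
          exact Place.Zer.mul_reg z1 r2
        have zX : w.Zer (X - cc k L x) := by
          right
          rcases zp with h0 | h0
          · exact absurd h0 (pow_ne_zero 3 hXx)
          · rw [w.ord_pow] at h0
            push_cast at h0
            omega
        have zc : w.Zer (cc k L (2 * y0)) := by
          have e : cc k L (2 * y0) = (Y + cc k L al * (X - cc k L x) + cc k L y0)
              - (Y - cc k L al * (X - cc k L x) - cc k L y0) - cc k L (2 * al) * (X - cc k L x) := by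
            simp only [cc, map_mul, map_ofNat]
            ring
          rw [e]
          exact Place.Zer.sub (Place.Zer.sub z2 z1) (Place.Zer.reg_mul (rc _) zX)
        have := (Place.zer_const_iff w (2 * y0)).1 zc
        exact mul_ne_zero two_ne_zero hf.hy0 this
      · have o2 := Place.ord_eq_zero_of_reg r2 z2
        have := congrArg w.ord hprod
        rw [w.ord_mul _ _ hne hne2, o2, add_zero, w.ord_pow] at this
        rw [this]
        exact ⟨w.ord (X - cc k L x), by push_cast; ring⟩
    · rw [Place.ord_eq_zero_of_reg r1 z1]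
      exact dvd_zero 3

theorem c1' [CharZero k] {X Y : L} {A B x y0 al : k} (h : DE X Y A B) (w : Place k L) (hw : w.ord X < 0) :
    ∃ j : ℤ, w.ord X = 4 * j ∧ w.ord (Y - cc k L al * (X - cc k L x) - cc k L y0) = 6 * j :=
  C1_pole h w hw

end Pool.Agent.LibVT36
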