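import Pool.Agent.LibVT36.C1

/-!
[VT36 C2] (MEDIUM) Weierstrass to Hesse. `u^3 = φ f1`, `v = (φ X - x) / u`: `v^3 = φ f2`, `u v = φ X - x`, `v^3 - u^3 = φ (f2 - f1) = 2 al u v + 2 y0`. `de^3 = 2 y0` (`IsAlgClosed`), `U = u / de`, `V = - v / de`, `la = 2 al / (3 de)`: `U^3 + V^3 + 1 = 3 la U V`;
`la^3 = 8 al^3 / (27 * 2 y0) = 4 al^3 / (27 y0) ≠ 1`. `NC U`: if `U` (so `u`, so `f1`) is constant then `Y` is a linear polynomial in `X` with constant coefficients and `DE.eq` is a nonzero cubic relation for `X` (`mem_of_root`), contradiction with `NC X`.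
Pole: `w` place of `L'` with `w.ord U < 0`, `v` its restriction (`IsEt.restr`): `3 w.ord u = v.ord f1 < 0`; so `v.ord X < 0` (if `X` is regular then `Y` and `f1` are), `v.ord f1 = 6 j` (`c1'`), `w.ord U = w.ord u = 2 j`.
-/

namespace Pool.Agent.LibVT36

open Pool.Agent.LibBH2
open Pool.Agent.LibCHd (FunF)

variable {k : Type} [Field k]
variable {L L' : Type} [Field L] [Algebra k L] [Field L'] [Algebra k L']

private theorem C2_poly_ne (a b c : k) :
    (Polynomial.X ^ 3 + Polynomial.C a * Polynomial.X ^ 2 + Polynomial.C b * Polynomial.X + Polynomial.C c :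
      Polynomial k) ≠ 0 := by
  intro h
  have h1 := congrArg (fun P => Polynomial.coeff P 3) h
  simp [Polynomial.coeff_X, Polynomial.coeff_C] at h1

theorem c2 [IsAlgClosed k] [CharZero k] {X Y : L} {A B x y0 al : k} (h : DE X Y A B) (hf : Flex A B x y0 al)
    {φ : L →ₐ[k] L'} (hφ : IsEt φ) {u : L'} (hu : u ^ 3 = φ (Y - cc k L al * (X - cc k L x) - cc k L y0)) :
    ∃ (U V : L') (la : k), DH U V la := by
  obtain ⟨hf1, hprod, -⟩ := c1 h hf
  have hinj : Function.Injective φ := φ.injective
  have hφf1 : φ (Y - cc k L al * (X - cc k L x) - cc k L y0) ≠ 0 := by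
    intro h0
    exact hf1 (hinj (by rw [h0, map_zero]))
  have hu0 : u ≠ 0 := by
    rintro rfl
    apply hφf1
    rw [← hu]
    simp
  obtain ⟨de, hde⟩ := IsAlgClosed.exists_pow_nat_eq (2 * y0) (show 0 < 3 by norm_num)
  have hy0 := hf.hy0
  have hde0 : de ≠ 0 := by
    rintro rfl
    have : (2 : k) * y0 ≠ 0 := mul_ne_zero two_ne_zero hy0
    apply this
    rw [← hde]
    simp
  have hcde0 : cc k L' de ≠ 0 := by
    intro h0
    exact hde0 ((FaithfulSMul.algebraMap_injective k L') (h0.trans (map_zero _).symm))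
  have hcy0 : cc k L' y0 ≠ 0 := by
    intro h0
    exact hy0 ((FaithfulSMul.algebraMap_injective k L') (h0.trans (map_zero _).symm))
  have hchar : CharZero L' := charZero_of_injective_algebraMap (FaithfulSMul.algebraMap_injective k L')
  have hcde : (cc k L' de) ^ 3 = 2 * cc k L' y0 := by
    have e21 : algebraMap k L' 2 = 2 := map_ofNat _ 2
    rw [← map_pow, hde, map_mul, e21]
  -- the image of the equations
  have hφc : ∀ c : k, φ (cc k L c) = cc k L' c := fun c => φ.commutes c
  have hu' : u ^ 3 = φ Y - cc k L' al * (φ X - cc k L' x) - cc k L' y0 := by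
    rw [hu, map_sub, map_sub, map_mul, map_sub, hφc, hφc, hφc]
  have hprod' : u ^ 3 * (φ Y + cc k L' al * (φ X - cc k L' x) + cc k L' y0) = (φ X - cc k L' x) ^ 3 := by
    have h1 := congrArg φ hprod
    rw [map_mul, ← hu, map_add, map_add, map_mul, map_sub, map_pow, map_sub, hφc, hφc, hφc] at h1
    exact h1
  let v : L' := (φ X - cc k L' x) / u
  have huv : u * v = φ X - cc k L' x := by
    simp only [v]
    field_simp
  have hv3 : v ^ 3 = φ Y + cc k L' al * (φ X - cc k L' x) + cc k L' y0 := by
    have hu3 : u ^ 3 ≠ 0 := pow_ne_zero _ hu0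
    apply mul_left_cancel₀ hu3
    rw [hprod', ← mul_pow, huv]
  have hdiff : v ^ 3 - u ^ 3 = 2 * cc k L' al * (u * v) + 2 * cc k L' y0 := by
    rw [hv3, hu', huv]
    ring
  refine ⟨u / cc k L' de, - v / cc k L' de, 2 * al / (3 * de), ?_, ?_, ?_, ?_⟩
  · -- nonconstant
    rintro ⟨a, ha⟩
    have h1 : u = cc k L' (a * de) := by
      show u = algebraMap k L' (a * de)
      rw [map_mul, ha]
      field_simp
    have h2 : Y - cc k L al * (X - cc k L x) - cc k L y0 = cc k L ((a * de) ^ 3) := by
      apply hinj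
      rw [← hu, hφc, h1, ← map_pow]
    have h3 : Y = cc k L al * X + cc k L (y0 + (a * de) ^ 3 - al * x) := by
      have h4 : cc k L (y0 + (a * de) ^ 3 - al * x) = cc k L y0 + cc k L ((a * de) ^ 3) - cc k L al * cc k L x := by
        simp only [cc, map_sub, map_add, map_mul]
      rw [h4, ← h2]
      ring
    have h5 := h.eq
    rw [h3] at h5
    apply h.nc
    refine mem_of_root (Polynomial.X ^ 3 + Polynomial.C (- al ^ 2) * Polynomial.X ^ 2 +
      Polynomial.C (A - 2 * al * (y0 + (a * de) ^ 3 - al * x)) * Polynomial.X +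
      Polynomial.C (B - (y0 + (a * de) ^ 3 - al * x) ^ 2)) (C2_poly_ne _ _ _) ?_
    generalize (y0 + (a * de) ^ 3 - al * x) = e at h5 ⊢
    simp only [map_add, map_mul, map_pow, Polynomial.aeval_X, Polynomial.aeval_C, map_sub, map_neg, map_ofNat]
    linear_combination -h5
  · -- the equation
    have e1 : (u / cc k L' de) ^ 3 + (- v / cc k L' de) ^ 3 + 1 = (u ^ 3 - v ^ 3 + (cc k L' de) ^ 3) / (cc k L' de) ^ 3 := by
      field_simp
      ring
    have e2 : cc k L' (2 * al / (3 * de)) = 2 * cc k L' al / (3 * cc k L' de) := by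
      have e21 : algebraMap k L' 2 = 2 := map_ofNat _ 2
      have e22 : algebraMap k L' 3 = 3 := map_ofNat _ 3
      simp only [cc, map_div₀, map_mul, e21, e22]
    rw [e1, e2]
    have e3 : u ^ 3 - v ^ 3 + (cc k L' de) ^ 3 = - (2 * cc k L' al * (u * v)) := by
      rw [hcde]
      linear_combination -hdiff
    rw [e3]
    field_simp
  · -- the parameter
    intro h1
    apply hf.ne
    have h3 : (3 : k) ≠ 0 := three_ne_zero
    have h2 : (2 * al) ^ 3 = (3 * de) ^ 3 := by
      rw [div_pow, div_eq_one_iff_eq (pow_ne_zero _ (mul_ne_zero h3 hde0))] at h1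
      exact h1
    have h4 : (3 * de) ^ 3 = 27 * (2 * y0) := by
      rw [← hde]; ring
    rw [h4] at h2
    have h5 : (2 : k) * (4 * al ^ 3) = 2 * (27 * y0) := by
      linear_combination h2
    exact mul_left_cancel₀ two_ne_zero h5
  · -- poles
    intro w hw
    obtain ⟨v', hv'⟩ := hφ.restr w
    have h1 : w.ord (u / cc k L' de) = w.ord u := by
      rw [w.ord_div _ _ hu0 hcde0, w.ord_const de hde0, sub_zero]
    rw [h1] at hw ⊢
    have h2 : 3 * w.ord u = v'.ord (Y - cc k L al * (X - cc k L x) - cc k L y0) := by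
      rw [hv', ← hu, w.ord_pow]
      norm_num
    have hX : v'.ord X < 0 := by
      by_contra hX
      push Not at hX
      have hXr : v'.Reg X := Or.inr hX
      have hYr : v'.Reg Y := by
        by_cases hY0 : Y = 0
        · exact Or.inl hY0
        · refine Or.inr ?_
          have h3 : v'.Reg (Y ^ 2) := by
            rw [h.eq]
            exact ((hXr.pow 3).add ((v'.reg_const A).mul hXr)).add (v'.reg_const B)
          have h4 := h3.resolve_left (pow_ne_zero 2 hY0)
          rw [v'.ord_pow] at h4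
          push_cast at h4
          omega
      have h3 : v'.Reg (Y - cc k L al * (X - cc k L x) - cc k L y0) :=
        (hYr.sub ((v'.reg_const al).mul (hXr.sub (v'.reg_const x)))).sub (v'.reg_const y0)
      have h4 := h3.resolve_left hf1
      omega
    obtain ⟨j, hj1, hj2⟩ := c1' (x := x) (y0 := y0) (al := al) h v' hX
    exact ⟨j, by omega⟩

end Pool.Agent.LibVT36
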