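import Pool.Agent.LibVT36.A0

/-!
[VT36 D0] (MEDIUM) The three flex lines at infinity of the Hesse cubic. `ln_prod`, `ln_sum`: `ring`-like identities with `1 + ω + ω^2 = 0`, `ω^3 = 1` and `DH.eq` (`U^3 + V^3 + la^3 - 3 la U V = l_0 l_1 l_2`). `ln_ne`: product `≠ 0`.
`d0`: at `w`, if all `l_j` are regular then, the product being a nonzero constant, all orders are `0`. Otherwise let `- m < 0` be the smallest order; the sum is the constant `3 la`, so at least two of the `l_j` have order `- m` (if only one has the minimal order then the sum has order `- m < 0`,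
impossible for a constant), and the product has order `0`: the third has order `2 m`. `2 ∣ m`: `3 U = l_0 + ω^2 l_1 + ω l_2` (check), so `w.ord U ≥ - m`; `w.ord V ≥ - m` similarly, and if `w.ord U > - m`... : from `DH.eq` at a pole of `U` or `V` both have the same order
(the two cubes dominate: if `w.ord U < w.ord V` and `w.ord U < 0` then `3 w.ord U < w.ord (V^3), w.ord 1, w.ord (U V)`, contradiction); some `l_j` has order `- m < 0`, so `U` or `V` has order `≤ - m`. Hence `w.ord U = w.ord V = - m`, and `DH.pole`.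
-/

namespace Pool.Agent.LibVT36

open Pool.Agent.LibBH2
open Pool.Agent.LibCHd (FunF)

variable {k : Type} [Field k]
variable {L : Type} [Field L] [Algebra k L]

variable [CharZero k]

private theorem D0_m (a b : k) : cc k L (a * b) = cc k L a * cc k L b := map_mul _ _ _

private theorem D0_p (a : k) (n : ℕ) : cc k L (a ^ n) = (cc k L a) ^ n := map_pow _ _ _

private theorem D0_s (a b : k) : cc k L (a - b) = cc k L a - cc k L b := map_sub _ _ _

private theorem D0_1 : cc k L 1 = 1 := map_one _

private theorem D0_3 : cc k L 3 = 3 := map_ofNat _ 3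

private theorem D0_h3 {ω : k} (hω : IsPrimitiveRoot ω 3) : ω ^ 2 + ω + 1 = 0 := by
  have h := hω.geom_sum_eq_zero (by norm_num)
  simp only [Finset.sum_range_succ, Finset.sum_range_zero, pow_zero, pow_one, zero_add] at h
  linear_combination h

private theorem D0_o {ω : k} (hω : IsPrimitiveRoot ω 3) :
    (cc k L ω) ^ 2 + cc k L ω + 1 = 0 := by
  have h := congrArg (algebraMap k L) (D0_h3 hω)
  simpa only [map_add, map_pow, map_one, map_zero] using h

private theorem D0_e0 (ω la : k) (U V : L) : ln ω la U V 0 = U + V + cc k L la := by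
  simp [ln]

private theorem D0_e1 (ω la : k) (U V : L) :
    ln ω la U V 1 = cc k L ω * U + (cc k L ω) ^ 2 * V + cc k L la := by
  simp [ln]

private theorem D0_e2 {ω : k} (la : k) (U V : L) (hω : IsPrimitiveRoot ω 3) :
    ln ω la U V 2 = (cc k L ω) ^ 2 * U + cc k L ω * V + cc k L la := by
  have h3 := D0_o (L := L) hω
  have h4 : (cc k L ω) ^ 4 = cc k L ω := by
    linear_combination ((cc k L ω) ^ 2 - cc k L ω) * h3
  have : ln ω la U V 2 = (cc k L ω) ^ 2 * U + (cc k L ω) ^ 4 * V + cc k L la := by
    simp [ln]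
  rw [this, h4]

private theorem D0_V {U V : L} {la ω : k} (h : DH U V la) (hω : IsPrimitiveRoot ω 3) : V ≠ 0 := by
  intro hV
  have he := h.eq
  rw [hV] at he
  have h3 := D0_o (L := L) hω
  have hp : (U + 1) * (U + cc k L ω) * (U + (cc k L ω) ^ 2) = 0 := by
    have : (U + 1) * (U + cc k L ω) * (U + (cc k L ω) ^ 2) = U ^ 3 + 1 := by
      linear_combination (U ^ 2 + (cc k L ω) * U + (cc k L ω - 1)) * h3
    rw [this]
    linear_combination he
  rcases mul_eq_zero.1 hp with hp | hp
  · rcases mul_eq_zero.1 hp with hp | hp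
    · exact h.nc ⟨-1, by rw [map_neg, map_one]; linear_combination -hp⟩
    · exact h.nc ⟨-ω, by rw [map_neg]; linear_combination -hp⟩
  · exact h.nc ⟨-ω ^ 2, by rw [map_neg, map_pow]; linear_combination -hp⟩

private def D0_G (w : Place k L) (n : ℤ) (x : L) : Prop := x = 0 ∨ n < w.ord x

private theorem D0_add {w : Place k L} {n : ℤ} {x y : L} (hx : D0_G w n x) (hy : D0_G w n y) :
    D0_G w n (x + y) := by
  by_cases h0 : x + y = 0
  · exact Or.inl h0
  rcases hx with rfl | hx
  · simpa [D0_G] using hy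
  by_cases hy0 : y = 0
  · rw [hy0, add_zero]; exact Or.inr hx
  by_cases hx0 : x = 0
  · rw [hx0, zero_add]; exact hy
  have hy := hy.resolve_left hy0
  exact Or.inr (lt_of_lt_of_le (lt_min hx hy) (w.ord_add x y hx0 hy0 h0))

private theorem D0_neg {w : Place k L} {n : ℤ} {x : L} (hx : D0_G w n x) : D0_G w n (-x) := by
  rcases hx with rfl | hx
  · left; simp
  · right; rwa [w.ord_neg]

private theorem D0_sub {w : Place k L} {n : ℤ} {x y : L} (hx : D0_G w n x) (hy : D0_G w n y) :
    D0_G w n (x - y) := by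
  rw [sub_eq_add_neg]; exact D0_add hx (D0_neg hy)

private theorem D0_c {w : Place k L} {n : ℤ} (hn : n < 0) (a : k) : D0_G w n (cc k L a) := by
  by_cases ha : a = 0
  · left; rw [ha]; exact map_zero _
  · right; rw [w.ord_const a ha]; exact hn

private theorem D0_mulc {w : Place k L} {n : ℤ} {x : L} (a : k) (hx : D0_G w n x) :
    D0_G w n (cc k L a * x) := by
  by_cases ha : a = 0
  · left; rw [ha]; simp
  rcases hx with rfl | hx
  · left; simp
  by_cases hx0 : x = 0
  · left; rw [hx0]; simp
  · right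
    rw [w.ord_mul _ _ (by simpa using ha) hx0, w.ord_const a ha, zero_add]
    exact hx

/-- if the sum of three elements is a constant, the minimal order (if negative) is attained twice -/
private theorem D0_two {w : Place k L} {x y z : L} {a : k} (hx : x ≠ 0)
    (hs : x + y + z = cc k L a) (h0 : w.ord x < 0) (hy : w.ord x < w.ord y)
    (hz : w.ord x < w.ord z) : False := by
  have h1 : D0_G w (w.ord x) (cc k L a - y - z) :=
    D0_sub (D0_sub (D0_c h0 a) (Or.inr hy)) (Or.inr hz)
  have h2 : cc k L a - y - z = x := by rw [← hs]; ring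
  rw [h2] at h1
  rcases h1 with h1 | h1
  · exact hx h1
  · exact lt_irrefl _ h1

theorem ln_prod {U V : L} {la ω : k} (h : DH U V la) (hω : IsPrimitiveRoot ω 3) :
    ln ω la U V 0 * ln ω la U V 1 * ln ω la U V 2 = cc k L (la ^ 3 - 1) := by
  have h3 := D0_o (L := L) hω
  rw [D0_e0, D0_e1, D0_e2 la U V hω, D0_s, D0_p, D0_1]
  have h1 : (cc k L ω * U + (cc k L ω) ^ 2 * V + cc k L la) *
      ((cc k L ω) ^ 2 * U + cc k L ω * V + cc k L la) =
      U ^ 2 + V ^ 2 - U * V - cc k L la * (U + V) + (cc k L la) ^ 2 := by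
    linear_combination ((cc k L ω - 1) * (U ^ 2 + V ^ 2) +
      ((cc k L ω) ^ 2 - cc k L ω + 1) * U * V + cc k L la * (U + V)) * h3
  linear_combination (U + V + cc k L la) * h1 + h.eq

theorem ln_sum {U V : L} {la ω : k} (hω : IsPrimitiveRoot ω 3) :
    ln ω la U V 0 + ln ω la U V 1 + ln ω la U V 2 = 3 * cc k L la := by
  have h3 := D0_o (L := L) hω
  rw [D0_e0, D0_e1, D0_e2 la U V hω]
  linear_combination (U + V) * h3

theorem ln_ne {U V : L} {la ω : k} (h : DH U V la) (hω : IsPrimitiveRoot ω 3) (j : Fin 3) :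
    ln ω la U V j ≠ 0 := by
  have hp := ln_prod h hω
  have hne : cc k L (la ^ 3 - 1) ≠ 0 := by
    intro h0
    have := (map_eq_zero (algebraMap k L)).1 h0
    exact h.hla (sub_eq_zero.1 this)
  rw [← hp] at hne
  fin_cases j
  · exact fun h0 => hne (by simp only [Fin.zero_eta] at h0; rw [h0]; ring)
  · exact fun h0 => hne (by simp only [Fin.mk_one] at h0; rw [h0]; ring)
  · exact fun h0 => hne (by simp only [Fin.reduceFinMk] at h0; rw [h0]; ring)

theorem d0 {U V : L} {la ω : k} (h : DH U V la) (hω : IsPrimitiveRoot ω 3) (w : Place k L) :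
    (∀ j, w.ord (ln ω la U V j) = 0) ∨
      ∃ (m : ℤ) (j₀ : Fin 3), 0 < m ∧ (2 : ℤ) ∣ m ∧ w.ord (ln ω la U V j₀) = 2 * m ∧
        ∀ j, j ≠ j₀ → w.ord (ln ω la U V j) = -m := by
  have h3 := D0_o (L := L) hω
  have hp := ln_prod h hω
  have hs := ln_sum (la := la) (U := U) (V := V) hω
  have hn0 := ln_ne h hω 0
  have hn1 := ln_ne h hω 1
  have hn2 := ln_ne h hω 2
  have hc : la ^ 3 - 1 ≠ 0 := fun h0 => h.hla (sub_eq_zero.1 h0)
  have ho : w.ord (ln ω la U V 0) + w.ord (ln ω la U V 1) + w.ord (ln ω la U V 2) = 0 := by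
    rw [← w.ord_mul _ _ hn0 hn1, ← w.ord_mul _ _ (mul_ne_zero hn0 hn1) hn2, hp,
      w.ord_const _ hc]
  have hs' : ln ω la U V 0 + ln ω la U V 1 + ln ω la U V 2 = cc k L (3 * la) := by
    rw [hs, D0_m, D0_3]
  -- the key: order of U
  have key : ∀ m : ℤ, 0 < m → (∃ j, w.ord (ln ω la U V j) = -m) →
      (∀ j, -m ≤ w.ord (ln ω la U V j)) → (2 : ℤ) ∣ m := by
    intro m hm hex hall
    have hmul : ∀ (a : k) (j : Fin 3), D0_G w (-m - 1) (cc k L a * ln ω la U V j) := fun a j =>
      D0_mulc a (Or.inr (by have := hall j; omega))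
    have h3ne : (cc k L (3⁻¹ : k)) * 3 = 1 := by
      have : cc k L (3⁻¹ * 3 : k) = 1 := by
        rw [inv_mul_cancel₀ (by norm_num : (3 : k) ≠ 0)]; exact map_one _
      rw [D0_m, D0_3] at this
      exact this
    have hU : D0_G w (-m - 1) U := by
      have h1 : D0_G w (-m - 1) (cc k L (3⁻¹ : k) * (cc k L 1 * ln ω la U V 0 +
          cc k L (ω ^ 2) * ln ω la U V 1 + cc k L ω * ln ω la U V 2)) :=
        D0_mulc _ (D0_add (D0_add (hmul _ _) (hmul _ _)) (hmul _ _))
      have h2 : cc k L (3⁻¹ : k) * (cc k L 1 * ln ω la U V 0 +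
          cc k L (ω ^ 2) * ln ω la U V 1 + cc k L ω * ln ω la U V 2) = U := by
        rw [D0_e0, D0_e1, D0_e2 la U V hω, D0_1, D0_p]
        have h4 : (cc k L ω) ^ 3 = 1 := by linear_combination (cc k L ω - 1) * h3
        have h5 : (1 * (U + V + cc k L la) + (cc k L ω) ^ 2 *
            (cc k L ω * U + (cc k L ω) ^ 2 * V + cc k L la) + cc k L ω *
            ((cc k L ω) ^ 2 * U + cc k L ω * V + cc k L la)) = 3 * U := by
          linear_combination (2 * U + cc k L ω * V) * h4 + (V + cc k L la) * h3
        rw [h5, ← mul_assoc, h3ne, one_mul]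
      rwa [h2] at h1
    have hV : D0_G w (-m - 1) V := by
      have h1 : D0_G w (-m - 1) (cc k L (3⁻¹ : k) * (cc k L 1 * ln ω la U V 0 +
          cc k L ω * ln ω la U V 1 + cc k L (ω ^ 2) * ln ω la U V 2)) :=
        D0_mulc _ (D0_add (D0_add (hmul _ _) (hmul _ _)) (hmul _ _))
      have h2 : cc k L (3⁻¹ : k) * (cc k L 1 * ln ω la U V 0 +
          cc k L ω * ln ω la U V 1 + cc k L (ω ^ 2) * ln ω la U V 2) = V := by
        rw [D0_e0, D0_e1, D0_e2 la U V hω, D0_1, D0_p]
        have h4 : (cc k L ω) ^ 3 = 1 := by linear_combination (cc k L ω - 1) * h3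
        have h5 : (1 * (U + V + cc k L la) + cc k L ω *
            (cc k L ω * U + (cc k L ω) ^ 2 * V + cc k L la) + (cc k L ω) ^ 2 *
            ((cc k L ω) ^ 2 * U + cc k L ω * V + cc k L la)) = 3 * V := by
          linear_combination (2 * V + cc k L ω * U) * h4 + (U + cc k L la) * h3
        rw [h5, ← mul_assoc, h3ne, one_mul]
      rwa [h2] at h1
    have hV0 : V ≠ 0 := D0_V h hω
    have hU0 : U ≠ 0 := by
      rintro rfl
      exact h.nc ⟨0, map_zero _⟩
    have hU' := hU.resolve_left hU0
    have hV' := hV.resolve_left hV0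
    -- one of the two has order -m
    have hor : w.ord U = -m ∨ w.ord V = -m := by
      by_contra hcon
      push Not at hcon
      obtain ⟨j, hj⟩ := hex
      have h1 : D0_G w (-m) (ln ω la U V j) := by
        unfold ln
        exact D0_add (D0_add (D0_mulc _ (Or.inr (by omega))) (D0_mulc _ (Or.inr (by omega))))
          (D0_c (by omega) _)
      rcases h1 with h1 | h1
      · exact ln_ne h hω j h1
      · omega
    have hUm : w.ord U = -m := by
      by_contra hne
      have hVm : w.ord V = -m := hor.resolve_left hne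
      have hUlt : -m < w.ord U := by omega
      have hUV : w.ord (U * V) = w.ord U + w.ord V := w.ord_mul _ _ hU0 hV0
      have h1 : D0_G w (-3 * m) (cc k L (3 * la) * (U * V) - U ^ 3 - cc k L 1) := by
        refine D0_sub (D0_sub (D0_mulc _ (Or.inr ?_)) (Or.inr ?_)) (D0_c (by omega) _)
        · rw [hUV, hVm]; omega
        · rw [w.ord_pow]; push_cast; omega
      have h2 : cc k L (3 * la) * (U * V) - U ^ 3 - cc k L 1 = V ^ 3 := by
        rw [D0_m, D0_1, D0_3]
        linear_combination -h.eq
      rw [h2] at h1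
      rcases h1 with h1 | h1
      · exact hV0 (pow_eq_zero_iff (by norm_num) |>.1 h1)
      · rw [w.ord_pow, hVm] at h1
        push_cast at h1
        omega
    have := h.pole w (by omega)
    rw [hUm] at this
    exact (dvd_neg.1 this)
  set n0 := w.ord (ln ω la U V 0) with en0
  set n1 := w.ord (ln ω la U V 1) with en1
  set n2 := w.ord (ln ω la U V 2) with en2
  -- minimal order attained twice
  have t0 : n0 < 0 → n0 < n1 → n0 < n2 → False := fun a b c => D0_two hn0 hs' a b c
  have t1 : n1 < 0 → n1 < n0 → n1 < n2 → False := fun a b c =>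
    D0_two (a := 3 * la) hn1 (by rw [← hs']; ring) a b c
  have t2 : n2 < 0 → n2 < n0 → n2 < n1 → False := fun a b c =>
    D0_two (a := 3 * la) hn2 (by rw [← hs']; ring) a b c
  have hall : ∀ {P : Fin 3 → Prop}, P 0 → P 1 → P 2 → ∀ j, P j := by
    intro P a b c j
    fin_cases j
    · exact a
    · exact b
    · exact c
  by_cases hz : n0 = 0 ∧ n1 = 0 ∧ n2 = 0
  · left
    exact hall hz.1 hz.2.1 hz.2.2
  right
  have hcases : (n1 < 0 ∧ n1 = n2 ∧ n0 = -2 * n1) ∨ (n0 < 0 ∧ n0 = n2 ∧ n1 = -2 * n0) ∨
      (n0 < 0 ∧ n0 = n1 ∧ n2 = -2 * n0) := by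
    by_contra hcon
    push Not at hcon
    by_cases a : n0 < n1
    · by_cases b : n0 < n2
      · by_cases c : n0 < 0
        · exact t0 c a b
        · omega
      · by_cases c : n2 < n0
        · exact t2 (by omega) c (by omega)
        · have := hcon.2.1 (by omega) (by omega); omega
    · by_cases b : n1 < n2
      · by_cases c : n1 < n0
        · exact t1 (by omega) c b
        · have := hcon.2.2 (by omega) (by omega); omega
      · by_cases c : n2 < n1
        · exact t2 (by omega) (by omega) c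
        · have := hcon.1 (by omega) (by omega); omega
  rcases hcases with ⟨ha, hb, hc'⟩ | ⟨ha, hb, hc'⟩ | ⟨ha, hb, hc'⟩
  · refine ⟨-n1, 0, by omega, key (-n1) (by omega) ⟨1, by omega⟩
      (hall (by omega) (by omega) (by omega)), by omega, ?_⟩
    exact hall (fun hj => absurd rfl hj) (fun _ => by omega) (fun _ => by omega)
  · refine ⟨-n0, 1, by omega, key (-n0) (by omega) ⟨0, by omega⟩
      (hall (by omega) (by omega) (by omega)), by omega, ?_⟩
    exact hall (fun _ => by omega) (fun hj => absurd rfl hj) (fun _ => by omega)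
  · refine ⟨-n0, 2, by omega, key (-n0) (by omega) ⟨0, by omega⟩
      (hall (by omega) (by omega) (by omega)), by omega, ?_⟩
    exact hall (fun _ => by omega) (fun _ => by omega) (fun hj => absurd rfl hj)

end Pool.Agent.LibVT36
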