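import Pool.Agent.LibVT36.D0

/-!
[VT36 D1] (SHORT) From `d0`: `w.ord (l_0 / l_2) = w.ord l_0 - w.ord l_2` is `0`, `± 3 m` or `0`.
-/

namespace Pool.Agent.LibVT36

open Pool.Agent.LibBH2
open Pool.Agent.LibCHd (FunF)

variable {k : Type} [Field k]
variable {L : Type} [Field L] [Algebra k L]

theorem d1 [CharZero k] {U V : L} {la ω : k} (h : DH U V la) (hω : IsPrimitiveRoot ω 3) :
    ln ω la U V 0 / ln ω la U V 2 ≠ 0 ∧ ∀ w : Place k L, (3 : ℤ) ∣ w.ord (ln ω la U V 0 / ln ω la U V 2) := by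
  have h0 := ln_ne h hω 0
  have h2 := ln_ne h hω 2
  refine ⟨div_ne_zero h0 h2, fun w => ?_⟩
  rw [Place.ord_div _ _ _ h0 h2]
  rcases d0 h hω w with H | ⟨m, j₀, hm, -, hj, H⟩
  · rw [H 0, H 2]
    norm_num
  · by_cases e0 : (0 : Fin 3) = j₀
    · have e2 : (2 : Fin 3) ≠ j₀ := by
        rw [← e0]
        decide
      rw [H 2 e2]
      rw [← e0] at hj
      rw [hj]
      exact ⟨m, by ring⟩
    · by_cases e2 : (2 : Fin 3) = j₀
      · rw [H 0 e0]
        rw [← e2] at hj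
        rw [hj]
        exact ⟨-m, by ring⟩
      · rw [H 0 e0, H 2 e2]
        norm_num

end Pool.Agent.LibVT36
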