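import Pool.Agent.LibVT36.D0

/-!
[VT36 D2] (MEDIUM) The second isogeny. `rho^3 = la^3 - 1` (`IsAlgClosed`; `rho ≠ 0`), `b = rho / (a φ(l_2))`, `ka = la / rho`. `b^3 = φ (l_1 / l_2)` (`ln_prod`), `a^3 + b^3 + 1 = φ ((l_0 + l_1 + l_2) / l_2) = 3 la / φ l_2 = 3 ka a b`. `ka^3 = la^3 / (la^3 - 1) ≠ 1`.
Orders at `w` (`v` the restriction, `d0`): `3 w.ord a = v.ord l_0 - v.ord l_2`, `3 w.ord b = v.ord l_1 - v.ord l_2`, each is `0` or `± 3 m` with `2 ∣ m`.
`NC a`: if `a` is constant then `b` is algebraic over `k` (`DN.eq` is a polynomial equation for `b` with constant coefficients, leading coefficient 1), so constant (`mem_of_root`), so `φ l_2 = rho / (a b)` is constant, `φ l_0 = a^3 φ l_2`, `φ l_1` constant, `3 φ U = φ l_0 + ω^2 φ l_1 + ω φ l_2` is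
constant, contradiction with `NC.map`.
-/

namespace Pool.Agent.LibVT36

open Pool.Agent.LibBH2
open Pool.Agent.LibCHd (FunF)

variable {k : Type} [Field k]
variable {L L' : Type} [Field L] [Algebra k L] [Field L'] [Algebra k L']

private theorem D2_poly_ne (b c : k) :
    (Polynomial.X ^ 3 + Polynomial.C b * Polynomial.X + Polynomial.C c : Polynomial k) ≠ 0 := by
  intro h
  have h1 := congrArg (fun P => Polynomial.coeff P 3) h
  simp [Polynomial.coeff_X, Polynomial.coeff_C] at h1

theorem d2 [IsAlgClosed k] [CharZero k] {U V : L} {la ω : k} (h : DH U V la) (hω : IsPrimitiveRoot ω 3)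
    {φ : L →ₐ[k] L'} (hφ : IsEt φ) {a : L'} (ha : a ^ 3 = φ (ln ω la U V 0 / ln ω la U V 2)) :
    ∃ (b : L') (ka : k), DN a b ka := by
  have hinj : Function.Injective φ := φ.injective
  have hcinj : Function.Injective (algebraMap k L') := FaithfulSMul.algebraMap_injective k L'
  have hchar : CharZero L' := charZero_of_injective_algebraMap hcinj
  have hφc : ∀ c : k, φ (algebraMap k L c) = algebraMap k L' c := fun c => φ.commutes c
  have hl0 := ln_ne h hω 0
  have hl1 := ln_ne h hω 1
  have hl2 := ln_ne h hω 2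
  have hprod := ln_prod h hω
  have hsum := ln_sum (U := U) (V := V) (la := la) hω
  have hd0 := d0 h hω
  have h3U : 3 * U = ln ω la U V 0 + algebraMap k L (ω ^ 2) * ln ω la U V 1 + algebraMap k L ω * ln ω la U V 2 := by
    have hw3 : (algebraMap k L ω) ^ 3 = 1 := by rw [← map_pow, hω.pow_eq_one, map_one]
    have hw2 : 1 + algebraMap k L ω + (algebraMap k L ω) ^ 2 = 0 := by
      have h1 : 1 + ω + ω ^ 2 = 0 := by
        have := hω.geom_sum_eq_zero (by norm_num)
        simpa [Finset.sum_range_succ] using this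
      have h2 := congrArg (algebraMap k L) h1
      rw [map_add, map_add, map_one, map_pow, map_zero] at h2
      exact h2
    simp only [ln, cc, map_pow, Fin.val_zero, Fin.val_one, Fin.val_two, mul_zero, mul_one, pow_zero, pow_one, map_one, one_mul]
    generalize algebraMap k L ω = w at hw3 hw2 ⊢
    generalize algebraMap k L la = l
    have h4 : w ^ (2 * 2) = w := by
      rw [show (2 * 2) = 3 + 1 from rfl, pow_succ, hw3, one_mul]
    rw [h4]
    linear_combination (-2 * U - w * V) * hw3 - (V + l) * hw2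
  generalize hL0 : ln ω la U V 0 = l0 at *
  generalize hL1 : ln ω la U V 1 = l1 at *
  generalize hL2 : ln ω la U V 2 = l2 at *
  have hM0 : φ l0 ≠ 0 := fun h0 => hl0 (hinj (by rw [h0, map_zero]))
  have hM1 : φ l1 ≠ 0 := fun h0 => hl1 (hinj (by rw [h0, map_zero]))
  have hM2 : φ l2 ≠ 0 := fun h0 => hl2 (hinj (by rw [h0, map_zero]))
  have hMp : φ l0 * φ l1 * φ l2 = algebraMap k L' (la ^ 3 - 1) := by
    rw [← map_mul, ← map_mul, hprod]
    exact hφc _
  have hMs : φ l0 + φ l1 + φ l2 = 3 * algebraMap k L' la := by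
    rw [← map_add, ← map_add, hsum, map_mul, map_ofNat]
    exact congrArg _ (hφc _)
  have hM3 : 3 * φ U = φ l0 + algebraMap k L' (ω ^ 2) * φ l1 + algebraMap k L' ω * φ l2 := by
    have h1 := congrArg φ h3U
    rw [map_mul, map_ofNat, map_add, map_add, map_mul, map_mul, hφc, hφc] at h1
    exact h1
  rw [map_div₀] at ha
  obtain ⟨rho, hrho⟩ := IsAlgClosed.exists_pow_nat_eq (la ^ 3 - 1) (show 0 < 3 by norm_num)
  have hla1 : la ^ 3 - 1 ≠ 0 := sub_ne_zero.2 h.hla
  have hrho0 : rho ≠ 0 := by
    rintro rfl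
    apply hla1
    rw [← hrho]
    simp
  have hcrho : algebraMap k L' rho ≠ 0 := by
    intro h0
    exact hrho0 (hcinj (h0.trans (map_zero _).symm))
  have hcrho3 : (algebraMap k L' rho) ^ 3 = φ l0 * φ l1 * φ l2 := by
    rw [hMp, ← map_pow, hrho]
  have ha0 : a ≠ 0 := by
    rintro rfl
    have h1 : φ l0 / φ l2 ≠ 0 := div_ne_zero hM0 hM2
    apply h1
    rw [← ha]
    simp
  let b : L' := algebraMap k L' rho / (a * φ l2)
  have hb : b = algebraMap k L' rho / (a * φ l2) := rfl
  have hb0 : b ≠ 0 := div_ne_zero hcrho (mul_ne_zero ha0 hM2)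
  have hb3 : b ^ 3 = φ l1 / φ l2 := by
    rw [hb, div_pow, mul_pow, ha, hcrho3]
    field_simp
  have heq : a ^ 3 + b ^ 3 + 1 = 3 * cc k L' (la / rho) * a * b := by
    have h1 : cc k L' (la / rho) = algebraMap k L' la / algebraMap k L' rho := map_div₀ _ _ _
    rw [h1, ha, hb3, hb]
    field_simp
    linear_combination hMs
  refine ⟨b, la / rho, ?_, heq, ?_, ?_, ?_⟩
  · -- nonconstant
    rintro ⟨c, hc⟩
    have h1 : b ∈ Set.range (algebraMap k L') := by
      refine mem_of_root (Polynomial.X ^ 3 + Polynomial.C (- (3 * (la / rho) * c)) * Polynomial.X +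
        Polynomial.C (c ^ 3 + 1)) (D2_poly_ne _ _) ?_
      have e21 : algebraMap k L' 3 = 3 := map_ofNat _ 3
      rw [← hc] at heq
      simp only [map_add, map_mul, map_pow, Polynomial.aeval_X, Polynomial.aeval_C, map_neg, map_one, e21]
      simp only [cc] at heq
      linear_combination heq
    obtain ⟨d, hd⟩ := h1
    have hcd : algebraMap k L' c * algebraMap k L' d ≠ 0 := by
      rw [hc, hd]
      exact mul_ne_zero ha0 hb0
    have h2 : φ l2 = algebraMap k L' (rho / (c * d)) := by
      rw [map_div₀, map_mul, hc, hd, hb]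
      field_simp
    have h3 : φ l0 = algebraMap k L' (c ^ 3 * (rho / (c * d))) := by
      rw [map_mul, map_pow, ← h2, hc, ha]
      field_simp
    have h4 : φ l1 = algebraMap k L' (d ^ 3 * (rho / (c * d))) := by
      rw [map_mul, map_pow, ← h2, hd, hb3]
      field_simp
    have h5 : NC k (φ U) := h.nc.map φ
    apply h5
    refine ⟨(c ^ 3 * (rho / (c * d)) + ω ^ 2 * (d ^ 3 * (rho / (c * d))) + ω * (rho / (c * d))) / 3, ?_⟩
    have e21 : algebraMap k L' 3 = 3 := map_ofNat _ 3
    have h30 : (3 : L') ≠ 0 := three_ne_zero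
    rw [map_div₀, e21, map_add, map_add, map_mul _ (ω ^ 2), map_mul _ ω, ← h2, ← h3, ← h4, ← hM3]
    field_simp
  · -- the parameter
    intro h1
    rw [div_pow, div_eq_one_iff_eq (pow_ne_zero _ hrho0), hrho] at h1
    have h2 : (1 : k) = 0 := by linear_combination h1
    exact one_ne_zero h2
  · intro w
    obtain ⟨v, hv⟩ := hφ.restr w
    have h1 : 3 * w.ord a = v.ord l0 - v.ord l2 := by
      rw [hv, hv, ← w.ord_div _ _ hM0 hM2, ← ha, w.ord_pow]
      norm_num
    rcases hd0 v with h2 | ⟨m, j₀, hm, ⟨n, hn⟩, h2, h3⟩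
    · have e0 := h2 0
      have e2 := h2 2
      rw [hL0] at e0
      rw [hL2] at e2
      exact ⟨0, by omega⟩
    · fin_cases j₀
      · have e0 : v.ord l0 = 2 * m := by rw [← hL0]; exact h2
        have e2 := h3 2 (by decide)
        rw [hL2] at e2
        exact ⟨n, by omega⟩
      · have e0 := h3 0 (by decide)
        have e2 := h3 2 (by decide)
        rw [hL0] at e0
        rw [hL2] at e2
        exact ⟨0, by omega⟩
      · have e0 := h3 0 (by decide)
        rw [hL0] at e0
        have e2 : v.ord l2 = 2 * m := by rw [← hL2]; exact h2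
        exact ⟨-n, by omega⟩
  · intro w
    obtain ⟨v, hv⟩ := hφ.restr w
    have h1 : 3 * w.ord b = v.ord l1 - v.ord l2 := by
      rw [hv, hv, ← w.ord_div _ _ hM1 hM2, ← hb3, w.ord_pow]
      norm_num
    rcases hd0 v with h2 | ⟨m, j₀, hm, ⟨n, hn⟩, h2, h3⟩
    · have e0 := h2 1
      have e2 := h2 2
      rw [hL1] at e0
      rw [hL2] at e2
      exact ⟨0, by omega⟩
    · fin_cases j₀
      · have e0 := h3 1 (by decide)
        have e2 := h3 2 (by decide)
        rw [hL1] at e0
        rw [hL2] at e2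
        exact ⟨0, by omega⟩
      · have e0 : v.ord l1 = 2 * m := by rw [← hL1]; exact h2
        have e2 := h3 2 (by decide)
        rw [hL2] at e2
        exact ⟨n, by omega⟩
      · have e0 := h3 1 (by decide)
        rw [hL1] at e0
        have e2 : v.ord l2 = 2 * m := by rw [← hL2]; exact h2
        exact ⟨-n, by omega⟩

end Pool.Agent.LibVT36
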