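import Pool.Agent.LibCHd.Defs

/-!
# LibVT36: unramified coverings of curves with even ramification over five points (helper36)
Page: PAGE_29b22a_VIRTUAL_helper36.md
-/

namespace Pool.Agent.LibVT36

open Pool.Agent.LibBH2
open Pool.Agent.LibCHd (FunF)

variable {k : Type} [Field k]

/-- `φ : L → L'` is finite and unramified at every place -/
structure IsEt {L L' : Type} [Field L] [Algebra k L] [Field L'] [Algebra k L'] (φ : L →ₐ[k] L') : Prop where
  fin : Module.finrank φ.fieldRange L' ≠ 0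
  unr : ∀ w : Place k L', ∃ f : L, w.ord (φ f) = 1

/-- `x` is not constant -/
def NC (k : Type) [Field k] {L : Type} [Field L] [Algebra k L] (x : L) : Prop :=
  x ∉ Set.range (algebraMap k L)

section

variable {L : Type} [Field L] [Algebra k L]

/-- coercion of constants -/
abbrev cc (k : Type) [Field k] (L : Type) [Field L] [Algebra k L] (a : k) : L := algebraMap k L a

/-- five points with even ramification -/
structure DA (t : L) (c : Fin 5 → k) : Prop where
  nc : NC k t
  inj : Function.Injective c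
  ev : ∀ (w : Place k L) (i : Fin 5), 0 < w.ord (t - cc k L (c i)) → (2 : ℤ) ∣ w.ord (t - cc k L (c i))

/-- four points and infinity with even ramification -/
structure DA1 (s : L) (e : Fin 4 → k) : Prop where
  nc : NC k s
  inj : Function.Injective e
  sum : ∑ i, e i = 0
  pole : ∀ w : Place k L, w.ord s < 0 → (2 : ℤ) ∣ w.ord s
  ev : ∀ (w : Place k L) (i : Fin 4), 0 < w.ord (s - cc k L (e i)) → (2 : ℤ) ∣ w.ord (s - cc k L (e i))

/-- a point of a curve `y ^ 2 = ∏ (s - e_i)` with even ramification over the points at infinity -/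
structure DA2 (s y : L) (e : Fin 4 → k) : Prop where
  nc : NC k s
  inj : Function.Injective e
  sum : ∑ i, e i = 0
  eq : y ^ 2 = ∏ i, (s - cc k L (e i))
  pole : ∀ w : Place k L, w.ord s < 0 → (2 : ℤ) ∣ w.ord s

/-- a point of an elliptic curve with even ramification over the origin -/
structure DE (X Y : L) (A B : k) : Prop where
  nc : NC k X
  eq : Y ^ 2 = X ^ 3 + cc k L A * X + cc k L B
  disc : 4 * A ^ 3 + 27 * B ^ 2 ≠ 0
  pole : ∀ w : Place k L, w.ord X < 0 → (4 : ℤ) ∣ w.ord X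

/-- `(x, y0)` is a flex of `Y ^ 2 = X ^ 3 + A X + B`, `al` the slope of the tangent -/
structure Flex (A B x y0 al : k) : Prop where
  hy0 : y0 ≠ 0
  sq : al ^ 2 = 3 * x
  tan : 2 * al * y0 = 3 * x ^ 2 + A
  on : y0 ^ 2 = x ^ 3 + A * x + B
  ne : 4 * al ^ 3 ≠ 27 * y0

/-- a point of a Hesse cubic with even ramification over the points at infinity -/
structure DH (U V : L) (la : k) : Prop where
  nc : NC k U
  eq : U ^ 3 + V ^ 3 + 1 = 3 * cc k L la * U * V
  hla : la ^ 3 ≠ 1
  pole : ∀ w : Place k L, w.ord U < 0 → (2 : ℤ) ∣ w.ord U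

/-- the lines `l_j = ω ^ j U + ω ^ (2 j) V + la` -/
def ln (ω la : k) (U V : L) (j : Fin 3) : L := cc k L (ω ^ (j : ℕ)) * U + cc k L (ω ^ (2 * (j : ℕ))) * V + cc k L la

/-- a point of a Hesse cubic with even ramification over the nine flexes -/
structure DN (a b : L) (ka : k) : Prop where
  nc : NC k a
  eq : a ^ 3 + b ^ 3 + 1 = 3 * cc k L ka * a * b
  hka : ka ^ 3 ≠ 1
  eva : ∀ w : Place k L, (2 : ℤ) ∣ w.ord a
  evb : ∀ w : Place k L, (2 : ℤ) ∣ w.ord b

/-- a point of `c ^ 2 = h ^ 3 + 1` with ramification divisible by four over the points with `h = - ka` -/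
structure DD (h c : L) (ka : k) : Prop where
  nc : NC k h
  eq : c ^ 2 = h ^ 3 + 1
  hka : ka ^ 3 ≠ 1
  ev : ∀ w : Place k L, 0 < w.ord (h + cc k L ka) → (4 : ℤ) ∣ w.ord (h + cc k L ka)

/-- a point of `c ^ 2 = h ^ 3 + 1` with even ramification over the origin -/
structure DO (k : Type) [Field k] {L : Type} [Field L] [Algebra k L] (h c : L) : Prop where
  nc : NC k h
  eq : c ^ 2 = h ^ 3 + 1
  pole : ∀ w : Place k L, w.ord h < 0 → (4 : ℤ) ∣ w.ord h

/-- signature `(3, 3, 6)` over `1, -1, ∞` -/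
structure DC (k : Type) [Field k] {L : Type} [Field L] [Algebra k L] (c : L) : Prop where
  nc : NC k c
  one : ∀ w : Place k L, 0 < w.ord (c - 1) → (3 : ℤ) ∣ w.ord (c - 1)
  mone : ∀ w : Place k L, 0 < w.ord (c + 1) → (3 : ℤ) ∣ w.ord (c + 1)
  pole : ∀ w : Place k L, w.ord c < 0 → (6 : ℤ) ∣ w.ord c

/-- signature `(6, 6, 6)` over the cube roots of unity -/
structure DZ (z : L) (ω : k) : Prop where
  nc : NC k z
  prim : IsPrimitiveRoot ω 3
  ev : ∀ (w : Place k L) (j : Fin 3), 0 < w.ord (z - cc k L (ω ^ (j : ℕ))) →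
    (6 : ℤ) ∣ w.ord (z - cc k L (ω ^ (j : ℕ)))

/-- signature `(3, 3, 6, 6)` over `0, ∞, 1, -1` -/
structure DT (k : Type) [Field k] {L : Type} [Field L] [Algebra k L] (t : L) : Prop where
  nc : NC k t
  zp : ∀ w : Place k L, (3 : ℤ) ∣ w.ord t
  one : ∀ w : Place k L, 0 < w.ord (t - 1) → (6 : ℤ) ∣ w.ord (t - 1)
  mone : ∀ w : Place k L, 0 < w.ord (t + 1) → (6 : ℤ) ∣ w.ord (t + 1)

/-- signature `(2, 3, 12)` over `0, 1, ∞` -/
structure DR (k : Type) [Field k] {L : Type} [Field L] [Algebra k L] (t : L) : Prop where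
  nc : NC k t
  zero : ∀ w : Place k L, 0 < w.ord t → (2 : ℤ) ∣ w.ord t
  one : ∀ w : Place k L, 0 < w.ord (t - 1) → (3 : ℤ) ∣ w.ord (t - 1)
  pole : ∀ w : Place k L, w.ord t < 0 → (12 : ℤ) ∣ w.ord t

/-- a point of the curve `v ^ 6 (x ^ 3 - i) = x ^ 3 + i` -/
structure DF (x v : L) (i : k) : Prop where
  nc : NC k x
  i2 : i ^ 2 = -1
  eq : v ^ 6 * (x ^ 3 - cc k L i) = x ^ 3 + cc k L i

end

end Pool.Agent.LibVT36
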