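import Pool.Agent.LibVT36.A0

/-!
[VT36 E1] (MEDIUM) `h = a + b`: `3 (h + ka) a b = h^3 + 1` (`e1_id`, from `DN.eq`).
`NC (a + b)`: if `h = c` constant: if `c + ka ≠ 0` then `a b` is constant, `a` is a root of `T^2 - c T + a b`, so constant (`mem_of_root`), contradiction; if `c = - ka` then `0 = c^3 + 1 = 1 - ka^3 ≠ 0`.
Evenness of `w.ord (h^3 + 1)`. (1) `h` regular, `h^3 + 1` of positive order at `w`: then `h + ka` is a unit at `w` (else `h` has the value `- ka` and `h^3 + 1` the value `1 - ka^3 ≠ 0`), so `w.ord (h^3+1) = w.ord a + w.ord b`: even by `eva`, `evb`. In fact in ALL cases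
`w.ord (h^3 + 1) = w.ord (h + ka) + w.ord a + w.ord b`, so only the evenness of `w.ord (h + ka)` is needed: if `h + ka` is a unit, ok. If `0 < w.ord (h + ka)`: then `w.ord (h^3 + 1) = 0`. If `h` has a pole: `w.ord (h + ka) = w.ord h`, `w.ord (h^3 + 1) = 3 w.ord h`, so
`2 w.ord h = w.ord a + w.ord b`, `w.ord h ≥ min`; if `w.ord a ≠ w.ord b` then `w.ord h = min (w.ord a) (w.ord b)`, contradiction with the sum; so `w.ord a = w.ord b = w.ord h`, even.
-/

namespace Pool.Agent.LibVT36

open Pool.Agent.LibBH2
open Pool.Agent.LibCHd (FunF)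

variable {k : Type} [Field k]
variable {L : Type} [Field L] [Algebra k L]

private theorem E1_lt {w : Place k L} {f g : L} (hf : f ≠ 0) (hg : g ≠ 0) (h : w.ord f < w.ord g) :
    w.ord (f + g) = w.ord f := by
  have h0 : f + g ≠ 0 := by
    intro h1
    have h2 : f = -g := eq_neg_of_add_eq_zero_left h1
    rw [h2, Place.ord_neg] at h
    exact lt_irrefl _ h
  have h1 := w.ord_add f g hf hg h0
  have h2 := w.ord_add (f + g) (-g) h0 (neg_ne_zero.2 hg) (by rw [add_neg_cancel_right]; exact hf)
  rw [add_neg_cancel_right, Place.ord_neg] at h2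
  rw [min_eq_left h.le] at h1
  rcases min_le_iff.1 h2 with h3 | h3
  · exact le_antisymm h3 h1
  · exact absurd h3 (not_le.2 h)

private theorem E1_pole {w : Place k L} {f : L} (h : w.ord f < 0) (c : k) :
    w.ord (f + algebraMap k L c) = w.ord f := by
  by_cases hc : c = 0
  · rw [hc, map_zero, add_zero]
  · have hf : f ≠ 0 := by
      rintro rfl
      rw [w.ord_zero] at h
      exact lt_irrefl _ h
    refine E1_lt hf ?_ ?_
    · intro h1
      exact hc ((algebraMap k L).injective (by rw [h1, map_zero]))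
    · rw [w.ord_const c hc]
      exact h

private theorem E1_cube [IsAlgClosed k] {f : L} (h : NC k f) : f ^ 3 + 1 ≠ 0 := by
  intro h1
  apply h
  refine mem_of_root (Polynomial.X ^ 3 + Polynomial.C 1 : Polynomial k) ?_ ?_
  · exact (Polynomial.monic_X_pow_add_C 1 (by norm_num)).ne_zero
  · rw [map_add, map_pow, Polynomial.aeval_X, Polynomial.aeval_C, map_one]
    exact h1

theorem e1_id {a b : L} {ka : k} (h : DN a b ka) : 3 * (a + b + cc k L ka) * a * b = (a + b) ^ 3 + 1 := by
  linear_combination -h.eq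

theorem e1_nc [IsAlgClosed k] [CharZero k] {a b : L} {ka : k} (h : DN a b ka) : NC k (a + b) := by
  rintro ⟨c, hc⟩
  have h1 := e1_id h
  rw [← hc] at h1
  have h3 : (3 : L) ≠ 0 := by
    have h4 : (algebraMap k L 3) ≠ 0 := by
      intro h5
      have h6 : (3 : k) = 0 := (algebraMap k L).injective (by rw [h5, map_zero])
      exact three_ne_zero h6
    rwa [map_ofNat] at h4
  by_cases hk : c + ka = 0
  · have h4 : algebraMap k L c + cc k L ka = 0 := by
      rw [← map_add, hk, map_zero]
    rw [h4, mul_zero, zero_mul, zero_mul] at h1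
    apply h.hka
    have h5 : c = -ka := eq_neg_of_add_eq_zero_left hk
    have h6 : algebraMap k L (c ^ 3 + 1) = algebraMap k L 0 := by
      rw [map_add, map_pow, map_one, map_zero]
      exact h1.symm
    have h7 : c ^ 3 + 1 = 0 := (algebraMap k L).injective h6
    rw [h5] at h7
    linear_combination -h7
  · apply h.nc
    obtain ⟨d, hd⟩ : ∃ d : k, d = (c ^ 3 + 1) / (3 * (c + ka)) := ⟨_, rfl⟩
    have h3k : (3 : k) ≠ 0 := three_ne_zero
    have hab : a * b = algebraMap k L d := by
      have h4 : algebraMap k L (3 * (c + ka)) ≠ 0 := by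
        intro h5
        have h6 : 3 * (c + ka) = 0 := (algebraMap k L).injective (by rw [h5, map_zero])
        exact (mul_ne_zero h3k hk) h6
      rw [hd, map_div₀, eq_div_iff h4, map_add, map_pow, map_one, ← h1, map_mul, map_add, map_ofNat]
      ring
    refine mem_of_root (Polynomial.X ^ 2 + Polynomial.C (-c) * Polynomial.X + Polynomial.C d : Polynomial k) ?_ ?_
    · intro h5
      have h6 : (Polynomial.X ^ 2 + Polynomial.C (-c) * Polynomial.X + Polynomial.C d : Polynomial k).coeff 2 = 0 := by
        rw [h5, Polynomial.coeff_zero]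
      rw [Polynomial.coeff_add, Polynomial.coeff_add, Polynomial.coeff_X_pow, Polynomial.coeff_C_mul,
        Polynomial.coeff_X, Polynomial.coeff_C] at h6
      norm_num at h6
    · rw [map_add, map_add, map_mul, map_pow, Polynomial.aeval_X, Polynomial.aeval_C, Polynomial.aeval_C,
        map_neg, hc, ← hab]
      ring

theorem e1 [IsAlgClosed k] [CharZero k] {a b : L} {ka : k} (h : DN a b ka) :
    (a + b) ^ 3 + 1 ≠ 0 ∧ ∀ w : Place k L, (2 : ℤ) ∣ w.ord ((a + b) ^ 3 + 1) := by
  have hnc := e1_nc h
  have hne := E1_cube hnc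
  refine ⟨hne, fun w => ?_⟩
  have ha : a ≠ 0 := h.nc.ne_zero
  have hb : b ≠ 0 := by
    intro hb
    have h1 := h.eq
    rw [hb] at h1
    exact E1_cube h.nc (by linear_combination h1)
  have hh : a + b + cc k L ka ≠ 0 := hnc.add_ne ka
  have h3 : (3 : L) ≠ 0 := by
    have h4 : (algebraMap k L 3) ≠ 0 := by
      intro h5
      have h6 : (3 : k) = 0 := (algebraMap k L).injective (by rw [h5, map_zero])
      exact three_ne_zero h6
    rwa [map_ofNat] at h4
  have ho3 : w.ord (3 : L) = 0 := by
    have h4 := w.ord_const 3 three_ne_zero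
    rwa [map_ofNat] at h4
  have hord : w.ord ((a + b) ^ 3 + 1) = w.ord (a + b + cc k L ka) + w.ord a + w.ord b := by
    rw [← e1_id h, w.ord_mul _ _ (mul_ne_zero (mul_ne_zero h3 hh) ha) hb,
      w.ord_mul _ _ (mul_ne_zero h3 hh) ha, w.ord_mul _ _ h3 hh, ho3, zero_add]
  have hea := h.eva w
  have heb := h.evb w
  rcases lt_trichotomy (w.ord (a + b + cc k L ka)) 0 with hlt | heq | hgt
  · have hs : w.ord (a + b) < 0 := by
      by_contra hc
      have h1 : w.Reg (a + b) := Or.inr (not_lt.1 hc)
      rcases h1.add (w.reg_const ka) with h2 | h2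
      · exact hh h2
      · exact absurd h2 (not_le.2 hlt)
    have h1 : w.ord (a + b + cc k L ka) = w.ord (a + b) := E1_pole hs ka
    have h2 : w.ord ((a + b) ^ 3) < 0 := by
      rw [w.ord_pow]
      push_cast
      omega
    have h4 : w.ord ((a + b) ^ 3 + 1) = 3 * w.ord (a + b) := by
      have h5 := E1_pole h2 1
      rw [map_one] at h5
      rw [h5, w.ord_pow]
      push_cast
      ring
    rw [h1, h4] at hord
    rcases lt_trichotomy (w.ord a) (w.ord b) with h6 | h6 | h6
    · have h7 := E1_lt ha hb h6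
      omega
    · rw [h4]
      omega
    · have h7 := E1_lt hb ha h6
      rw [add_comm] at h7
      omega
  · rw [hord, heq, zero_add]
    exact dvd_add hea heb
  · have h1 : w.Zer (a + b - algebraMap k L (-ka)) := by
      rw [map_neg, sub_neg_eq_add]
      exact Or.inr hgt
    have h2 := Place.val_add (Place.val_pow h1 3) (Place.val_const (v := w) 1)
    have h4 : (-ka) ^ 3 + 1 ≠ 0 := by
      intro h5
      exact h.hka (by linear_combination -h5)
    have h5 := Place.ord_eq_zero_of_val h2 h4
    rw [map_one] at h5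
    rw [h5]
    exact dvd_zero 2

end Pool.Agent.LibVT36
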