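import Pool.Agent.LibVT36.E1

/-!
[VT36 E2] (SHORT/MEDIUM) `w` a place of `L'`, `0 < w.ord (φ h + ka)`, `v` the restriction (`IsEt.restr`): `0 < v.ord (h + ka)`, so `h` has the value `- ka`, `v.ord (h^3 + 1) = 0`, and `v.ord (h + ka) + v.ord a + v.ord b = 0` (`e1_id`). `a + b = h` is regular, `a b` has a pole: so `v.ord a = v.ord b`
(if they differ, `v.ord h` is the smaller one, which is negative), `v.ord (h + ka) = - 2 v.ord a`, `2 ∣ v.ord a`.
-/

namespace Pool.Agent.LibVT36

open Pool.Agent.LibBH2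
open Pool.Agent.LibCHd (FunF)

variable {k : Type} [Field k]
variable {L L' : Type} [Field L] [Algebra k L] [Field L'] [Algebra k L']

private theorem E2_key [IsAlgClosed k] [CharZero k] {a b : L} {ka : k} (h : DN a b ka) (v : Place k L)
    (hw : 0 < v.ord (a + b + cc k L ka)) : (4 : ℤ) ∣ v.ord (a + b + cc k L ka) := by
  have ha : a ≠ 0 := h.nc.ne_zero
  have hH : NC k (a + b) := e1_nc h
  have hH0 : a + b ≠ 0 := hH.ne_zero
  have hu : a + b + cc k L ka ≠ 0 := hH.add_ne ka
  have h0 : (a + b) ^ 3 + 1 ≠ 0 := (e1 h).1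
  have hid := e1_id h
  have hb : b ≠ 0 := by
    rintro rfl
    rw [mul_zero] at hid
    exact h0 hid.symm
  have h3 : v.ord (3 : L) = 0 := by
    have h31 : (3 : L) = algebraMap k L 3 := (map_ofNat (algebraMap k L) 3).symm
    rw [h31]
    exact v.ord_const 3 (by norm_num)
  have h30 : (3 : L) ≠ 0 := by
    have h31 : (3 : L) = algebraMap k L 3 := (map_ofNat (algebraMap k L) 3).symm
    rw [h31]
    simp
  have hval : v.Zer (a + b - algebraMap k L (-ka)) := by
    right
    have h1 : a + b - algebraMap k L (-ka) = a + b + cc k L ka := by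
      rw [map_neg, sub_neg_eq_add]
    rw [h1]; exact hw
  have hval3 : v.Zer ((a + b) ^ 3 + 1 - algebraMap k L ((-ka) ^ 3 + 1)) := by
    have h1 := Place.val_add (Place.val_pow hval 3) (Place.val_const (v := v) (1 : k))
    rw [map_one] at h1
    exact h1
  have hne : (-ka) ^ 3 + 1 ≠ 0 := by
    intro h1
    apply h.hka
    have h2 : (-ka) ^ 3 = - ka ^ 3 := by ring
    rw [h2] at h1
    linear_combination -h1
  have ho3 : v.ord ((a + b) ^ 3 + 1) = 0 := Place.ord_eq_zero_of_val hval3 hne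
  have hsum : v.ord (a + b + cc k L ka) + v.ord a + v.ord b = 0 := by
    rw [← hid, v.ord_mul _ _ (mul_ne_zero (mul_ne_zero h30 hu) ha) hb, v.ord_mul _ _ (mul_ne_zero h30 hu) ha,
      v.ord_mul _ _ h30 hu, h3] at ho3
    omega
  have hreg : 0 ≤ v.ord (a + b) := (Place.reg_of_val hval).resolve_left hH0
  have hab : v.ord a = v.ord b := by
    rcases lt_trichotomy (v.ord a) (v.ord b) with hlt | heq | hgt
    · have h1 := (Place.ord_add_of_lt ha hb hlt).2
      omega
    · exact heq
    · have h1 := (Place.ord_add_of_lt hb ha hgt).2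
      rw [add_comm] at h1
      omega
  have hev := h.eva v
  omega

theorem e2 [IsAlgClosed k] [CharZero k] {a b : L} {ka : k} (h : DN a b ka) {φ : L →ₐ[k] L'} (hφ : IsEt φ) {c : L'}
    (hc : c ^ 2 = φ ((a + b) ^ 3 + 1)) : DD (φ (a + b)) c ka := by
  refine ⟨(e1_nc h).map φ, ?_, h.hka, ?_⟩
  · rw [hc]; simp only [map_add, map_pow, map_one]
  intro w hw
  obtain ⟨v, hv⟩ := hφ.restr w
  have he : φ (a + b) + cc k L' ka = φ (a + b + cc k L ka) := by
    rw [map_add φ (a + b)]; congr 1; exact (φ.commutes ka).symm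
  rw [he, ← hv] at hw ⊢
  exact E2_key h v hw

end Pool.Agent.LibVT36
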