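import Pool.Agent.LibVT36.A0

/-!
[VT36 F1] (MEDIUM) Translation on `c^2 = h^3 + 1`. `hQ = - ka`, `cQ^2 = 1 - ka^3 ≠ 0` (`IsAlgClosed`), `mu = (c + cQ) / (h - hQ)`, `h' = mu^2 - h - hQ`, `c' = - (mu (h' - h) + c)`: `c'^2 = h'^3 + 1` (field_simp; or: `mu` is the slope of the line through `(h, c)` and `(hQ, - cQ)`),
`h' (h - hQ)^2 = hQ h^2 + hQ^2 h + 2 cQ c + 2`.
Orders, `w.ord h' < 0`. (1) `h` pole: `w.ord c = (3/2) w.ord h`, the right side has order `≥ 2 w.ord h`, `(h - hQ)^2` has order `2 w.ord h`: `h'` regular, contradiction. (2) `h` regular, `h - hQ` unit: `h'` regular. (3) `0 < w.ord (h - hQ)`, divisible by 4: `(c - cQ)(c + cQ) = (h - hQ)(h^2 + h hQ + hQ^2)`,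
so one of `c - cQ`, `c + cQ` vanishes at `w`. If `c + cQ` vanishes, `c - cQ` is a unit (`2 cQ ≠ 0`), `mu = (h^2 + h hQ + hQ^2) / (c - cQ)` regular, `h'` regular, contradiction. So `c + cQ` is a unit, `w.ord mu = - w.ord (h - hQ)`, `w.ord h' = w.ord (mu^2) = - 2 w.ord (h - hQ)`.
`NC h'`: if `h' = d` is constant: `mu^2 = h + d + hQ`, so `(h + d + hQ) (h - hQ)^2 = (c + cQ)^2 = h^3 + 1 + 2 cQ c + cQ^2`, so `2 cQ c = G(h)`, `G` a polynomial of degree `≤ 2` with constant coefficients, and `4 cQ^2 (h^3 + 1) = G(h)^2`, a polynomial relation for `h`; it is nonzero because the degree of the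
left side is 3 and that of `G^2` is even. (`mem_of_root`, contradiction with `NC h`.)
-/

namespace Pool.Agent.LibVT36

open Pool.Agent.LibBH2
open Pool.Agent.LibCHd (FunF)

variable {k : Type} [Field k]
variable {L : Type} [Field L] [Algebra k L]

private theorem F1_rel (g0 g1 g2 m : k) (hm : m ≠ 0) :
    (Polynomial.C (-(g2 ^ 2)) * Polynomial.X ^ 4 + Polynomial.C (m - 2 * g1 * g2) * Polynomial.X ^ 3 +
      Polynomial.C (-(g1 ^ 2) - 2 * g0 * g2) * Polynomial.X ^ 2 +
      Polynomial.C (-(2 * g0 * g1)) * Polynomial.X +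
      Polynomial.C (m - g0 ^ 2) : Polynomial k) ≠ 0 := by
  intro h0
  have h4 := congrArg (fun F => Polynomial.coeff F 4) h0
  have h3 := congrArg (fun F => Polynomial.coeff F 3) h0
  simp only [Polynomial.coeff_add, Polynomial.coeff_C_mul, Polynomial.coeff_X_pow,
    Polynomial.coeff_X, Polynomial.coeff_C, Polynomial.coeff_zero] at h4 h3
  norm_num at h4 h3
  rw [h4] at h3
  apply hm
  simpa using h3

theorem f1 [IsAlgClosed k] [CharZero k] {h c : L} {ka : k} (hD : DD h c ka) : ∃ h' c' : L, DO k h' c' := by
  haveI : CharZero L := charZero_of_injective_algebraMap (algebraMap k L).injective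
  obtain ⟨hnc, heq, hka, hev⟩ := hD
  obtain ⟨cq, hcq⟩ : ∃ cq : k, cq ^ 2 = 1 - ka ^ 3 := IsAlgClosed.exists_pow_nat_eq _ (by norm_num)
  have hcq0 : cq ≠ 0 := by
    rintro rfl
    apply hka
    linear_combination hcq
  set hq : L := cc k L (-ka) with hhq
  set cQ : L := cc k L cq with hcQ
  have hqn : hq = -cc k L ka := by simp only [hhq, cc, map_neg]
  have hcQ2 : cQ ^ 2 = hq ^ 3 + 1 := by
    have := congrArg (algebraMap k L) hcq
    simp only [map_pow, map_sub, map_one] at this
    rw [hcQ, hqn]
    simp only [cc]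
    linear_combination this
  have hcQ0 : cQ ≠ 0 := by
    rw [hcQ]; simpa [cc] using hcq0
  have hne : h - hq ≠ 0 := hnc.sub_ne (-ka)
  obtain ⟨mu, hmu⟩ : ∃ mu, mu = (c + cQ) / (h - hq) := ⟨_, rfl⟩
  have hR1 : mu * (h - hq) = c + cQ := by rw [hmu]; field_simp
  have hR2 : mu * (c - cQ) = h ^ 2 + h * hq + hq ^ 2 := by
    apply mul_right_cancel₀ hne
    linear_combination (c - cQ) * hR1 + heq - hcQ2
  obtain ⟨h', hh'⟩ : ∃ h', h' = mu ^ 2 - h - hq := ⟨_, rfl⟩
  have hid : h' * (h - hq) ^ 2 = hq * h ^ 2 + hq ^ 2 * h + 2 * cQ * c + 2 := by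
    rw [hh']
    linear_combination (mu * (h - hq) + c + cQ) * hR1 + heq + hcQ2
  refine ⟨h', -(mu * (h' - h) + c), ?_, ?_, ?_⟩
  · -- NC
    rintro ⟨d, hd⟩
    set g2 : k := d - (-ka) with hg2
    set g1 : k := (-ka) ^ 2 - 2 * (-ka) * (d + (-ka)) with hg1
    set g0 : k := (d + (-ka)) * (-ka) ^ 2 - 1 - cq ^ 2 with hg0
    have hP0 := F1_rel g0 g1 g2 (4 * cq ^ 2) (mul_ne_zero (by norm_num) (pow_ne_zero _ hcq0))
    apply hnc
    apply mem_of_root _ hP0
    simp only [map_add, map_mul, Polynomial.aeval_C, map_pow, Polynomial.aeval_X, map_neg, map_sub,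
      map_ofNat]
    have e2 : algebraMap k L g2 = h' - hq := by
      rw [hg2]; simp only [map_sub, hd, hhq, cc]
    have e1 : algebraMap k L g1 = hq ^ 2 - 2 * hq * (h' + hq) := by
      rw [hg1]; simp only [map_sub, map_add, map_mul, map_pow, map_ofNat, hd, hhq, cc]
    have e0 : algebraMap k L g0 = (h' + hq) * hq ^ 2 - 1 - cQ ^ 2 := by
      rw [hg0]; simp only [map_sub, map_add, map_mul, map_pow, map_one, hd, hhq, cc, hcQ]
    rw [e0, e1, e2]
    have hG : 2 * cQ * c = (h' - hq) * h ^ 2 + (hq ^ 2 - 2 * hq * (h' + hq)) * h +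
        ((h' + hq) * hq ^ 2 - 1 - cQ ^ 2) := by
      linear_combination (-1 : L) * hid + hcQ2
    have hfin : 4 * cQ ^ 2 * (h ^ 3 + 1) = ((h' - hq) * h ^ 2 + (hq ^ 2 - 2 * hq * (h' + hq)) * h +
        ((h' + hq) * hq ^ 2 - 1 - cQ ^ 2)) ^ 2 := by
      rw [← hG, ← heq]; ring
    have hcQ' : algebraMap k L cq = cQ := rfl
    rw [hcQ']
    linear_combination hfin
  · -- equation
    rw [hh']
    linear_combination (-((mu ^ 2 - h - hq) - h) * mu) * hR1 + ((mu ^ 2 - h - hq) - h) * hR2 + heq
  · -- orders
    intro w hw
    have hh0 : h' ≠ 0 := by rintro hz; rw [hz, w.ord_zero] at hw; exact lt_irrefl _ hw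
    have hqr : w.Reg hq := w.reg_const (-ka)
    have hcr : w.Reg cQ := w.reg_const cq
    have h2 : w.Reg (2 : L) := by
      have := w.reg_const (2 : k)
      rwa [map_ofNat] at this
    by_cases hpole : w.ord h < 0
    · exfalso
      have h0 : h ≠ 0 := by rintro hz; rw [hz, w.ord_zero] at hpole; exact lt_irrefl _ hpole
      have hc2 : 2 * w.ord c = 3 * w.ord h := by
        have h3 : w.ord (h ^ 3) < w.ord (1 : L) := by
          rw [w.ord_pow, w.ord_one]; push_cast; omega
        have := (Place.ord_add_of_lt (pow_ne_zero 3 h0) one_ne_zero h3).2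
        rw [← heq, w.ord_pow, w.ord_pow] at this
        push_cast at this
        exact this
      have hinv : w.Reg h⁻¹ := Or.inr (by rw [w.ord_inv]; omega)
      have hc0 : c ≠ 0 := by
        rintro hz; rw [hz, w.ord_zero] at hc2; omega
      have hcc : w.Reg (c * (h⁻¹) ^ 2) := by
        right
        rw [w.ord_mul _ _ hc0 (pow_ne_zero _ (inv_ne_zero h0)), w.ord_pow, w.ord_inv]
        push_cast; omega
      have hnum : w.Reg (hq + hq ^ 2 * h⁻¹ + 2 * cQ * (c * (h⁻¹) ^ 2) + 2 * (h⁻¹) ^ 2) :=
        ((hqr.add ((hqr.pow 2).mul hinv)).add ((h2.mul hcr).mul hcc)).add (h2.mul (hinv.pow 2))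
      have hle : w.ord (h - hq) = w.ord h := by
        by_cases hq0 : hq = 0
        · rw [hq0, sub_zero]
        · have h1 : w.ord hq = 0 := by
            have h1 : 0 ≤ w.ord hq := hqr.resolve_left hq0
            have : w.ord hq = 0 := by
              rw [hhq]
              apply w.ord_const
              intro hz
              apply hq0
              rw [hhq, hz]; simp [cc]
            exact this
          have := (Place.ord_add_of_lt h0 (neg_ne_zero.2 hq0) (by rw [w.ord_neg, h1]; exact hpole)).2
          rwa [← sub_eq_add_neg] at this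
      have hden : w.Reg (h / (h - hq)) := by
        right
        rw [w.ord_div _ _ h0 hne, hle]; simp
      have hval : h' = (hq + hq ^ 2 * h⁻¹ + 2 * cQ * (c * (h⁻¹) ^ 2) + 2 * (h⁻¹) ^ 2) *
          (h / (h - hq)) ^ 2 := by
        rw [← mul_left_inj' (pow_ne_zero 2 hne), hid]
        field_simp
      have := (hnum.mul (hden.pow 2))
      rw [← hval] at this
      have := this.resolve_left hh0
      omega
    · push Not at hpole
      have hr : w.Reg h := Or.inr hpole
      have hcreg : w.Reg c := by
        by_cases hc0 : c = 0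
        · exact Or.inl hc0
        · have : w.Reg (c ^ 2) := by
            rw [heq]; exact (hr.pow 3).add (Or.inr (by rw [w.ord_one]))
          have := this.resolve_left (pow_ne_zero _ hc0)
          rw [w.ord_pow] at this
          right; push_cast at this; omega
      have hregmu : w.Reg mu → False := by
        intro hm
        have : w.Reg h' := by
          rw [hh']; 
          have := ((hm.pow 2).add hr.neg).add hqr.neg
          simpa [sub_eq_add_neg] using this
        have := this.resolve_left hh0
        omega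
      have hm0 : mu ≠ 0 := by
        intro hz; exact hregmu (Or.inl hz)
      have hsub : w.Reg (h - hq) := by
        have := hr.add hqr.neg
        rwa [← sub_eq_add_neg] at this
      have hge : 0 ≤ w.ord (h - hq) := hsub.resolve_left hne
      rcases hge.eq_or_lt with h00 | hpos
      · exfalso
        apply hregmu
        rw [hmu, div_eq_mul_inv]
        exact (hcreg.add hcr).mul (Or.inr (by rw [w.ord_inv, ← h00]; simp))
      · have hsum0 : c + cQ ≠ 0 := by
          intro hz
          rw [hz, mul_eq_zero] at hR1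
          rcases hR1 with hz | hz
          · exact hm0 hz
          · exact hne hz
        have hcp : w.ord (c + cQ) = 0 := by
          apply Place.ord_eq_zero_of_reg (hcreg.add hcr)
          intro hz
          apply hregmu
          have hcm0 : c - cQ ≠ 0 := by
            intro hz2
            have : (2 : L) * cQ = c + cQ := by linear_combination -hz2
            rw [← this] at hz
            have h3 : w.Zer (algebraMap k L (2 * cq)) := by
              simpa only [map_mul, map_ofNat, hcQ, cc] using hz
            rw [w.zer_const_iff] at h3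
            exact (mul_ne_zero (by norm_num) hcq0) h3
          have hcm : w.ord (c - cQ) = 0 := by
            apply Place.ord_eq_zero_of_reg
            · have := hcreg.add hcr.neg
              rwa [← sub_eq_add_neg] at this
            · intro hz2
              have := hz.sub hz2
              have e : c + cQ - (c - cQ) = algebraMap k L (2 * cq) := by
                simp only [map_mul, map_ofNat]
                have hcQ' : algebraMap k L cq = cQ := rfl
                rw [hcQ']; ring
              rw [e, w.zer_const_iff] at this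
              exact (mul_ne_zero (by norm_num) hcq0) this
          have : mu = (h ^ 2 + h * hq + hq ^ 2) * (c - cQ)⁻¹ := by
            rw [← hR2]; field_simp
          rw [this]
          exact (((hr.pow 2).add (hr.mul hqr)).add (hqr.pow 2)).mul
            (Or.inr (by rw [w.ord_inv, hcm]; simp))
        have hordmu : w.ord mu = -w.ord (h - hq) := by
          rw [hmu, w.ord_div _ _ hsum0 hne, hcp]; ring
        have hdvd : (4 : ℤ) ∣ w.ord (h - hq) := by
          have e : h - hq = h + cc k L ka := by rw [hqn]; ring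
          rw [e] at hpos ⊢
          exact hev w hpos
        have hfin : w.ord h' = -2 * w.ord (h - hq) := by
          have hm2 : w.ord (mu ^ 2) = -2 * w.ord (h - hq) := by
            rw [w.ord_pow, hordmu]; push_cast; ring
          by_cases hz : h + hq = 0
          · have : h' = mu ^ 2 := by rw [hh']; linear_combination -hz
            rw [this, hm2]
          · have hreg : w.Reg (-(h + hq)) := (hr.add hqr).neg
            have h1 := hreg.resolve_left (neg_ne_zero.2 hz)
            have := (Place.ord_add_of_lt (pow_ne_zero 2 hm0) (neg_ne_zero.2 hz)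
              (by rw [hm2]; omega)).2
            rw [hm2] at this
            rw [← this, hh']
            congr 1
            ring
        rw [hfin]
        obtain ⟨n, hn⟩ := hdvd
        exact ⟨-2 * n, by rw [hn]; ring⟩

end Pool.Agent.LibVT36
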