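import Pool.Agent.LibVT36.A0

/-!
[VT36 G0] (SHORT/MEDIUM) `(c - 1)(c + 1) = h^3`. `NC c`: otherwise `h` is a root of `T^3 + 1 - c^2` (`mem_of_root`). `0 < w.ord (c - 1)`: then `w.ord (c + 1) = 0` (value `2 ≠ 0`), `w.ord (c - 1) = 3 w.ord h`. Similarly for `c + 1`. Pole of `c`: then `h` has a pole (`h` regular implies `c^2` regular),
`2 w.ord c = 3 w.ord h`, `w.ord h = 4 j`, `w.ord c = 6 j`.
-/

namespace Pool.Agent.LibVT36

open Pool.Agent.LibBH2
open Pool.Agent.LibCHd (FunF)

variable {k : Type} [Field k]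
variable {L : Type} [Field L] [Algebra k L]

private theorem G0_nc [IsAlgClosed k] {h c : L} (hD : DO k h c) : NC k c := by
  rintro ⟨a, rfl⟩
  apply hD.nc
  apply mem_of_root (Polynomial.X ^ 3 + Polynomial.C (1 - a ^ 2))
  · exact (Polynomial.monic_X_pow_add_C (1 - a ^ 2) (by norm_num)).ne_zero
  · have h1 := hD.eq
    rw [map_add, map_pow, Polynomial.aeval_X, Polynomial.aeval_C, map_sub, map_one, map_pow]
    rw [h1]
    ring

theorem g0 [IsAlgClosed k] [CharZero k] {h c : L} (hD : DO k h c) : DC k c := by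
  have hnc := G0_nc hD
  have hh0 : h ≠ 0 := hD.nc.ne_zero
  have hc0 : c ≠ 0 := hnc.ne_zero
  have hm : c - 1 ≠ 0 := by
    have h1 := hnc.sub_ne 1
    rwa [cc, map_one] at h1
  have hp : c + 1 ≠ 0 := by
    have h1 := hnc.add_ne 1
    rwa [cc, map_one] at h1
  have hfac : (c - 1) * (c + 1) = h ^ 3 := by
    linear_combination hD.eq
  have hord : ∀ w : Place k L, w.ord (c - 1) + w.ord (c + 1) = 3 * w.ord h := by
    intro w
    rw [← w.ord_mul _ _ hm hp, hfac, w.ord_pow]
    norm_num
  have h2 : (2 : k) ≠ 0 := two_ne_zero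
  refine ⟨hnc, ?_, ?_, ?_⟩
  · intro w hw
    have h0 : w.ord (c + 1) = 0 := by
      apply Place.ord_eq_zero_of_val (c := (2 : k)) _ h2
      right
      have e : c + 1 - algebraMap k L 2 = c - 1 := by
        rw [map_ofNat]; ring
      rw [e]
      exact hw
    have h3 := hord w
    rw [h0, add_zero] at h3
    exact ⟨_, h3⟩
  · intro w hw
    have h0 : w.ord (c - 1) = 0 := by
      apply Place.ord_eq_zero_of_val (c := (-2 : k)) _ (neg_ne_zero.2 h2)
      right
      have e : c - 1 - algebraMap k L (-2) = c + 1 := by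
        rw [map_neg, map_ofNat]; ring
      rw [e]
      exact hw
    have h3 := hord w
    rw [h0, zero_add] at h3
    exact ⟨_, h3⟩
  · intro w hw
    have hc2 : w.ord (c ^ 2) = 2 * w.ord c := by
      rw [w.ord_pow]; norm_num
    have hneg : w.ord h < 0 := by
      by_contra hge
      have hreg : w.Reg h := Or.inr (not_lt.1 hge)
      have h1 : w.Reg (h ^ 3 + 1) := by
        apply (hreg.pow 3).add
        exact Or.inr (by rw [w.ord_one])
      rw [← hD.eq] at h1
      rcases h1 with h1 | h1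
      · exact hc0 (pow_eq_zero_iff (two_ne_zero) |>.1 h1)
      · omega
    obtain ⟨j, hj⟩ := hD.pole w hneg
    have h3 : w.ord (h ^ 3) = 3 * w.ord h := by
      rw [w.ord_pow]; norm_num
    have h4 := Place.ord_add_of_lt (v := w) (pow_ne_zero 3 hh0) (one_ne_zero)
      (by rw [h3, w.ord_one]; omega)
    rw [← hD.eq] at h4
    refine ⟨j, ?_⟩
    have h5 := h4.2
    omega

end Pool.Agent.LibVT36
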