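import Pool.Agent.LibVT36.A0

/-!
[VT36 G1] (SHORT/MEDIUM) `f = (c - 1) / (c + 1)`. Pole of `c`: order `0`. `c` regular: `w.ord (c ∓ 1)` is `0` or (by `one`, `mone`) divisible by 3.
`g2`: `z^3 - 1 = - 2 / (φ c + 1)` and `z^3 - 1 = (z - 1)(z - ω)(z - ω^2)`. `0 < w.ord (z - ω^j)`: then `z` has the value `ω^j` at `w`, the other two factors are units, so `w.ord (z - ω^j) = w.ord (z^3 - 1) = - w.ord (φ c + 1)`; it is positive, so `φ c` has a pole and the order is `- w.ord (φ c)`,
`6 ∣ v.ord c` for the restriction `v` (`IsEt.restr`). `NC z`: `NC.of_pow`, `z^3 = φ ((c - 1)/(c + 1))`, `NC.mob`, `NC.map`.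
-/

namespace Pool.Agent.LibVT36

open Pool.Agent.LibBH2
open Pool.Agent.LibCHd (FunF)

variable {k : Type} [Field k]
variable {L L' : Type} [Field L] [Algebra k L] [Field L'] [Algebra k L']

private theorem G1_ord_const {v : Place k L} {a : k} : v.ord (algebraMap k L a) = 0 := by
  by_cases ha : a = 0
  · rw [ha, map_zero, v.ord_zero]
  · exact v.ord_const a ha

/-- at a pole of `c` -/
private theorem G1_pole {v : Place k L} {c : L} (h : v.ord c < 0) {a : k} (ha : a ≠ 0) :
    v.ord (c + algebraMap k L a) = v.ord c := by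
  have hc : c ≠ 0 := by
    rintro rfl
    rw [v.ord_zero] at h
    exact lt_irrefl _ h
  have ha' : algebraMap k L a ≠ 0 := by
    intro h0
    exact ha ((map_eq_zero (algebraMap k L)).1 h0)
  refine (Place.ord_add_of_lt hc ha' ?_).2
  rw [G1_ord_const]
  exact h

private theorem G1_reg {v : Place k L} {c : L} (h : 0 ≤ v.ord c) (a : k) :
    0 ≤ v.ord (c + algebraMap k L a) := by
  have h1 : v.Reg (c + algebraMap k L a) := Place.Reg.add (Or.inr h) (v.reg_const a)
  rcases h1 with h1 | h1
  · rw [h1, v.ord_zero]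
  · exact h1

theorem g1 [CharZero k] {c : L} (hD : DC k c) :
    (c - 1) / (c + 1) ≠ 0 ∧ ∀ w : Place k L, (3 : ℤ) ∣ w.ord ((c - 1) / (c + 1)) := by
  have h1 : c - 1 ≠ 0 := by
    have h := hD.nc.sub_ne 1
    rwa [cc, map_one] at h
  have h2 : c + 1 ≠ 0 := by
    have h := hD.nc.add_ne 1
    rwa [cc, map_one] at h
  refine ⟨div_ne_zero h1 h2, fun w => ?_⟩
  rw [w.ord_div _ _ h1 h2]
  have e1 : c - 1 = c + algebraMap k L (-1) := by
    rw [map_neg, map_one, sub_eq_add_neg]
  have e2 : c + 1 = c + algebraMap k L 1 := by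
    rw [map_one]
  rcases lt_or_ge (w.ord c) 0 with h | h
  · have p1 : w.ord (c - 1) = w.ord c := by
      rw [e1]
      exact G1_pole h (by simp)
    have p2 : w.ord (c + 1) = w.ord c := by
      rw [e2]
      exact G1_pole h one_ne_zero
    rw [p1, p2, sub_self]
    exact dvd_zero _
  · have r1 : 0 ≤ w.ord (c - 1) := by
      rw [e1]
      exact G1_reg h _
    have r2 : 0 ≤ w.ord (c + 1) := by
      rw [e2]
      exact G1_reg h _
    apply dvd_sub
    · rcases lt_or_eq_of_le r1 with r | r
      · exact hD.one w r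
      · rw [← r]
        exact dvd_zero _
    · rcases lt_or_eq_of_le r2 with r | r
      · exact hD.mone w r
      · rw [← r]
        exact dvd_zero _

theorem g2 [CharZero k] {c : L} (hD : DC k c) {ω : k} (hω : IsPrimitiveRoot ω 3) {φ : L →ₐ[k] L'} (hφ : IsEt φ) {z : L'}
    (hz : z ^ 3 = φ ((c - 1) / (c + 1))) : DZ z ω := by
  have h2 : c + 1 ≠ 0 := by
    have h := hD.nc.add_ne 1
    rwa [cc, map_one] at h
  refine ⟨?_, hω, ?_⟩
  · apply NC.of_pow (n := 3)
    rw [hz]
    apply NC.map
    have h := NC.mob hD.nc (a := 1) (b := -1) (c := 1) (d := 1)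
      (by rw [one_mul, mul_one, sub_neg_eq_add, one_add_one_eq_two]; exact two_ne_zero)
    have e : (cc k L 1 * c + cc k L (-1)) / (cc k L 1 * c + cc k L 1) = (c - 1) / (c + 1) := by
      simp only [cc, map_one, map_neg, one_mul, sub_eq_add_neg]
    rwa [e] at h
  · intro w j hj
    obtain ⟨v, hv⟩ := hφ.restr w
    set a : k := ω ^ (j : ℕ) with ha
    have ha3 : a ^ 3 = 1 := by
      rw [ha, ← pow_mul, mul_comm, pow_mul, hω.pow_eq_one, one_pow]
    have ha0 : a ≠ 0 := by
      intro h0
      rw [h0, zero_pow (by norm_num)] at ha3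
      exact zero_ne_one ha3
    have hzer : w.Zer (z - algebraMap k L' a) := Or.inr hj
    have hq := Place.val_add (Place.val_add (Place.val_pow hzer 2)
      (Place.val_mul (w.val_const a) hzer)) (w.val_const (a ^ 2))
    have hne : a ^ 2 + a * a + a ^ 2 ≠ 0 := by
      have e : a ^ 2 + a * a + a ^ 2 = 3 * a ^ 2 := by ring
      rw [e]
      exact mul_ne_zero three_ne_zero (pow_ne_zero 2 ha0)
    have hq0 := Place.ord_eq_zero_of_val hq hne
    have hqn := Place.ne_zero_of_val hq hne
    have hzn : z - algebraMap k L' a ≠ 0 := by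
      intro h0
      have hj' : 0 < w.ord (z - algebraMap k L' a) := hj
      rw [h0, w.ord_zero] at hj'
      exact lt_irrefl _ hj'
    have hfac : z ^ 3 - 1 = (z - algebraMap k L' a) *
        (z ^ 2 + algebraMap k L' a * z + algebraMap k L' (a ^ 2)) := by
      have h3 : (algebraMap k L' a) ^ 3 = 1 := by rw [← map_pow, ha3, map_one]
      rw [map_pow (algebraMap k L') a 2]
      have e : (z - algebraMap k L' a) *
        (z ^ 2 + algebraMap k L' a * z + (algebraMap k L' a) ^ 2) = z ^ 3 - (algebraMap k L' a) ^ 3 := by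
        ring
      rw [e, h3]
    have hord : w.ord (z ^ 3 - 1) = w.ord (z - algebraMap k L' a) := by
      rw [hfac, w.ord_mul _ _ hzn hqn, hq0, add_zero]
    have hphi : z ^ 3 - 1 = φ (algebraMap k L (-2) / (c + 1)) := by
      rw [hz]
      have e : (c - 1) / (c + 1) = 1 + algebraMap k L (-2) / (c + 1) := by
        rw [map_neg, map_ofNat]
        field_simp
        ring
      rw [e, map_add, map_one, add_sub_cancel_left]
    have hm2 : algebraMap k L (-2) ≠ 0 := by
      intro h0
      have h := (map_eq_zero (algebraMap k L)).1 h0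
      exact (neg_ne_zero.2 (two_ne_zero (α := k))) h
    have hord2 : w.ord (z - algebraMap k L' a) = - v.ord (c + 1) := by
      rw [← hord, hphi, ← hv, v.ord_div _ _ hm2 h2, G1_ord_const, zero_sub]
    have hpos : 0 < w.ord (z - algebraMap k L' a) := hj
    have hneg : v.ord (c + 1) < 0 := by omega
    have e2 : c + 1 = c + algebraMap k L 1 := by
      rw [map_one]
    have hc : v.ord c < 0 := by
      by_contra hcon
      have hr := G1_reg (v := v) (not_lt.1 hcon) (1 : k)
      rw [← e2] at hr
      omega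
    have hce : v.ord (c + 1) = v.ord c := by
      rw [e2]
      exact G1_pole hc one_ne_zero
    show (6 : ℤ) ∣ w.ord (z - algebraMap k L' a)
    rw [hord2, hce]
    exact (dvd_neg).2 (hD.pole v hc)

end Pool.Agent.LibVT36
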