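import Pool.Agent.LibVT36.A0

/-!
[VT36 H1] (SHORT/MEDIUM) `f = (z - 1) / (z - ω)`: pole of `z`: order 0; otherwise both orders are `0` or divisible by 6.
`h2`: `sig` with `sig^2 = - ω` (`IsAlgClosed`, `sig ≠ 0`), `t = s / sig`. `w` a place of `L'`, `v` its restriction. `2 w.ord t = v.ord (z - 1) - v.ord (z - ω)`, divisible by 6 (both orders are divisible by 6 or equal (pole), or 0): `3 ∣ w.ord t`.
`t^2 - 1 = - (s^2 + ω) / ω = ω (z - ω^2) / (z - ω)` [from `s^2 + ω = - ω^2 (z - ω^2) / (z - ω)`]. `0 < w.ord (t - 1)`: then `t + 1` is a unit, `w.ord (t - 1) = w.ord (t^2 - 1) = v.ord (z - ω^2) - v.ord (z - ω)`, positive; so `z` has no pole and `0 < v.ord (z - ω^2)`, `z - ω` is a unit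
(`ω^2 ≠ ω`): `6 ∣`. Similarly for `t + 1`. `NC t`: if `t` is constant then `s^2`, so `(z - 1) / (z - ω)`, is constant, `NC.mob`.
-/

namespace Pool.Agent.LibVT36

open Pool.Agent.LibBH2
open Pool.Agent.LibCHd (FunF)

variable {k : Type} [Field k]
variable {L L' : Type} [Field L] [Algebra k L] [Field L'] [Algebra k L']

private theorem H1_cases (v : Place k L) {x : L} {a b : k} (hab : a ≠ b) (hx : x - cc k L a ≠ 0) :
    (v.ord (x - cc k L a) < 0 ∧ v.ord (x - cc k L b) = v.ord (x - cc k L a)) ∨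
    (0 < v.ord (x - cc k L a) ∧ v.ord (x - cc k L b) = 0) ∨
    (v.ord (x - cc k L a) = 0 ∧ 0 ≤ v.ord (x - cc k L b)) := by
  have hc : a - b ≠ 0 := sub_ne_zero.2 hab
  have hcL : cc k L (a - b) ≠ 0 := by
    intro h0
    exact hc ((map_eq_zero (algebraMap k L)).1 h0)
  have hco : v.ord (cc k L (a - b)) = 0 := v.ord_const _ hc
  have he : x - cc k L b = (x - cc k L a) + cc k L (a - b) := by
    have h1 : cc k L (a - b) = cc k L a - cc k L b := map_sub (algebraMap k L) a b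
    rw [h1]; ring
  rcases lt_trichotomy (v.ord (x - cc k L a)) 0 with h | h | h
  · left
    refine ⟨h, ?_⟩
    rw [he]
    exact (Place.ord_add_of_lt hx hcL (by rw [hco]; exact h)).2
  · right; right
    refine ⟨h, ?_⟩
    by_cases h0 : x - cc k L b = 0
    · rw [h0, v.ord_zero]
    · rw [he] at h0 ⊢
      have h2 := v.ord_add _ _ hx hcL h0
      rw [h, hco, min_self] at h2
      exact h2
  · right; left
    refine ⟨h, ?_⟩
    rw [he, add_comm]
    rw [(Place.ord_add_of_lt hcL hx (by rw [hco]; exact h)).2]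
    exact hco

private theorem H1_ev0 {z : L} {ω : k} (hD : DZ z ω) (w : Place k L) (h : 0 < w.ord (z - 1)) :
    (6 : ℤ) ∣ w.ord (z - 1) := by
  have h1 := hD.ev w 0
  have h2 : cc k L (ω ^ ((0 : Fin 3) : ℕ)) = 1 := by
    change algebraMap k L (ω ^ 0) = 1
    rw [pow_zero, map_one]
  rw [h2] at h1
  exact h1 h

private theorem H1_ev1 {z : L} {ω : k} (hD : DZ z ω) (w : Place k L) (h : 0 < w.ord (z - cc k L ω)) :
    (6 : ℤ) ∣ w.ord (z - cc k L ω) := by
  have h1 := hD.ev w 1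
  have h2 : cc k L (ω ^ ((1 : Fin 3) : ℕ)) = cc k L ω := by
    change algebraMap k L (ω ^ 1) = algebraMap k L ω
    rw [pow_one]
  rw [h2] at h1
  exact h1 h

private theorem H1_ev2 {z : L} {ω : k} (hD : DZ z ω) (w : Place k L)
    (h : 0 < w.ord (z - cc k L (ω ^ 2))) :
    (6 : ℤ) ∣ w.ord (z - cc k L (ω ^ 2)) := by
  have h1 := hD.ev w 2
  have h2 : cc k L (ω ^ ((2 : Fin 3) : ℕ)) = cc k L (ω ^ 2) := rfl
  rw [h2] at h1
  exact h1 h

private theorem H1_one {z : L} : z - 1 = z - cc k L 1 := by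
  have h : cc k L (1 : k) = 1 := map_one (algebraMap k L)
  rw [h]

private theorem H1_six {z : L} {ω : k} (hD : DZ z ω) :
    (z - 1) / (z - cc k L ω) ≠ 0 ∧ ∀ w : Place k L, (6 : ℤ) ∣ w.ord ((z - 1) / (z - cc k L ω)) := by
  have hω1 : (1 : k) ≠ ω := fun h => (hD.prim.ne_one (by norm_num)) h.symm
  have hz1 : z - 1 ≠ 0 := by
    rw [H1_one (k := k)]; exact hD.nc.sub_ne 1
  have hz2 : z - cc k L ω ≠ 0 := hD.nc.sub_ne ω
  refine ⟨div_ne_zero hz1 hz2, fun w => ?_⟩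
  rw [w.ord_div _ _ hz1 hz2]
  have hz1' : z - cc k L 1 ≠ 0 := hD.nc.sub_ne 1
  have h := H1_cases w hω1 hz1'
  rw [← H1_one] at h
  rcases h with ⟨h1, h2⟩ | ⟨h1, h2⟩ | ⟨h1, h2⟩
  · rw [h2, sub_self]; exact dvd_zero _
  · rw [h2, sub_zero]; exact H1_ev0 hD w h1
  · rw [h1, zero_sub]
    rcases h2.lt_or_eq with h3 | h3
    · exact (dvd_neg).2 (H1_ev1 hD w h3)
    · rw [← h3, neg_zero]; exact dvd_zero _

theorem h1 [CharZero k] {z : L} {ω : k} (hD : DZ z ω) :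
    (z - 1) / (z - cc k L ω) ≠ 0 ∧ ∀ w : Place k L, (2 : ℤ) ∣ w.ord ((z - 1) / (z - cc k L ω)) := by
  obtain ⟨h0, h6⟩ := H1_six hD
  exact ⟨h0, fun w => Dvd.dvd.trans (by norm_num) (h6 w)⟩

private theorem H1_tsq {z : L} {ω : k} (hD : DZ z ω) {φ : L →ₐ[k] L'} {s : L'}
    (hs : s ^ 2 = φ ((z - 1) / (z - cc k L ω))) {sig : k} (hsig : sig ^ 2 = - ω) (hsig0 : sig ≠ 0) :
    (s / cc k L' sig - 1) * (s / cc k L' sig + 1) =
      cc k L' ω * φ ((z - cc k L (ω ^ 2)) / (z - cc k L ω)) := by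
  have hz2 : z - cc k L ω ≠ 0 := hD.nc.sub_ne ω
  have hω0 : ω ≠ 0 := hD.prim.ne_zero (by norm_num)
  have hω3 : ω ^ 3 = 1 := hD.prim.pow_eq_one
  have hω1 : ω ≠ 1 := hD.prim.ne_one (by norm_num)
  have hrel : ω ^ 2 + ω + 1 = 0 := by
    have h1 : (ω - 1) * (ω ^ 2 + ω + 1) = 0 := by linear_combination hω3
    rcases mul_eq_zero.1 h1 with h2 | h2
    · exact absurd (sub_eq_zero.1 h2) hω1
    · exact h2
  have hS : cc k L' sig ^ 2 = - cc k L' ω := by
    change (algebraMap k L' sig) ^ 2 = - algebraMap k L' ω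
    rw [← map_pow, hsig, map_neg]
  have hS0 : cc k L' sig ≠ 0 := by
    intro h0
    exact hsig0 ((map_eq_zero (algebraMap k L')).1 h0)
  have hW0 : cc k L' ω ≠ 0 := by
    intro h0
    exact hω0 ((map_eq_zero (algebraMap k L')).1 h0)
  have hW3 : cc k L' ω ^ 2 + cc k L' ω + 1 = 0 := by
    change (algebraMap k L' ω) ^ 2 + algebraMap k L' ω + 1 = 0
    rw [← map_pow, ← map_add, ← map_one (algebraMap k L'), ← map_add, hrel, map_zero]
  have hsub : ∀ a : k, φ (z - cc k L a) = φ z - cc k L' a := by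
    intro a
    rw [map_sub]
    congr 1
    exact φ.commutes a
  have hz2' : φ z - cc k L' ω ≠ 0 := by
    rw [← hsub]
    exact (map_ne_zero φ).2 hz2
  have hs' : s ^ 2 * (φ z - cc k L' ω) = φ z - 1 := by
    rw [hs, map_div₀, hsub, map_sub, map_one]
    exact div_mul_cancel₀ _ hz2'
  have hω2 : cc k L' (ω ^ 2) = cc k L' ω ^ 2 := map_pow (algebraMap k L') ω 2
  rw [map_div₀, hsub, hsub, hω2]
  obtain ⟨S, hSd⟩ : ∃ S : L', S = cc k L' sig := ⟨_, rfl⟩
  obtain ⟨W, hWd⟩ : ∃ W : L', W = cc k L' ω := ⟨_, rfl⟩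
  obtain ⟨Z, hZd⟩ : ∃ Z : L', Z = φ z := ⟨_, rfl⟩
  rw [← hSd] at hS hS0 ⊢
  rw [← hWd] at hS hW0 hW3 hz2' hs' ⊢
  rw [← hZd] at hz2' hs' ⊢
  have e1 : (s / S - 1) * (s / S + 1) = s ^ 2 / S ^ 2 - 1 := by ring
  rw [e1, hS]
  have hnW : - W ≠ 0 := neg_ne_zero.2 hW0
  rw [mul_div_assoc', div_sub_one hnW, div_eq_div_iff hnW hz2']
  linear_combination hs' + (Z - W ^ 2 + W - 1) * hW3

private theorem H1_const_ord {L0 : Type} [Field L0] [Algebra k L0] (w : Place k L0) {x : L0} {a : k}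
    (ha : a ≠ 0) (hx : 0 < w.ord x) :
    x + cc k L0 a ≠ 0 ∧ w.ord (x + cc k L0 a) = 0 := by
  have hx0 : x ≠ 0 := by
    rintro rfl
    rw [w.ord_zero] at hx
    exact lt_irrefl _ hx
  have ha0 : cc k L0 a ≠ 0 := by
    intro h0
    exact ha ((map_eq_zero (algebraMap k L0)).1 h0)
  have hao : w.ord (cc k L0 a) = 0 := w.ord_const _ ha
  have h := Place.ord_add_of_lt (v := w) ha0 hx0 (by rw [hao]; exact hx)
  rw [add_comm x]
  exact ⟨h.1, by rw [h.2, hao]⟩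

private theorem H1_key {z : L} {ω : k} (hD : DZ z ω) {φ : L →ₐ[k] L'} {s : L'}
    (hs : s ^ 2 = φ ((z - 1) / (z - cc k L ω))) {sig : k} (hsig : sig ^ 2 = - ω) (hsig0 : sig ≠ 0)
    {v : Place k L} {w : Place k L'} (hvw : ∀ f, v.ord f = w.ord (φ f)) {a : k} (ha : a ≠ 0) {x y : L'}
    (hy : y = x + cc k L' a) (hxy : x * y = (s / cc k L' sig - 1) * (s / cc k L' sig + 1))
    (hx : 0 < w.ord x) : (6 : ℤ) ∣ w.ord x := by
  have hω0 : ω ≠ 0 := hD.prim.ne_zero (by norm_num)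
  have hω1 : ω ≠ 1 := hD.prim.ne_one (by norm_num)
  have hω2 : ω ^ 2 ≠ ω := by
    intro h
    have h1 : ω * (ω - 1) = 0 := by linear_combination h
    rcases mul_eq_zero.1 h1 with h2 | h2
    · exact hω0 h2
    · exact hω1 (sub_eq_zero.1 h2)
  have hz2 : z - cc k L ω ≠ 0 := hD.nc.sub_ne ω
  have hz3 : z - cc k L (ω ^ 2) ≠ 0 := hD.nc.sub_ne (ω ^ 2)
  have hx0 : x ≠ 0 := by
    rintro rfl
    rw [w.ord_zero] at hx
    exact lt_irrefl _ hx
  obtain ⟨hy0, hyo⟩ := H1_const_ord w ha hx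
  rw [← hy] at hy0 hyo
  have hW0 : cc k L' ω ≠ 0 := by
    intro h0
    exact hω0 ((map_eq_zero (algebraMap k L')).1 h0)
  have hWo : w.ord (cc k L' ω) = 0 := w.ord_const _ hω0
  have hq0 : (z - cc k L (ω ^ 2)) / (z - cc k L ω) ≠ 0 := div_ne_zero hz3 hz2
  have hq0' : φ ((z - cc k L (ω ^ 2)) / (z - cc k L ω)) ≠ 0 := (map_ne_zero φ).2 hq0
  have h1 := congrArg w.ord (hxy.trans (H1_tsq hD hs hsig hsig0))
  rw [w.ord_mul _ _ hx0 hy0, w.ord_mul _ _ hW0 hq0', hyo, hWo, ← hvw, v.ord_div _ _ hz3 hz2, add_zero,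
    zero_add] at h1
  rcases H1_cases v hω2 hz3 with ⟨h2, h3⟩ | ⟨h2, h3⟩ | ⟨h2, h3⟩
  · rw [h3, sub_self] at h1
    rw [h1] at hx
    exact absurd hx (lt_irrefl _)
  · rw [h3, sub_zero] at h1
    rw [h1]
    exact H1_ev2 hD v h2
  · rw [h2, zero_sub] at h1
    omega

theorem h2 [IsAlgClosed k] [CharZero k] {z : L} {ω : k} (hD : DZ z ω) {φ : L →ₐ[k] L'} (hφ : IsEt φ) {s : L'}
    (hs : s ^ 2 = φ ((z - 1) / (z - cc k L ω))) : ∃ t : L', DT k t := by
  obtain ⟨sig, hsig⟩ := IsAlgClosed.exists_pow_nat_eq (- ω) (n := 2) (by norm_num)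
  have hω0 : ω ≠ 0 := hD.prim.ne_zero (by norm_num)
  have hω1 : ω ≠ 1 := hD.prim.ne_one (by norm_num)
  have hsig0 : sig ≠ 0 := by
    rintro rfl
    apply hω0
    have h1 : (0 : k) = - ω := by rw [← hsig]; ring
    exact (neg_eq_zero.1 h1.symm)
  have hS0 : cc k L' sig ≠ 0 := by
    intro h0
    exact hsig0 ((map_eq_zero (algebraMap k L')).1 h0)
  obtain ⟨hf0, hf6⟩ := H1_six hD
  have hs0 : s ≠ 0 := by
    rintro rfl
    apply (map_ne_zero φ).2 hf0
    rw [← hs]; ring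
  have h2k : (2 : k) ≠ 0 := two_ne_zero
  have hcc2 : cc k L' 2 = 2 := map_ofNat (algebraMap k L') 2
  have hccm2 : cc k L' (-2) = -2 := by
    change algebraMap k L' (-2) = -2
    rw [map_neg]
    exact congrArg Neg.neg (map_ofNat (algebraMap k L') 2)
  refine ⟨s / cc k L' sig, ?_, ?_, ?_, ?_⟩
  · rintro ⟨a, ha⟩
    have hsa : s = cc k L' (a * sig) := by
      have h1 : cc k L' (a * sig) = cc k L' a * cc k L' sig := map_mul (algebraMap k L') a sig
      have h3 : cc k L' a = s / cc k L' sig := ha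
      rw [h1, h3, div_mul_cancel₀ _ hS0]
    have hfc : φ ((z - 1) / (z - cc k L ω)) = φ (cc k L ((a * sig) ^ 2)) := by
      rw [← hs, hsa]
      have h1 : φ (cc k L ((a * sig) ^ 2)) = cc k L' ((a * sig) ^ 2) := φ.commutes _
      rw [h1]
      exact (map_pow (algebraMap k L') (a * sig) 2).symm
    have hfc' : (z - 1) / (z - cc k L ω) = cc k L ((a * sig) ^ 2) := φ.injective hfc
    have hm := NC.mob hD.nc (a := 1) (b := -1) (c := 1) (d := - ω)
      (by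
        have h1 : (1 : k) * (- ω) - (-1) * 1 = 1 - ω := by ring
        rw [h1]
        exact sub_ne_zero.2 (Ne.symm hω1))
    apply hm
    refine ⟨(a * sig) ^ 2, ?_⟩
    have e1 : cc k L (1 : k) = 1 := map_one (algebraMap k L)
    have e2 : cc k L (-1 : k) = -1 := by
      change algebraMap k L (-1) = -1
      rw [map_neg, map_one]
    have e3 : cc k L (- ω) = - cc k L ω := map_neg (algebraMap k L) ω
    rw [e1, e2, e3, one_mul, ← sub_eq_add_neg, ← sub_eq_add_neg]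
    exact hfc'.symm
  · intro w
    obtain ⟨v, hv⟩ := hφ.restr w
    have h1 := congrArg w.ord hs
    rw [w.ord_pow, ← hv] at h1
    have h3 := hf6 v
    have h4 : w.ord (cc k L' sig) = 0 := w.ord_const _ hsig0
    rw [w.ord_div _ _ hs0 hS0, h4, sub_zero]
    rw [← h1] at h3
    push_cast at h3
    omega
  · intro w hw
    obtain ⟨v, hv⟩ := hφ.restr w
    refine H1_key hD hs hsig hsig0 hv h2k (x := s / cc k L' sig - 1) (y := s / cc k L' sig + 1) ?_ rfl hw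
    rw [hcc2]; ring
  · intro w hw
    obtain ⟨v, hv⟩ := hφ.restr w
    refine H1_key hD hs hsig hsig0 hv (a := -2) (neg_ne_zero.2 h2k) (x := s / cc k L' sig + 1)
      (y := s / cc k L' sig - 1) ?_ ?_ hw
    · rw [hccm2]; ring
    · ring

end Pool.Agent.LibVT36
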