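import Pool.Agent.LibVT36.A0

/-!
[VT36 I1] (SHORT) `i1`: `(t - 1) / (t + 1)`: pole of `t`: order 0; otherwise the orders are 0 or divisible by 6. `DT.map`: restriction of places. `i2`: `x^3 = t`, `v^6 = (t - 1) / (t + 1)`, `i^2 = - 1` (`IsAlgClosed`), `x' = i x`: `x'^3 = - i t`, `x'^3 + i = - i (t - 1)`, `x'^3 - i = - i (t + 1)`.
`NC x'`: `x^3 = t`.
-/

namespace Pool.Agent.LibVT36

open Pool.Agent.LibBH2
open Pool.Agent.LibCHd (FunF)

variable {k : Type} [Field k]
variable {L L' : Type} [Field L] [Algebra k L] [Field L'] [Algebra k L']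

private theorem I1_lt {w : Place k L} {f g : L} (hf : f ≠ 0) (hg : g ≠ 0) (h : w.ord f < w.ord g)
    (hfg : f + g ≠ 0) : w.ord (f + g) = w.ord f := by
  have h1 := w.ord_add f g hf hg hfg
  rw [min_eq_left h.le] at h1
  have h2 := w.ord_add (f + g) (-g) hfg (neg_ne_zero.2 hg) (by rwa [add_neg_cancel_right])
  rw [add_neg_cancel_right, Place.ord_neg] at h2
  rcases min_le_iff.1 h2 with h3 | h3
  · exact le_antisymm h3 h1
  · omega

theorem i1 [CharZero k] {t : L} (hD : DT k t) :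
    t ≠ 0 ∧ (t - 1) / (t + 1) ≠ 0 ∧ ∀ w : Place k L, (6 : ℤ) ∣ w.ord ((t - 1) / (t + 1)) := by
  have h0 : t ≠ 0 := hD.nc.ne_zero
  have h1 : t - 1 ≠ 0 := by
    have h := hD.nc.sub_ne 1
    rwa [cc, map_one] at h
  have h2 : t + 1 ≠ 0 := by
    have h := hD.nc.add_ne 1
    rwa [cc, map_one] at h
  refine ⟨h0, div_ne_zero h1 h2, fun w => ?_⟩
  rw [Place.ord_div w _ _ h1 h2]
  rcases lt_or_ge (w.ord t) 0 with h3 | h3
  · have h4 : w.ord (t + 1) = w.ord t := I1_lt h0 one_ne_zero (by rw [Place.ord_one]; exact h3) h2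
    have h5 : w.ord (t - 1) = w.ord t := by
      rw [sub_eq_add_neg] at h1 ⊢
      exact I1_lt h0 (neg_ne_zero.2 one_ne_zero) (by rw [Place.ord_neg, Place.ord_one]; exact h3) h1
    rw [h4, h5, sub_self]
    exact dvd_zero _
  · have hr : w.Reg t := Or.inr h3
    have hr1 : w.Reg (1 : L) := Or.inr (by rw [Place.ord_one])
    have h4 : 0 ≤ w.ord (t + 1) := (hr.add hr1).resolve_left h2
    have h5 : 0 ≤ w.ord (t - 1) := (hr.sub hr1).resolve_left h1
    refine dvd_sub ?_ ?_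
    · rcases h5.eq_or_lt with h6 | h6
      · rw [← h6]
        exact dvd_zero _
      · exact hD.one w h6
    · rcases h4.eq_or_lt with h6 | h6
      · rw [← h6]
        exact dvd_zero _
      · exact hD.mone w h6

theorem DT.map {t : L} (hD : DT k t) {φ : L →ₐ[k] L'} (hφ : IsEt φ) : DT k (φ t) := by
  refine ⟨hD.nc.map φ, fun w => ?_, fun w => ?_, fun w => ?_⟩
  · obtain ⟨v, hv⟩ := hφ.restr w
    rw [← hv]
    exact hD.zp v
  · obtain ⟨v, hv⟩ := hφ.restr w
    have h1 : φ t - 1 = φ (t - 1) := by rw [map_sub, map_one]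
    rw [h1, ← hv]
    exact hD.one v
  · obtain ⟨v, hv⟩ := hφ.restr w
    have h1 : φ t + 1 = φ (t + 1) := by rw [map_add, map_one]
    rw [h1, ← hv]
    exact hD.mone v

theorem i2 [IsAlgClosed k] [CharZero k] {t x v : L} (hD : DT k t) (hx : x ^ 3 = t) (hv : v ^ 6 = (t - 1) / (t + 1)) :
    ∃ (x' v' : L) (i : k), DF x' v' i := by
  obtain ⟨i, hi⟩ := IsAlgClosed.exists_pow_nat_eq (-1 : k) (n := 2) (by norm_num)
  have hi0 : i ≠ 0 := by
    rintro rfl
    norm_num at hi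
  have hiL : cc k L i ^ 2 = -1 := by
    rw [cc, ← map_pow, hi, map_neg, map_one]
  have h2 : t + 1 ≠ 0 := by
    have h := hD.nc.add_ne 1
    rwa [cc, map_one] at h
  have hx0 : NC k x := by
    refine NC.of_pow (n := 3) ?_
    rw [hx]
    exact hD.nc
  refine ⟨cc k L i * x, v, i, ?_, hi, ?_⟩
  · have h3 := hx0.mob (a := i) (b := 0) (c := 0) (d := 1) (by simpa using hi0)
    have h4 : (cc k L i * x + cc k L 0) / (cc k L 0 * x + cc k L 1) = cc k L i * x := by
      simp [cc]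
    rwa [h4] at h3
  · have h5 : (cc k L i * x) ^ 3 = -(cc k L i * t) := by
      rw [mul_pow, hx, pow_succ, hiL]
      ring
    have h6 : v ^ 6 * (t + 1) = t - 1 := by
      rw [hv, div_mul_cancel₀ _ h2]
    rw [h5]
    linear_combination (-cc k L i) * h6

end Pool.Agent.LibVT36
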