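import Pool.Agent.LibVT36.A0

/-!
[VT36 J1] (SHORT) Signature `(2, 3, 12)`. `j1`: `w.ord t` is `0`, or positive and even, or negative and divisible by 12. `j2`: `c^2 = φ t`: `(c - 1)(c + 1) = φ (t - 1)`; `0 < w.ord (c - 1)`: `c + 1` is a unit, `w.ord (c - 1) = v.ord (t - 1)`, `3 ∣`. Pole of `c`: `2 w.ord c = v.ord t`, `12 ∣`. `NC c`: `NC.of_pow`.
-/

namespace Pool.Agent.LibVT36

open Pool.Agent.LibBH2
open Pool.Agent.LibCHd (FunF)

variable {k : Type} [Field k]
variable {L L' : Type} [Field L] [Algebra k L] [Field L'] [Algebra k L']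

theorem j1 {t : L} (hD : DR k t) : t ≠ 0 ∧ ∀ w : Place k L, (2 : ℤ) ∣ w.ord t := by
  refine ⟨hD.nc.ne_zero, fun w => ?_⟩
  rcases lt_trichotomy (w.ord t) 0 with h | h | h
  · exact Dvd.dvd.trans (by norm_num) (hD.pole w h)
  · rw [h]
    exact dvd_zero _
  · exact hD.zero w h

private theorem J1_ne {c : L'} (h : NC k c) : c - 1 ≠ 0 ∧ c + 1 ≠ 0 := by
  constructor
  · have h1 := h.sub_ne 1
    rwa [show cc k L' (1 : k) = 1 from map_one _] at h1
  · have h1 := h.add_ne 1
    rwa [show cc k L' (1 : k) = 1 from map_one _] at h1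

theorem j2 [CharZero k] {t : L} (hD : DR k t) {φ : L →ₐ[k] L'} (hφ : IsEt φ) {c : L'} (hc : c ^ 2 = φ t) : DC k c := by
  have hnc : NC k c := by
    apply NC.of_pow (n := 2)
    rw [hc]
    exact hD.nc.map φ
  obtain ⟨h1, h2⟩ := J1_ne hnc
  have hprod : (c - 1) * (c + 1) = φ (t - 1) := by
    rw [map_sub, map_one, ← hc]
    ring
  refine ⟨hnc, fun w h => ?_, fun w h => ?_, fun w h => ?_⟩
  · obtain ⟨v, hv⟩ := hφ.restr w
    have hz : w.Zer ((c + 1) - algebraMap k L' 2) := by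
      right
      rw [map_ofNat, show c + 1 - 2 = c - 1 by ring]
      exact h
    have h0 : w.ord (c + 1) = 0 := w.ord_eq_zero_of_val hz two_ne_zero
    have h3 : w.ord (c - 1) = v.ord (t - 1) := by
      rw [hv, ← hprod, w.ord_mul _ _ h1 h2, h0, add_zero]
    rw [h3] at h ⊢
    exact hD.one v h
  · obtain ⟨v, hv⟩ := hφ.restr w
    have hz : w.Zer ((c - 1) - algebraMap k L' (-2)) := by
      right
      rw [map_neg, map_ofNat, show c - 1 - -2 = c + 1 by ring]
      exact h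
    have h0 : w.ord (c - 1) = 0 := w.ord_eq_zero_of_val hz (neg_ne_zero.mpr two_ne_zero)
    have h3 : w.ord (c + 1) = v.ord (t - 1) := by
      rw [hv, ← hprod, w.ord_mul _ _ h1 h2, h0, zero_add]
    rw [h3] at h ⊢
    exact hD.one v h
  · obtain ⟨v, hv⟩ := hφ.restr w
    have h3 : 2 * w.ord c = v.ord t := by
      rw [hv, ← hc, w.ord_pow]
      push_cast
      ring
    have h4 := hD.pole v (by omega)
    omega

end Pool.Agent.LibVT36
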