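import Pool.Agent.LibVT36.Defs2

/-!
[VT36 K0] (SHORT/MEDIUM) Elementary rules for signatures. `Ram.dvd`: divisibility. `sig_perm`: induction on `List.Perm` (or: `Forall₂` and permutations, `List.forall₂_perm`-like lemma: from `Forall₂ R P l`, `l.Perm l'` there is `P'` with `P.Perm P'`, `Forall₂ R P' l'`:
`List.perm_comp_forall₂` / `List.forall₂_comp_perm_eq_perm_comp_forall₂`). `sig_sub`: sublists (`l'.Sublist l`: the corresponding sublist of the points; induction on the sublist). `sig_dvd`: `Forall₂ (fun n' n => n' ∣ n) l' l`. `VV.*`: immediate.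
-/

namespace Pool.Agent.LibVT36

open Pool.Agent.LibBH2
open Pool.Agent.LibCHd (FunF)

variable {k : Type} [Field k]
variable {L : Type} [Field L] [Algebra k L]

theorem Ram.dvd {t : L} {p : Option k} {n m : ℕ} (h : Ram t p n) (hm : m ∣ n) : Ram t p m := fun w hw =>
  (Int.natCast_dvd_natCast.2 hm).trans (h w hw)

private theorem K0_sub {α : Type} {R : α → ℕ → Prop} {l' l : List ℕ} (hp : l'.Sublist l) :
    ∀ {P : List α}, List.Forall₂ R P l → ∃ P' : List α, P'.Sublist P ∧ List.Forall₂ R P' l' := by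
  induction hp with
  | slnil =>
    intro P hf
    exact ⟨P, List.Sublist.refl P, hf⟩
  | cons a _ ih =>
    intro P hf
    cases hf with
    | cons hr hf' =>
      obtain ⟨P', h1, h2⟩ := ih hf'
      exact ⟨P', h1.cons _, h2⟩
  | cons_cons a _ ih =>
    intro P hf
    cases hf with
    | cons hr hf' =>
      obtain ⟨P', h1, h2⟩ := ih hf'
      exact ⟨_ :: P', h1.cons_cons _, List.Forall₂.cons hr h2⟩

private theorem K0_dvd {t : L} {P : List (Option k)} {l : List ℕ}
    (hf : List.Forall₂ (fun p n => Ram t p n) P l) :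
    ∀ {l' : List ℕ}, List.Forall₂ (fun m n => m ∣ n) l' l → List.Forall₂ (fun p n => Ram t p n) P l' := by
  induction hf with
  | nil =>
    intro l' hp
    cases hp
    exact List.Forall₂.nil
  | cons hr _ ih =>
    intro l' hp
    cases hp with
    | cons hd hp' => exact List.Forall₂.cons (hr.dvd hd) (ih hp')

theorem sig_perm {l l' : List ℕ} (h : Sig k L l) (hp : l.Perm l') : Sig k L l' := by
  obtain ⟨t, P, hnc, hnd, hf⟩ := h
  obtain ⟨P', h1, h2⟩ := List.perm_comp_forall₂ hp.symm hf.flip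
  exact ⟨t, P', hnc, h2.symm.nodup hnd, h1.flip⟩

theorem sig_sub {l l' : List ℕ} (h : Sig k L l) (hp : l'.Sublist l) : Sig k L l' := by
  obtain ⟨t, P, hnc, hnd, hf⟩ := h
  obtain ⟨P', h1, h2⟩ := K0_sub hp hf
  exact ⟨t, P', hnc, hnd.sublist h1, h2⟩

theorem sig_dvd {l l' : List ℕ} (h : Sig k L l) (hp : List.Forall₂ (fun m n => m ∣ n) l' l) : Sig k L l' := by
  obtain ⟨t, P, hnc, hnd, hf⟩ := h
  exact ⟨t, P, hnc, hnd, K0_dvd hf hp⟩

theorem VV.perm {l l' : List ℕ} (h : VV k l') (hp : l.Perm l') : VV k l := fun L _ _ hL hs =>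
  h L hL (sig_perm hs hp)

theorem VV.sub {l l' : List ℕ} (h : VV k l') (hp : l'.Sublist l) : VV k l := fun L _ _ hL hs =>
  h L hL (sig_sub hs hp)

/-- a permutation of a part of the list -/
theorem VV.subperm {l l' : List ℕ} (h : VV k l') (hp : l'.Subperm l) : VV k l := by
  obtain ⟨l'', h1, h2⟩ := hp
  exact (h.perm h1).sub h2

theorem VV.dvd {l l' : List ℕ} (h : VV k l') (hp : List.Forall₂ (fun m n => m ∣ n) l' l) : VV k l := fun L _ _ hL hs =>
  h L hL (sig_dvd hs hp)

end Pool.Agent.LibVT36
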