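import Pool.Agent.LibVT36.Defs2

/-!
[VT36 K1] Moebius transformations (typed by helper30).
-/

namespace Pool.Agent.LibVT36

open Pool.Agent.LibBH2
open Pool.Agent.LibCHd (FunF)

variable {k : Type} [Field k]
variable {L : Type} [Field L] [Algebra k L]

/-- `t'` is the image of `t` under the injective map `μ` of the projective line -/
private def K1_Mb (t t' : L) (μ : Option k → Option k) : Prop :=
  NC k t' ∧ Function.Injective μ ∧ ∀ (a : Option k) (n : ℕ), Ram t a n → Ram t' (μ a) n

private theorem K1_Mb_trans {t t' t'' : L} {μ ν : Option k → Option k} (h1 : K1_Mb t t' μ)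
    (h2 : K1_Mb t' t'' ν) : K1_Mb t t'' (fun x => ν (μ x)) :=
  ⟨h2.1, fun _ _ h => h1.2.1 (h2.2.1 h), fun a n h => h2.2.2 (μ a) n (h1.2.2 a n h)⟩

private theorem K1_nc_ne {x : L} (h : NC k x) (a : k) : x ≠ algebraMap k L a :=
  fun e => h ⟨a, e.symm⟩

/-- translation -/
private theorem K1_trans {t : L} (ht : NC k t) (c : k) :
    K1_Mb t (t - cc k L c) (Option.map (fun x => x - c)) := by
  refine ⟨?_, ?_, ?_⟩
  · rintro ⟨a, ha⟩
    refine ht ⟨a + c, ?_⟩
    rw [map_add, ha]
    exact sub_add_cancel _ _
  · apply Option.map_injective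
    intro x y hxy
    exact sub_left_injective hxy
  · intro a n h
    cases a with
    | none =>
      intro w hw
      change 0 < w.ord ((t - cc k L c)⁻¹) at hw
      change (n : ℤ) ∣ w.ord ((t - cc k L c)⁻¹)
      have h0 : t - cc k L c ≠ 0 := sub_ne_zero.2 (K1_nc_ne ht c)
      have key : w.ord ((t - cc k L c)⁻¹) = w.ord t⁻¹ := by
        rw [Place.ord_inv, Place.ord_inv]
        rw [Place.ord_inv] at hw
        by_cases hc : c = 0
        · subst hc
          have e : t - cc k L 0 = t := by
            change t - algebraMap k L 0 = t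
            rw [map_zero, sub_zero]
          rw [e]
        · have h1 : w.ord (algebraMap k L c) = 0 := w.ord_const c hc
          have h2 : algebraMap k L c ≠ 0 := by
            intro h3
            exact hc ((map_eq_zero _).1 h3)
          have h3 := (Place.ord_add_of_lt (v := w) h0 h2 (by rw [h1]; omega)).2
          have h4 : t - cc k L c + algebraMap k L c = t := sub_add_cancel _ _
          rw [h4] at h3
          rw [h3]
      rw [key]
      rw [key] at hw
      exact h w hw
    | some d =>
      intro w hw
      have key : lp (t - cc k L c) (Option.map (fun x => x - c) (some d)) = lp t (some d) := by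
        change t - algebraMap k L c - algebraMap k L (d - c) = t - algebraMap k L d
        rw [map_sub]
        ring
      rw [key]
      rw [key] at hw
      exact h w hw

/-- scaling -/
private theorem K1_scale {t : L} (ht : NC k t) {c : k} (hc : c ≠ 0) :
    K1_Mb t (cc k L c * t) (Option.map (fun x => c * x)) := by
  have hc' : algebraMap k L c ≠ 0 := by
    intro h3
    exact hc ((map_eq_zero _).1 h3)
  have ht0 : t ≠ 0 := by
    have := K1_nc_ne ht 0
    rwa [map_zero] at this
  have hord : ∀ (w : Place k L) (f : L), w.ord (algebraMap k L c * f) = w.ord f := by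
    intro w f
    by_cases hf : f = 0
    · rw [hf, mul_zero]
    · rw [w.ord_mul _ _ hc' hf, w.ord_const c hc, zero_add]
  refine ⟨?_, ?_, ?_⟩
  · rintro ⟨a, ha⟩
    refine ht ⟨c⁻¹ * a, ?_⟩
    rw [map_mul, ha, map_inv₀]
    change (algebraMap k L c)⁻¹ * (algebraMap k L c * t) = t
    rw [← mul_assoc, inv_mul_cancel₀ hc', one_mul]
  · apply Option.map_injective
    intro x y hxy
    exact mul_left_cancel₀ hc hxy
  · intro a n h
    cases a with
    | none =>
      intro w hw
      have key : w.ord (lp (cc k L c * t) (Option.map (fun x => c * x) (none : Option k))) = w.ord (lp t (none : Option k)) := by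
        change w.ord ((algebraMap k L c * t)⁻¹) = w.ord t⁻¹
        rw [Place.ord_inv, Place.ord_inv, hord]
      rw [key]
      rw [key] at hw
      exact h w hw
    | some d =>
      intro w hw
      have key : w.ord (lp (cc k L c * t) (Option.map (fun x => c * x) (some d))) = w.ord (lp t (some d)) := by
        change w.ord (algebraMap k L c * t - algebraMap k L (c * d)) = w.ord (t - algebraMap k L d)
        rw [map_mul, ← mul_sub, hord]
      rw [key]
      rw [key] at hw
      exact h w hw

open Classical in
/-- the inversion -/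
private noncomputable def K1_inv : Option k → Option k
  | none => some 0
  | some c => if c = 0 then none else some c⁻¹

private theorem K1_inv_invol (x : Option k) : K1_inv (K1_inv x) = x := by
  cases x with
  | none => simp [K1_inv]
  | some c =>
    by_cases hc : c = 0
    · simp [K1_inv, hc]
    · simp [K1_inv, hc]

private theorem K1_invM {t : L} (ht : NC k t) : K1_Mb t t⁻¹ (K1_inv (k := k)) := by
  have ht0 : t ≠ 0 := by
    have := K1_nc_ne ht 0
    rwa [map_zero] at this
  refine ⟨?_, ?_, ?_⟩
  · rintro ⟨a, ha⟩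
    refine ht ⟨a⁻¹, ?_⟩
    rw [map_inv₀, ha, inv_inv]
  · intro x y hxy
    have := congrArg (K1_inv (k := k)) hxy
    rwa [K1_inv_invol, K1_inv_invol] at this
  · intro a n h
    cases a with
    | none =>
      intro w hw
      have key : lp t⁻¹ (K1_inv (none : Option k)) = lp t (none : Option k) := by
        change t⁻¹ - algebraMap k L 0 = t⁻¹
        rw [map_zero, sub_zero]
      rw [key]
      rw [key] at hw
      exact h w hw
    | some c =>
      by_cases hc : c = 0
      · subst hc
        intro w hw
        have key : lp t⁻¹ (K1_inv (some (0 : k))) = lp t (some (0 : k)) := by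
          have e : K1_inv (some (0 : k)) = none := by simp [K1_inv]
          rw [e]
          change (t⁻¹)⁻¹ = t - algebraMap k L 0
          rw [map_zero, sub_zero, inv_inv]
        rw [key]
        rw [key] at hw
        exact h w hw
      · intro w hw
        have e : K1_inv (some c) = some c⁻¹ := by simp [K1_inv, hc]
        rw [e] at hw ⊢
        change 0 < w.ord (t⁻¹ - algebraMap k L c⁻¹) at hw
        change (n : ℤ) ∣ w.ord (t⁻¹ - algebraMap k L c⁻¹)
        have hc' : algebraMap k L c ≠ 0 := by
          intro h3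
          exact hc ((map_eq_zero _).1 h3)
        have o1 : w.ord t⁻¹ = 0 := Place.ord_eq_zero_of_val (v := w) (Or.inr hw) (inv_ne_zero hc)
        have o2 : w.ord t = 0 := by
          rw [Place.ord_inv] at o1
          omega
        have hne : t⁻¹ - algebraMap k L c⁻¹ ≠ 0 := by
          intro h5
          rw [h5, w.ord_zero] at hw
          exact lt_irrefl _ hw
        have key : w.ord (t⁻¹ - algebraMap k L c⁻¹) = w.ord (t - algebraMap k L c) := by
          have e2 : t - algebraMap k L c = -((t⁻¹ - algebraMap k L c⁻¹) * (algebraMap k L c * t)) := by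
            rw [map_inv₀]
            field_simp
            ring
          rw [e2, Place.ord_neg, w.ord_mul _ _ hne (mul_ne_zero hc' ht0), w.ord_mul _ _ hc' ht0,
            w.ord_const c hc, o2]
          omega
        rw [key]
        rw [key] at hw
        exact h w hw

/-- a point goes to infinity -/
private theorem K1_toInf {t : L} (ht : NC k t) (q : Option k) :
    ∃ (t' : L) (μ : Option k → Option k), K1_Mb t t' μ ∧ μ q = none := by
  cases q with
  | none =>
    exact ⟨t, id, ⟨ht, Function.injective_id, fun a n h => h⟩, rfl⟩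
  | some c =>
    have h1 := K1_trans ht c
    have h2 := K1_invM h1.1
    refine ⟨_, _, K1_Mb_trans h1 h2, ?_⟩
    change K1_inv (some (c - c)) = none
    rw [sub_self]
    simp [K1_inv]

private theorem K1_base {t : L} (ht : NC k t) {p r : Option k} (hp : p ≠ none) (hr : r ≠ none) (hpr : p ≠ r) :
    ∃ (t' : L) (μ : Option k → Option k), K1_Mb t t' μ ∧ μ p = some 0 ∧ μ none = none ∧ μ r = some 1 := by
  cases p with
  | none => exact absurd rfl hp
  | some a =>
    cases r with
    | none => exact absurd rfl hr
    | some b =>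
      have hab : b - a ≠ 0 := by
        intro h
        apply hpr
        rw [sub_eq_zero.1 h]
      have h1 := K1_trans ht a
      have h2 := K1_scale h1.1 (inv_ne_zero hab)
      refine ⟨_, _, K1_Mb_trans h1 h2, ?_, rfl, ?_⟩
      · change some ((b - a)⁻¹ * (a - a)) = some 0
        rw [sub_self, mul_zero]
      · change some ((b - a)⁻¹ * (b - a)) = some 1
        rw [inv_mul_cancel₀ hab]

private theorem K1_avoid [CharZero k] (P : List (Option k)) : ∃ q : Option k, q ∉ P := by
  classical
  have : Infinite k := Infinite.of_injective (fun n : ℕ => (n : k)) Nat.cast_injective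
  obtain ⟨q, hq⟩ := Infinite.exists_notMem_finset P.toFinset
  exact ⟨q, fun h => hq (List.mem_toFinset.2 h)⟩

theorem mob3 [IsAlgClosed k] [CharZero k] {t : L} (ht : NC k t) {p q r : Option k} (h1 : p ≠ q) (h2 : p ≠ r) (h3 : q ≠ r) :
    ∃ (t' : L) (μ : Option k → Option k), NC k t' ∧ Function.Injective μ ∧ μ p = some 0 ∧ μ q = none ∧
      μ r = some 1 ∧ ∀ (a : Option k) (n : ℕ), Ram t a n → Ram t' (μ a) n := by
  obtain ⟨t1, μ1, m1, e1⟩ := K1_toInf ht q
  have hp : μ1 p ≠ none := fun e => h1 (m1.2.1 (e.trans e1.symm))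
  have hr : μ1 r ≠ none := fun e => h3 (m1.2.1 (e1.trans e.symm))
  have hpr : μ1 p ≠ μ1 r := fun e => h2 (m1.2.1 e)
  obtain ⟨t2, μ2, m2, a1, a2, a3⟩ := K1_base m1.1 hp hr hpr
  have m3 := K1_Mb_trans m1 m2
  refine ⟨t2, fun x => μ2 (μ1 x), m3.1, m3.2.1, a1, ?_, a3, m3.2.2⟩
  change μ2 (μ1 q) = none
  rw [e1, a2]

theorem mob2 [IsAlgClosed k] [CharZero k] {t : L} (ht : NC k t) {p q : Option k} (h1 : p ≠ q) :
    ∃ (t' : L) (μ : Option k → Option k), NC k t' ∧ Function.Injective μ ∧ μ p = some 0 ∧ μ q = none ∧
      ∀ (a : Option k) (n : ℕ), Ram t a n → Ram t' (μ a) n := by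
  obtain ⟨r, hr⟩ := K1_avoid [p, q]
  have hp : p ≠ r := fun e => hr (by rw [← e]; exact List.mem_cons_self)
  have hq : q ≠ r := fun e => hr (by rw [← e]; exact List.mem_cons_of_mem _ List.mem_cons_self)
  obtain ⟨t', μ, b1, b2, b3, b4, _, b6⟩ := mob3 ht h1 hp hq
  exact ⟨t', μ, b1, b2, b3, b4, b6⟩

theorem mob_fin [IsAlgClosed k] [CharZero k] {t : L} (ht : NC k t) (P : List (Option k)) :
    ∃ (t' : L) (μ : Option k → Option k), NC k t' ∧ Function.Injective μ ∧ (∀ p ∈ P, μ p ≠ none) ∧
      ∀ (a : Option k) (n : ℕ), Ram t a n → Ram t' (μ a) n := by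
  obtain ⟨q, hq⟩ := K1_avoid P
  obtain ⟨t1, μ1, m1, e1⟩ := K1_toInf ht q
  refine ⟨t1, μ1, m1.1, m1.2.1, ?_, m1.2.2⟩
  intro p hp e
  have : p = q := m1.2.1 (e.trans e1.symm)
  rw [this] at hp
  exact hq hp

end Pool.Agent.LibVT36
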