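import Pool.Agent.LibVT36.Defs2

/-!
[VT36 K2] (SHORT/MEDIUM) `s^d = φ t`. `w` a place of `L'`, `v` its restriction (`IsEt.restr`): `d * w.ord s = v.ord t`. First two: `lp s (some 0) = s - 0`, `lp s none = s⁻¹`. Last: `0 < w.ord (s - z)`, `z ≠ 0`: `s^d - z^d = (s - z) (s^(d-1) + ... + z^(d-1))` and the second factor has the value
`d z^(d-1) ≠ 0` at `w` (a unit), so `w.ord (s - z) = w.ord (φ t - c) = v.ord (t - c)`.
-/

namespace Pool.Agent.LibVT36

open Pool.Agent.LibBH2
open Pool.Agent.LibCHd (FunF)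

variable {k : Type} [Field k]
variable {L L' : Type} [Field L] [Algebra k L] [Field L'] [Algebra k L']

private theorem K2_sum {w : Place k L'} {s : L'} {z : k} (h : w.Zer (s - algebraMap k L' z)) (e : ℕ → ℕ) (m : ℕ) :
    w.Zer (∑ i ∈ Finset.range m, s ^ i * (algebraMap k L' z) ^ e i -
      algebraMap k L' (∑ i ∈ Finset.range m, z ^ i * z ^ e i)) := by
  induction m with
  | zero => simp [Place.zer_zero]
  | succ m ih =>
    rw [Finset.sum_range_succ, Finset.sum_range_succ]
    refine Place.val_add ih ?_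
    refine Place.val_mul (Place.val_pow h m) ?_
    rw [map_pow, sub_self]
    exact Place.zer_zero w

private theorem K2_ord {w : Place k L'} {s : L'} {z : k} [CharZero k] {d : ℕ} (hd : 0 < d) (hz : z ≠ 0)
    (h : 0 < w.ord (s - algebraMap k L' z)) :
    w.ord (s ^ d - algebraMap k L' z ^ d) = w.ord (s - algebraMap k L' z) := by
  have hsz : s - algebraMap k L' z ≠ 0 := by
    intro h0
    rw [h0, w.ord_zero] at h
    exact lt_irrefl _ h
  have hv := K2_sum (w := w) (s := s) (z := z) (Or.inr h) (fun i => d - 1 - i) d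
  have hc : (∑ i ∈ Finset.range d, z ^ i * z ^ (d - 1 - i)) ≠ 0 := by
    have h1 : ∑ i ∈ Finset.range d, z ^ i * z ^ (d - 1 - i) = ∑ _i ∈ Finset.range d, z ^ (d - 1) := by
      refine Finset.sum_congr rfl fun i hi => ?_
      rw [← pow_add]
      congr 1
      have := Finset.mem_range.1 hi
      omega
    rw [h1, Finset.sum_const, Finset.card_range, nsmul_eq_mul]
    exact mul_ne_zero (Nat.cast_ne_zero.2 hd.ne') (pow_ne_zero _ hz)
  rw [← geom_sum₂_mul s (algebraMap k L' z) d,
    w.ord_mul _ _ (Place.ne_zero_of_val hv hc) hsz, Place.ord_eq_zero_of_val hv hc, zero_add]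

theorem cyc_pts [CharZero k] {t : L} {φ : L →ₐ[k] L'} (hφ : IsEt φ) {s : L'} {d : ℕ} (hd : 0 < d) (hs : s ^ d = φ t) :
    (NC k t → NC k s) ∧ (∀ a : ℕ, Ram t (some (0 : k)) (d * a) → Ram s (some (0 : k)) a) ∧
    (∀ b : ℕ, Ram t (none : Option k) (d * b) → Ram s (none : Option k) b) ∧
    ∀ (c z : k) (n : ℕ), c ≠ 0 → z ^ d = c → Ram t (some c) n → Ram s (some z) n := by
  have hd0 : (d : ℤ) ≠ 0 := by exact_mod_cast hd.ne'
  have hdp : (0 : ℤ) < d := by exact_mod_cast hd
  have key : ∀ w : Place k L', ∃ v : Place k L, (∀ f, v.ord f = w.ord (φ f)) ∧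
      v.ord t = d * w.ord s := by
    intro w
    obtain ⟨v, hv⟩ := hφ.restr w
    exact ⟨v, hv, by rw [hv t, ← hs, w.ord_pow]⟩
  refine ⟨?_, ?_, ?_, ?_⟩
  · intro h
    have h1 : NC k (s ^ d) := by
      rw [hs]
      exact h.map φ
    exact h1.of_pow
  · intro a h w hw
    obtain ⟨v, _, hv⟩ := key w
    have e1 : w.ord (lp s (some (0 : k))) = w.ord s := by simp [lp, cc]
    have e2 : v.ord (lp t (some (0 : k))) = v.ord t := by simp [lp, cc]
    rw [e1] at hw ⊢
    have h1 := h v (by rw [e2, hv]; positivity)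
    rw [e2, hv] at h1
    push_cast at h1
    exact (mul_dvd_mul_iff_left hd0).1 h1
  · intro b h w hw
    obtain ⟨v, _, hv⟩ := key w
    have e1 : w.ord (lp s (none : Option k)) = - w.ord s := by
      simp only [lp]
      exact w.ord_inv s
    have e2 : v.ord (lp t (none : Option k)) = d * (- w.ord s) := by
      simp only [lp]
      rw [v.ord_inv, hv]
      ring
    rw [e1] at hw ⊢
    have h1 := h v (by rw [e2]; positivity)
    rw [e2] at h1
    push_cast at h1
    exact (mul_dvd_mul_iff_left hd0).1 h1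
  · intro c z n hc hz h w hw
    obtain ⟨v, hv, _⟩ := key w
    have hz0 : z ≠ 0 := by
      rintro rfl
      rw [zero_pow hd.ne'] at hz
      exact hc hz.symm
    have hw' : 0 < w.ord (s - algebraMap k L' z) := hw
    have e1 : w.ord (s ^ d - algebraMap k L' z ^ d) = v.ord (t - algebraMap k L c) := by
      rw [hv, map_sub, φ.commutes, hs, ← map_pow, hz]
    have e2 := K2_ord hd hz0 hw'
    have e3 : v.ord (lp t (some c)) = w.ord (lp s (some z)) := by
      show v.ord (t - algebraMap k L c) = w.ord (s - algebraMap k L' z)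
      rw [← e1, e2]
    have h1 := h v (by rw [e3]; exact hw)
    rw [e3] at h1
    exact h1

end Pool.Agent.LibVT36
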