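import Pool.Agent.LibVT36.K0
import Pool.Agent.LibVT36.K1
import Pool.Agent.LibVT36.K2

/-!
[VT36 K3] (MEDIUM) The cyclic covering branched over two points. The points of `h` are `p :: q :: P`. `mob2` moves `p, q` to `0, ∞`, the others to `some c_i`, `c_i ≠ 0` different. `d ∣ w.ord t` for all `w` (if `w.ord t > 0`: `Ram t (some 0) (d * a)`, if `< 0`: `Ram t none (d * b)`). `Reach.step` with `f = t`,
`n = d`: `s^d = φ t`, `cyc_pts`. New points: `some 0, none`, and for every `j < d` the list of the points `some (ζ^j z_i)`, `z_i^d = c_i`, `ζ` a primitive `d`-th root of unity (`IsAlgClosed`, characteristic 0): all different. `Forall₂` for `(List.replicate d l).flatten`: induction on `d` (`List.replicate_succ`,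
`List.flatten_cons`, `List.Forall₂.append`-like `List.rel_append`). `VV.cyc`: compose (`Reach.trans`, prove it here: `Reach` of `Reach`, `IsEt.comp`).
-/

namespace Pool.Agent.LibVT36

open Pool.Agent.LibBH2
open Pool.Agent.LibCHd (FunF)

variable {k : Type} [Field k]
variable [IsAlgClosed k] [CharZero k]

theorem Reach.trans {L : Type} [Field L] [Algebra k L] {P Q : ∀ (L' : Type) [Field L'] [Algebra k L'], Prop}
    (h : Reach k L P) (h' : ∀ (L' : Type) [Field L'] [Algebra k L'], FunF k 1 L' → P L' → Reach k L' Q) : Reach k L Q := by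
  obtain ⟨L', i1, i2, φ, hφ, hF, hP⟩ := h
  obtain ⟨L'', j1, j2, ψ, hψ, hF', hQ⟩ := h' L' hF hP
  exact ⟨L'', j1, j2, ψ.comp φ, hφ.comp hψ, hF', hQ⟩

omit [IsAlgClosed k] [CharZero k] in
private theorem K3_forall {α β ι : Type} {R : α → β → Prop} {l : List β} (f : ι → List α) :
    ∀ J : List ι, (∀ j ∈ J, List.Forall₂ R (f j) l) →
      List.Forall₂ R (J.flatMap f) (List.replicate J.length l).flatten := by
  intro J
  induction J with
  | nil => intro _; exact List.Forall₂.nil
  | cons j J ih =>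
    intro h
    rw [List.flatMap_cons, List.length_cons, List.replicate_succ, List.flatten_cons]
    exact List.rel_append (h j (List.mem_cons_self)) (ih fun i hi => h i (List.mem_cons_of_mem _ hi))

theorem sig_cyc {L : Type} [Field L] [Algebra k L] (hL : FunF k 1 L) {d a b : ℕ} {l : List ℕ} (hd : 0 < d)
    (h : Sig k L (d * a :: d * b :: l)) : Reach k L (fun L' _ _ => Sig k L' (a :: b :: (List.replicate d l).flatten)) := by
  obtain ⟨t, P, ht, hnd, hf⟩ := h
  rw [List.forall₂_cons_right_iff] at hf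
  obtain ⟨p, P1, hp, hf1, rfl⟩ := hf
  rw [List.forall₂_cons_right_iff] at hf1
  obtain ⟨q, P2, hq, hf2, rfl⟩ := hf1
  rw [List.nodup_cons, List.nodup_cons] at hnd
  obtain ⟨hp1, hq1, hnd2⟩ := hnd
  have hpq : p ≠ q := fun e => hp1 (by rw [e]; exact List.mem_cons_self)
  have hp2 : p ∉ P2 := fun e => hp1 (List.mem_cons_of_mem _ e)
  obtain ⟨t', μ, ht', hμ, hμp, hμq, hram⟩ := mob2 ht hpq
  have h0 := hram p _ hp
  have h1 := hram q _ hq
  rw [hμp] at h0
  rw [hμq] at h1
  have ht0 : t' ≠ 0 := ht'.ne_zero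
  have hdv : ∀ w : Place k L, (d : ℤ) ∣ w.ord t' := by
    intro w
    rcases lt_trichotomy (w.ord t') 0 with hw | hw | hw
    · have h2 : w.ord t'⁻¹ = - w.ord t' := by
        have h3 := w.ord_mul t' t'⁻¹ ht0 (inv_ne_zero ht0)
        rw [mul_inv_cancel₀ ht0] at h3
        have h4 := w.ord_const 1 one_ne_zero
        rw [map_one] at h4
        omega
      have h3 : 0 < w.ord (lp t' (none : Option k)) := by
        change 0 < w.ord t'⁻¹
        omega
      have h4 := h1 w h3
      change ((d * b : ℕ) : ℤ) ∣ w.ord t'⁻¹ at h4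
      rw [h2, dvd_neg] at h4
      refine Dvd.dvd.trans ?_ h4
      push_cast
      exact dvd_mul_right _ _
    · rw [hw]
      exact dvd_zero _
    · have e : lp t' (some (0 : k)) = t' := by
        change t' - algebraMap k L 0 = t'
        rw [map_zero, sub_zero]
      have h4 := h0 w (by rw [e]; exact hw)
      rw [e] at h4
      refine Dvd.dvd.trans ?_ h4
      push_cast
      exact dvd_mul_right _ _
  refine Reach.step hL ht0 hd hdv fun L' _ _ φ s hφ hF hs => Reach.of hF ?_
  obtain ⟨c1, c2, c3, c4⟩ := cyc_pts hφ hd hs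
  have hdk : ((d : ℕ) : k) ≠ 0 := by exact_mod_cast hd.ne'
  have : NeZero ((d : ℕ) : k) := ⟨hdk⟩
  obtain ⟨ζ, hζ⟩ : ∃ ζ : k, IsPrimitiveRoot ζ d := HasEnoughRootsOfUnity.prim
  have hroot : ∀ c : k, ∃ z : k, z ^ d = c := fun c => IsAlgClosed.exists_pow_nat_eq c hd
  choose z hz using hroot
  have hμs : ∀ x ∈ P2, ∃ c : k, c ≠ 0 ∧ μ x = some c := by
    intro x hx
    cases e : μ x with
    | none =>
      exfalso
      have : x = q := hμ (by rw [e, hμq])
      exact hq1 (this ▸ hx)
    | some c =>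
      refine ⟨c, ?_, rfl⟩
      rintro rfl
      have : x = p := hμ (by rw [e, hμp])
      exact hp2 (this ▸ hx)
  obtain ⟨g, hg⟩ : ∃ g : Option k → k, ∀ x, g x = z ((μ x).getD 0) := ⟨_, fun _ => rfl⟩
  have hgd : ∀ x ∈ P2, μ x = some (g x ^ d) := by
    intro x hx
    obtain ⟨c, _, hc⟩ := hμs x hx
    rw [hg, hz, hc]
    rfl
  have hg0 : ∀ x ∈ P2, g x ≠ 0 := by
    intro x hx e
    obtain ⟨c, hc0, hc⟩ := hμs x hx
    have h2 := hgd x hx
    rw [hc, e, zero_pow hd.ne'] at h2
    exact hc0 (Option.some.inj h2)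
  have hζ0 : ∀ j : ℕ, ζ ^ j ≠ 0 := fun j => pow_ne_zero _ (hζ.ne_zero hd.ne')
  have hpw : ∀ (j : ℕ) (x : Option k), (ζ ^ j * g x) ^ d = g x ^ d := by
    intro j x
    rw [mul_pow, ← pow_mul, mul_comm j d, pow_mul, hζ.pow_eq_one, one_pow, one_mul]
  have hmem : ∀ y ∈ (List.range d).flatMap (fun j => P2.map fun x => (some (ζ ^ j * g x) : Option k)),
      ∃ u : k, u ≠ 0 ∧ y = some u := by
    intro y hy
    rw [List.mem_flatMap] at hy
    obtain ⟨j, _, hy⟩ := hy
    rw [List.mem_map] at hy
    obtain ⟨x, hx, rfl⟩ := hy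
    exact ⟨_, mul_ne_zero (hζ0 j) (hg0 x hx), rfl⟩
  refine ⟨s, some 0 :: none :: (List.range d).flatMap
    (fun j => P2.map fun x => (some (ζ ^ j * g x) : Option k)), c1 ht', ?_, ?_⟩
  · rw [List.nodup_cons, List.nodup_cons]
    refine ⟨?_, ?_, ?_⟩
    · intro h2
      rw [List.mem_cons] at h2
      rcases h2 with h2 | h2
      · cases h2
      · obtain ⟨u, hu, e⟩ := hmem _ h2
        exact hu (Option.some.inj e).symm
    · intro h2
      obtain ⟨u, hu, e⟩ := hmem _ h2
      cases e
    · rw [List.nodup_flatMap]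
      refine ⟨?_, ?_⟩
      · intro j _
        refine (List.nodup_map_iff_inj_on hnd2).2 ?_
        intro x hx y hy e
        have e1 := Option.some.inj e
        have e2 : g x ^ d = g y ^ d := by rw [← hpw j x, ← hpw j y, e1]
        exact hμ (by rw [hgd x hx, hgd y hy, e2])
      · refine List.Nodup.pairwise_of_forall_ne List.nodup_range ?_
        intro i hi j hj hij
        rw [Function.onFun, List.disjoint_left]
        intro y hy hy'
        rw [List.mem_map] at hy hy'
        obtain ⟨x, hx, rfl⟩ := hy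
        obtain ⟨x', hx', e⟩ := hy'
        have e1 := Option.some.inj e
        have e2 : g x' ^ d = g x ^ d := by rw [← hpw j x', ← hpw i x, e1]
        have e3 : x' = x := hμ (by rw [hgd x' hx', hgd x hx, e2])
        rw [e3] at e1
        have e4 := mul_right_cancel₀ (hg0 x hx) e1
        exact hij (hζ.pow_inj (List.mem_range.1 hi) (List.mem_range.1 hj) e4.symm)
  · refine List.Forall₂.cons (c2 a h0) (List.Forall₂.cons (c3 b h1) ?_)
    have h5 := K3_forall (R := fun (p : Option k) (n : ℕ) => Ram s p n) (l := l)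
      (fun j => P2.map fun x => (some (ζ ^ j * g x) : Option k)) (List.range d) ?_
    · rw [List.length_range] at h5
      exact h5
    · intro j _
      rw [List.forall₂_map_left_iff]
      have h6 : List.Forall₂ (fun x n => x ∈ P2 ∧ Ram t x n) P2 l := by
        rw [List.forall₂_iff_zip] at hf2 ⊢
        refine ⟨hf2.1, fun {x n} hxn => ⟨(List.of_mem_zip hxn).1, hf2.2 hxn⟩⟩
      refine h6.imp ?_
      rintro x n ⟨hx, hr⟩
      refine c4 (g x ^ d) (ζ ^ j * g x) n (pow_ne_zero _ (hg0 x hx)) (hpw j x) ?_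
      rw [← hgd x hx]
      exact hram x n hr

theorem VV.cyc {d a b : ℕ} {l : List ℕ} (hd : 0 < d) (h : VV k (a :: b :: (List.replicate d l).flatten)) :
    VV k (d * a :: d * b :: l) := by
  intro L _ _ hL hS
  exact Reach.trans (sig_cyc hL hd hS) fun L' _ _ hL' hS' => h L' hL' hS'

end Pool.Agent.LibVT36
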