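import Pool.Agent.LibVT36.K0
import Pool.Agent.LibVT36.K1
import Pool.Agent.LibVT36.K3

/-!
[VT36 K7] (SHORT/MEDIUM) Fermat curves. `mob3`: the three points are `0, ∞, 1` (indices `n`). `f = t (1 - t)`: `n ∣ w.ord f` for all `w` (zero of `t`: `1 - t` is a unit; zero of `t - 1`; pole: `2 w.ord t`). `Reach.step`: `y^n = φ f`. `z = 1 - 2 φ t`: `z^2 = 1 - 4 y^n = P(y)`, `P = 1 - 4 X^n` squarefree
(separable: derivative `- 4 n X^(n-1)`, no common root), degree `n ≥ 5`; `NC y` (if `y` is constant then `t` is algebraic). `hyp` (J2) with `t := y`, `y := z`; `z_DA`.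
-/

namespace Pool.Agent.LibVT36

open Pool.Agent.LibBH2
open Pool.Agent.LibCHd (FunF)

variable {k : Type} [Field k]
private theorem K7_div {L : Type} [Field L] [Algebra k L] {t : L} (hnc : NC k t) {n : ℕ}
    (h0 : Ram t (some (0 : k)) n) (hi : Ram t (none : Option k) n) (h1 : Ram t (some (1 : k)) n)
    (w : Place k L) : (n : ℤ) ∣ w.ord (t * (1 - t)) := by
  have ht0 : t ≠ 0 := hnc.ne_zero
  have ht1 : t - 1 ≠ 0 := by
    have h := hnc.sub_ne 1
    rwa [cc, map_one] at h
  have h1t : 1 - t ≠ 0 := by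
    intro h
    apply ht1
    rw [← neg_sub, h, neg_zero]
  have hneg : w.ord (1 - t) = w.ord (t - 1) := by
    rw [← neg_sub t 1, Place.ord_neg]
  rw [w.ord_mul _ _ ht0 h1t]
  rcases lt_trichotomy 0 (w.ord t) with hp | hp | hp
  · -- a zero of `t`
    have e1 : w.ord (1 - t) = 0 := by
      apply Place.ord_eq_zero_of_val (c := 1) _ one_ne_zero
      right
      rw [map_one]
      have e : (1 : L) - t - 1 = -t := by ring
      rw [e, Place.ord_neg]
      exact hp
    rw [e1, add_zero]
    have h2 := h0 w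
    have e2 : lp t (some (0 : k)) = t := by
      show t - algebraMap k L 0 = t
      rw [map_zero, sub_zero]
    rw [e2] at h2
    exact h2 hp
  · rw [← hp, zero_add, hneg]
    have hreg : w.Reg (t - 1) := by
      have h2 : w.Reg t := Or.inr hp.le
      have h3 := h2.sub (w.reg_const 1)
      rwa [map_one] at h3
    have h4 : 0 ≤ w.ord (t - 1) := hreg.resolve_left ht1
    rcases eq_or_lt_of_le h4 with h5 | h5
    · rw [← h5]
      exact dvd_zero _
    · have h2 := h1 w
      have e2 : lp t (some (1 : k)) = t - 1 := by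
        show t - algebraMap k L 1 = t - 1
        rw [map_one]
      rw [e2] at h2
      exact h2 h5
  · -- a pole of `t`
    have hinv : 0 < w.ord t⁻¹ := by
      rw [Place.ord_inv]
      omega
    have h2 : (n : ℤ) ∣ w.ord t⁻¹ := hi w hinv
    have e1 : w.ord (t⁻¹ - 1) = 0 := by
      apply Place.ord_eq_zero_of_val (c := -1) _ (by simp)
      right
      rw [map_neg, map_one]
      have e : t⁻¹ - 1 - -1 = t⁻¹ := by ring
      rw [e]
      exact hinv
    have hne : t⁻¹ - 1 ≠ 0 := by
      intro h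
      have h3 : t⁻¹ = 1 := sub_eq_zero.mp h
      rw [h3, Place.ord_one] at hinv
      exact lt_irrefl _ hinv
    have e3 : (1 : L) - t = t * (t⁻¹ - 1) := by
      rw [mul_sub, mul_inv_cancel₀ ht0, mul_one]
    rw [e3, w.ord_mul _ _ ht0 hne, e1, add_zero]
    rw [Place.ord_inv] at h2
    have h3 : (n : ℤ) ∣ w.ord t := (dvd_neg).mp h2
    exact dvd_add h3 h3

theorem vv_nnn [IsAlgClosed k] [CharZero k] {n : ℕ} (hn : 5 ≤ n) : VV k [n, n, n] := by
  intro L _ _ hL hS
  obtain ⟨t₀, P₀, hnc₀, hnd, hF⟩ := hS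
  cases hF with
  | cons h1 hF =>
  cases hF with
  | cons h2 hF =>
  cases hF with
  | cons h3 hF =>
  cases hF with
  | nil =>
  simp only [List.nodup_cons, List.mem_cons, List.not_mem_nil, or_false, not_or,
    not_false_eq_true, List.nodup_nil, and_true] at hnd
  obtain ⟨⟨n1, n2⟩, n3⟩ := hnd
  obtain ⟨t, μ, hnc, _, m1, m2, m3, hμ⟩ := mob3 hnc₀ n1 n2 n3
  have r1 : Ram t (some (0 : k)) n := m1 ▸ hμ _ n h1
  have r2 : Ram t (none : Option k) n := m2 ▸ hμ _ n h2
  have r3 : Ram t (some (1 : k)) n := m3 ▸ hμ _ n h3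
  have hn0 : 0 < n := by omega
  have hf : t * (1 - t) ≠ 0 := by
    refine mul_ne_zero hnc.ne_zero ?_
    intro h
    have h4 := hnc.ne 1
    rw [cc, map_one] at h4
    exact h4 (sub_eq_zero.mp h).symm
  refine Reach.step hL hf hn0 (fun w => K7_div hnc r1 r2 r3 w) ?_
  intro L' _ _ φ y hφ hL' hy
  have hncφ : NC k (φ t) := hnc.map φ
  rw [map_mul, map_sub, map_one] at hy
  have hny : NC k y := by
    rintro ⟨a, ha⟩
    apply hncφ
    refine mem_of_root (Polynomial.X * (1 - Polynomial.X) - Polynomial.C (a ^ n)) ?_ ?_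
    · intro h0
      have h4 := congrArg (fun Q : Polynomial k => Q.coeff 2) h0
      generalize a ^ n = b at h4
      simp [mul_sub, Polynomial.coeff_X] at h4
    · simp only [map_sub, map_mul, map_one, Polynomial.aeval_X, Polynomial.aeval_C, map_pow]
      rw [ha, hy, sub_self]
  obtain ⟨i, hi⟩ := IsAlgClosed.exists_pow_nat_eq (-1 : k) (n := 2) (by norm_num)
  have ha : (2 : k) * (1 / 2) = 1 := by
    rw [mul_one_div_cancel]
    exact two_ne_zero
  have hsq : Squarefree (Polynomial.X ^ n - Polynomial.C (((1 : k) / 2) ^ 2)) := by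
    apply Polynomial.Separable.squarefree
    apply Polynomial.separable_X_pow_sub_C
    · exact_mod_cast hn0.ne'
    · exact pow_ne_zero 2 (by norm_num)
  have hdeg : 5 ≤ (Polynomial.X ^ n - Polynomial.C (((1 : k) / 2) ^ 2)).natDegree := by
    rw [Polynomial.natDegree_X_pow_sub_C]
    exact hn
  have hi' : (algebraMap k L' i) ^ 2 = -1 := by
    rw [← map_pow, hi, map_neg, map_one]
  have ha' : 2 * algebraMap k L' (1 / 2) = 1 := by
    have h5 := congrArg (algebraMap k L') ha
    rwa [map_mul, map_one, map_ofNat] at h5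
  obtain ⟨c, hc⟩ := hyp hny hsq hdeg
    (y := algebraMap k L' i * (algebraMap k L' (1 / 2) - φ t)) (by
      simp only [map_sub, Polynomial.aeval_X, Polynomial.aeval_C, map_pow]
      rw [hy]
      linear_combination (algebraMap k L' (1 / 2) - φ t) ^ 2 * hi' + φ t * ha')
  exact z_DA hL' hc

end Pool.Agent.LibVT36
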