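import Pool.Agent.LibVT36.A0
import Pool.Agent.LibVT36.Defs2

/-!
[VT36 K8] (MEDIUM) Translation on `c^2 = h^3 + 1` by `- Q`, `Q = (h0, c0)`, `h0 ≠ 0`. `mu = (c + c0) / (h - h0)`, `h' = mu^2 - h - h0`, `c' = - (mu (h' - h) + c)`: `c'^2 = h'^3 + 1`, `h' (h - h0)^2 = h0 h^2 + h0^2 h + 2 c0 c + 2`. (Compare row F1 = VT36_F1.lean.)
Orders, `w.ord h' < 0`: (1) `h` pole or `h - h0` unit: `h'` regular (F1), contradiction. (2) `0 < w.ord (h - h0)`: `(c - c0)(c + c0) = (h - h0)(h^2 + h h0 + h0^2)`, the last factor has the value `3 h0^2 ≠ 0`. If `c0 ≠ 0`: one of `c - c0`, `c + c0` vanishes, the other is a unit. If `c + c0` vanishes: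
`mu = (h^2 + h h0 + h0^2) / (c - c0)` is regular, `h'` regular, contradiction. So `w.ord (c - c0) = w.ord (h - h0) = e > 0`, and the numerator `h0 h^2 + h0^2 h + 2 c0 c + 2` has the value `2 h0^3 + 2 c0^2 + 2 = 4 c0^2 ≠ 0`: `w.ord h' = - 2 e`, `m ∣ e` (`Ram c (some c0) m`).
If `c0 = 0`: `w.ord (c^2) = w.ord (h - h0)`, so with `e = w.ord c > 0`: `w.ord (h - h0) = 2 e`; `h0^3 = - 1`, the numerator is `h0 (h - h0)(h + 2 h0)`, `h + 2 h0` has the value `3 h0`: `w.ord h' = - w.ord (h - h0) = - 2 e`.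
`NC h'`: as in F1 for `c0 ≠ 0`; for `c0 = 0`: `h' (h - h0) = h0 (h + 2 h0)`, `h'` constant gives (`mem_of_root`, degree one polynomial `(h' - h0) h - ...`; if `h' = h0` then `- h0^2 = 2 h0^2`, no).
-/

namespace Pool.Agent.LibVT36

open Pool.Agent.LibBH2
open Pool.Agent.LibCHd (FunF)

variable {k : Type} [Field k]
variable {L : Type} [Field L] [Algebra k L]

private theorem K8_reg_of_sq {w : Place k L} {f : L} (h : w.Reg (f ^ 2)) : w.Reg f := by
  rcases h with h | h
  · exact Or.inl ((pow_eq_zero_iff two_ne_zero).1 h)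
  · right
    rw [w.ord_pow] at h
    push_cast at h
    omega

private theorem K8_c {h c : L} (heq : c ^ 2 = h ^ 3 + 1) {w : Place k L} (hh : w.Reg h) :
    w.Reg c := by
  apply K8_reg_of_sq
  rw [heq]
  exact (hh.pow 3).add (Or.inr (by rw [w.ord_one]))

/-- the point is on the curve -/
private theorem K8_eq {h c a b mu : L} (heq : c ^ 2 = h ^ 3 + 1) (hb : b ^ 2 = a ^ 3 + 1)
    (hd : h - a ≠ 0) (hmu : mu * (h - a) = c + b) :
    (-(mu * (mu ^ 2 - h - a - h) + c)) ^ 2 = (mu ^ 2 - h - a) ^ 3 + 1 := by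
  have h2 : (mu * (a - h) + c) ^ 2 = a ^ 3 + 1 := by
    have h3 : mu * (a - h) + c = -b := by linear_combination -hmu
    rw [h3]
    linear_combination hb
  apply mul_left_cancel₀ hd
  linear_combination ((mu ^ 2 - h - a) - a) * heq - ((mu ^ 2 - h - a) - h) * h2

private theorem K8_num {h c a b mu : L} (heq : c ^ 2 = h ^ 3 + 1) (hb : b ^ 2 = a ^ 3 + 1)
    (hmu : mu * (h - a) = c + b) :
    (mu ^ 2 - h - a) * (h - a) ^ 2 = a * h ^ 2 + a ^ 2 * h + 2 * b * c + 2 := by
  have h1 : (mu * (h - a)) ^ 2 = (c + b) ^ 2 := by rw [hmu]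
  linear_combination h1 + heq + hb

private theorem K8_two [CharZero k] : cc k L 2 = 2 := by
  show algebraMap k L 2 = 2
  rw [map_ofNat]

/-- away from the zeros of `h - h0` the new function is regular -/
private theorem K8_regular {h c hp : L} {h0 c0 : k} (heq : c ^ 2 = h ^ 3 + 1)
    (hd : h - cc k L h0 ≠ 0) (hnum : hp * (h - cc k L h0) ^ 2 =
      cc k L h0 * h ^ 2 + cc k L h0 ^ 2 * h + 2 * cc k L c0 * c + 2)
    {w : Place k L} (hw : ¬ 0 < w.ord (h - cc k L h0)) : w.Reg hp := by
  have hu : w.Reg (h - cc k L h0)⁻¹ := by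
    right
    rw [w.ord_inv]
    omega
  have h1 : w.Reg (1 : L) := Or.inr (by rw [w.ord_one])
  have h2r : w.Reg (2 : L) := by
    have h3 : (2 : L) = 1 + 1 := by norm_num
    rw [h3]
    exact h1.add h1
  have ha : w.Reg (cc k L h0) := w.reg_const h0
  have hb : w.Reg (cc k L c0) := w.reg_const c0
  have hhd : w.Reg (h * (h - cc k L h0)⁻¹) := by
    have h3 : h * (h - cc k L h0)⁻¹ = 1 + cc k L h0 * (h - cc k L h0)⁻¹ := by
      field_simp
      ring
    rw [h3]
    exact h1.add (ha.mul hu)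
  have hcd : w.Reg (c * ((h - cc k L h0)⁻¹) ^ 2) := by
    apply K8_reg_of_sq
    have h3 : (c * ((h - cc k L h0)⁻¹) ^ 2) ^ 2 =
        (h * (h - cc k L h0)⁻¹) ^ 3 * (h - cc k L h0)⁻¹ + ((h - cc k L h0)⁻¹) ^ 4 := by
      rw [mul_pow, heq]
      ring
    rw [h3]
    exact ((hhd.pow 3).mul hu).add (hu.pow 4)
  have h4 : hp = cc k L h0 * (h * (h - cc k L h0)⁻¹) ^ 2 +
      cc k L h0 ^ 2 * ((h * (h - cc k L h0)⁻¹) * (h - cc k L h0)⁻¹) +
      2 * cc k L c0 * (c * ((h - cc k L h0)⁻¹) ^ 2) + 2 * ((h - cc k L h0)⁻¹) ^ 2 := by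
    have h5 : hp = (hp * (h - cc k L h0) ^ 2) * ((h - cc k L h0)⁻¹) ^ 2 := by
      rw [mul_assoc, ← mul_pow, mul_inv_cancel₀ hd, one_pow, mul_one]
    rw [h5, hnum]
    ring
  rw [h4]
  exact (((ha.mul (hhd.pow 2)).add ((ha.pow 2).mul (hhd.mul hu))).add
    ((h2r.mul hb).mul hcd)).add (h2r.mul (hu.pow 2))

private theorem K8_not_reg {w : Place k L} {f : L} (h : w.ord f < 0) : ¬ w.Reg f := by
  rintro (h1 | h1)
  · rw [h1, w.ord_zero] at h
    exact lt_irrefl _ h
  · omega

private theorem K8_nc [IsAlgClosed k] [CharZero k] {h c hp : L} {h0 c0 : k} (hn : NC k h)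
    (heq : c ^ 2 = h ^ 3 + 1) (h0n : h0 ≠ 0) (hQ : c0 ^ 2 = h0 ^ 3 + 1)
    (hnum : hp * (h - cc k L h0) ^ 2 =
      cc k L h0 * h ^ 2 + cc k L h0 ^ 2 * h + 2 * cc k L c0 * c + 2) : NC k hp := by
  rintro ⟨δ, hδ⟩
  by_cases hc0 : c0 = 0
  · subst hc0
    have ha3 : cc k L h0 ^ 3 = -1 := by
      have h1 : h0 ^ 3 = -1 := by linear_combination -hQ
      have h2 := congrArg (algebraMap k L) h1
      rw [map_pow, map_neg, map_one] at h2
      exact h2
    have h1 : (cc k L δ * (h - cc k L h0) - cc k L h0 * (h + 2 * cc k L h0)) *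
        (h - cc k L h0) = 0 := by
      have h2 : cc k L (0 : k) = 0 := map_zero _
      rw [← hδ, h2] at hnum
      linear_combination hnum + 2 * ha3
    have h2 : cc k L δ * (h - cc k L h0) - cc k L h0 * (h + 2 * cc k L h0) = 0 := by
      rcases mul_eq_zero.1 h1 with h3 | h3
      · exact h3
      · exact absurd h3 (hn.sub_ne h0)
    have h3 : cc k L (δ - h0) * h = cc k L (2 * h0 ^ 2 + δ * h0) := by
      show algebraMap k L (δ - h0) * h = algebraMap k L (2 * h0 ^ 2 + δ * h0)
      rw [map_sub, map_add, map_mul, map_mul, map_pow, map_ofNat]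
      linear_combination h2
    by_cases hδ0 : δ - h0 = 0
    · rw [hδ0] at h3
      have h4 : cc k L (2 * h0 ^ 2 + δ * h0) = 0 := by
        rw [← h3]
        show algebraMap k L 0 * h = 0
        rw [map_zero, zero_mul]
      have h5 : 2 * h0 ^ 2 + δ * h0 = 0 := (map_eq_zero (algebraMap k L)).1 h4
      have h6 : 3 * h0 ^ 2 = 0 := by
        have h7 : δ = h0 := sub_eq_zero.1 hδ0
        rw [h7] at h5
        linear_combination h5
      have h7 : (3 : k) ≠ 0 := by norm_num
      exact (mul_ne_zero h7 (pow_ne_zero 2 h0n)) h6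
    · apply hn
      refine ⟨(2 * h0 ^ 2 + δ * h0) / (δ - h0), ?_⟩
      have h4 : algebraMap k L (δ - h0) ≠ 0 := by
        intro h5
        exact hδ0 ((map_eq_zero (algebraMap k L)).1 h5)
      rw [map_div₀, div_eq_iff h4]
      have h5 : algebraMap k L (2 * h0 ^ 2 + δ * h0) = algebraMap k L (δ - h0) * h := h3.symm
      rw [h5]
      ring
  · let G : Polynomial k := Polynomial.C δ * (Polynomial.X - Polynomial.C h0) ^ 2 -
      Polynomial.C h0 * Polynomial.X ^ 2 - Polynomial.C (h0 ^ 2) * Polynomial.X - 2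
    let P : Polynomial k := G ^ 2 - Polynomial.C (4 * c0 ^ 2) * (Polynomial.X ^ 3 + Polynomial.C 1)
    have hG : Polynomial.aeval h G = 2 * cc k L c0 * c := by
      have h1 : Polynomial.aeval h G = cc k L δ * (h - cc k L h0) ^ 2 - cc k L h0 * h ^ 2 -
          cc k L h0 ^ 2 * h - 2 := by
        simp only [G, map_sub, map_mul, map_pow, Polynomial.aeval_C, Polynomial.aeval_X,
          map_ofNat]
      rw [h1]
      rw [← hδ] at hnum
      linear_combination hnum
    apply hn
    refine mem_of_root P ?_ ?_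
    · intro hP
      have h1 : G ^ 2 = Polynomial.C (4 * c0 ^ 2) * (Polynomial.X ^ 3 + Polynomial.C 1) :=
        sub_eq_zero.1 hP
      have h2 := congrArg Polynomial.natDegree h1
      have h4 : (4 * c0 ^ 2 : k) ≠ 0 := mul_ne_zero (by norm_num) (pow_ne_zero 2 hc0)
      rw [Polynomial.natDegree_pow, Polynomial.natDegree_C_mul h4,
        Polynomial.natDegree_X_pow_add_C] at h2
      omega
    · simp only [P, map_sub, map_mul, map_pow, hG, map_add, Polynomial.aeval_C,
        Polynomial.aeval_X, map_one, map_ofNat]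
      linear_combination 4 * algebraMap k L c0 ^ 2 * heq

theorem k8 [IsAlgClosed k] [CharZero k] {h c : L} {m : ℕ} {c0 h0 : k} (hn : NC k h) (heq : c ^ 2 = h ^ 3 + 1)
    (h0n : h0 ≠ 0) (hQ : c0 ^ 2 = h0 ^ 3 + 1) (hr : Ram c (some c0) m) :
    ∃ (h' c' : L), DEm h' c' (0 : k) 1 m := by
  have hb2 : cc k L c0 ^ 2 = cc k L h0 ^ 3 + 1 := by
    have h1 := congrArg (algebraMap k L) hQ
    rw [map_pow, map_add, map_pow, map_one] at h1
    exact h1
  have hd : h - cc k L h0 ≠ 0 := hn.sub_ne h0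
  obtain ⟨mu, hmu⟩ : ∃ mu : L, mu * (h - cc k L h0) = c + cc k L c0 :=
    ⟨(c + cc k L c0) / (h - cc k L h0), div_mul_cancel₀ _ hd⟩
  have hE := K8_eq heq hb2 hd hmu
  have hnum := K8_num heq hb2 hmu
  obtain ⟨hp, hhp⟩ : ∃ hp : L, hp = mu ^ 2 - h - cc k L h0 := ⟨_, rfl⟩
  rw [← hhp] at hE hnum
  refine ⟨hp, -(mu * (hp - h) + c), K8_nc hn heq h0n hQ hnum, ?_, ?_, ?_⟩
  · rw [hE]
    show hp ^ 3 + 1 = hp ^ 3 + algebraMap k L 0 * hp + algebraMap k L 1
    rw [map_zero, map_one, zero_mul, add_zero]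
  · norm_num
  · intro w hw
    have hnr := K8_not_reg hw
    have hp0 : hp ≠ 0 := fun h1 => hnr (Or.inl h1)
    have hdw : 0 < w.ord (h - cc k L h0) := by
      by_contra h1
      exact hnr (K8_regular heq hd hnum h1)
    have hzd : w.Zer (h - algebraMap k L h0) := Or.inr hdw
    have hhr : w.Reg h := Place.reg_of_val hzd
    have hcr : w.Reg c := K8_c heq hhr
    -- the factor `q`
    have hq : (c - cc k L c0) * (c + cc k L c0) =
        (h - cc k L h0) * (h ^ 2 + h * cc k L h0 + cc k L h0 ^ 2) := by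
      linear_combination heq - hb2
    have hqv : w.Zer ((h ^ 2 + h * cc k L h0 + cc k L h0 ^ 2) - algebraMap k L (3 * h0 ^ 2)) := by
      have h1 := Place.val_add (Place.val_add (Place.val_pow hzd 2)
        (Place.val_mul hzd (Place.val_const (v := w) h0)))
        (Place.val_pow (Place.val_const (v := w) h0) 2)
      have h2 : h0 ^ 2 + h0 * h0 + h0 ^ 2 = 3 * h0 ^ 2 := by ring
      rw [h2] at h1
      exact h1
    have h3n : (3 * h0 ^ 2 : k) ≠ 0 := mul_ne_zero (by norm_num) (pow_ne_zero 2 h0n)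
    have hq0 : w.ord (h ^ 2 + h * cc k L h0 + cc k L h0 ^ 2) = 0 :=
      Place.ord_eq_zero_of_val hqv h3n
    have hqn : h ^ 2 + h * cc k L h0 + cc k L h0 ^ 2 ≠ 0 := Place.ne_zero_of_val hqv h3n
    have hne : (c - cc k L c0) * (c + cc k L c0) ≠ 0 := by
      rw [hq]
      exact mul_ne_zero hd hqn
    have hcm : c - cc k L c0 ≠ 0 := left_ne_zero_of_mul hne
    have hcp : c + cc k L c0 ≠ 0 := right_ne_zero_of_mul hne
    have hord : w.ord (c - cc k L c0) + w.ord (c + cc k L c0) = w.ord (h - cc k L h0) := by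
      rw [← w.ord_mul _ _ hcm hcp, hq, w.ord_mul _ _ hd hqn, hq0, add_zero]
    by_cases hc0 : c0 = 0
    · subst hc0
      have h1 : cc k L (0 : k) = 0 := map_zero _
      rw [h1, sub_zero, add_zero] at hord
      have hcw : 0 < w.ord c := by omega
      have h2 : (m : ℤ) ∣ w.ord c := by
        have h3 := hr w
        have h4 : lp c (some (0 : k)) = c := by
          show c - algebraMap k L 0 = c
          rw [map_zero, sub_zero]
        rw [h4] at h3
        exact h3 hcw
      have ha3 : cc k L h0 ^ 3 = -1 := by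
        rw [h1] at hb2
        linear_combination -hb2
      have h5 : hp * (h - cc k L h0) = cc k L h0 * (h + 2 * cc k L h0) := by
        apply mul_right_cancel₀ hd
        rw [h1] at hnum
        linear_combination hnum + 2 * ha3
      have h6 : w.Zer ((h + 2 * cc k L h0) - algebraMap k L (3 * h0)) := by
        have h7 := Place.val_add hzd (Place.val_mul (Place.val_const (v := w) 2)
          (Place.val_const (v := w) h0))
        have h8 : h0 + 2 * h0 = 3 * h0 := by ring
        rw [h8, map_ofNat] at h7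
        exact h7
      have h7 : (3 * h0 : k) ≠ 0 := mul_ne_zero (by norm_num) h0n
      have h8 : w.ord (h + 2 * cc k L h0) = 0 := Place.ord_eq_zero_of_val h6 h7
      have h9 : h + 2 * cc k L h0 ≠ 0 := Place.ne_zero_of_val h6 h7
      have h10 : cc k L h0 ≠ 0 := by
        intro h11
        exact h0n ((map_eq_zero (algebraMap k L)).1 h11)
      have h11 := congrArg w.ord h5
      rw [w.ord_mul _ _ hp0 hd, w.ord_mul _ _ h10 h9, w.ord_const h0 h0n, h8] at h11
      obtain ⟨r, hr'⟩ := h2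
      refine ⟨-r, ?_⟩
      have h12 : w.ord hp = -(2 * w.ord c) := by omega
      rw [h12, hr']
      ring
    · have h2c : (2 * c0 : k) ≠ 0 := mul_ne_zero (by norm_num) hc0
      by_cases hz : w.Zer (c - cc k L c0)
      · have hv : w.Zer ((c + cc k L c0) - algebraMap k L (2 * c0)) := by
          have h1 := Place.val_add (v := w) (f := c) (c := c0) hz (Place.val_const (v := w) c0)
          have h2 : c0 + c0 = 2 * c0 := by ring
          rw [h2] at h1
          exact h1
        have h1 : w.ord (c + cc k L c0) = 0 := Place.ord_eq_zero_of_val hv h2c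
        have h2 : w.ord (c - cc k L c0) = w.ord (h - cc k L h0) := by omega
        have h3 : (m : ℤ) ∣ w.ord (c - cc k L c0) := hr w (by
          show 0 < w.ord (c - cc k L c0)
          omega)
        have h4 : w.Zer ((cc k L h0 * h ^ 2 + cc k L h0 ^ 2 * h + 2 * cc k L c0 * c + 2) -
            algebraMap k L (4 * c0 ^ 2)) := by
          have h5 := Place.val_add (Place.val_add (Place.val_add
            (Place.val_mul (Place.val_const (v := w) h0) (Place.val_pow hzd 2))
            (Place.val_mul (Place.val_pow (Place.val_const (v := w) h0) 2) hzd))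
            (Place.val_mul (Place.val_mul (Place.val_const (v := w) 2)
              (Place.val_const (v := w) c0)) (f := _) (g := c) (d := c0) hz))
            (Place.val_const (v := w) 2)
          have h6 : h0 * h0 ^ 2 + h0 ^ 2 * h0 + 2 * c0 * c0 + 2 = 4 * c0 ^ 2 := by
            linear_combination -2 * hQ
          rw [h6, map_ofNat] at h5
          exact h5
        have h5 : (4 * c0 ^ 2 : k) ≠ 0 := mul_ne_zero (by norm_num) (pow_ne_zero 2 hc0)
        have h6 := Place.ord_eq_zero_of_val h4 h5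
        rw [← hnum, w.ord_mul _ _ hp0 (pow_ne_zero 2 hd), w.ord_pow] at h6
        obtain ⟨r, hr'⟩ := h3
        refine ⟨-r, ?_⟩
        have h7 : w.ord hp = -(2 * w.ord (c - cc k L c0)) := by
          push_cast at h6
          omega
        rw [h7, hr']
        ring
      · exfalso
        have h1 : w.Reg (c - cc k L c0) := hcr.sub (w.reg_const c0)
        have h2 : w.ord (c - cc k L c0) = 0 := Place.ord_eq_zero_of_reg h1 hz
        have h3 : mu = (h ^ 2 + h * cc k L h0 + cc k L h0 ^ 2) * (c - cc k L c0)⁻¹ := by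
          rw [eq_mul_inv_iff_mul_eq₀ hcm]
          apply mul_right_cancel₀ hd
          linear_combination (c - cc k L c0) * hmu + hq
        have h4 : w.Reg (c - cc k L c0)⁻¹ := by
          right
          rw [w.ord_inv, h2, neg_zero]
        have h5 : w.Reg mu := by
          rw [h3]
          exact (Place.reg_of_val hqv).mul h4
        apply hnr
        rw [hhp]
        exact ((h5.pow 2).sub hhr).sub (w.reg_const h0)

end Pool.Agent.LibVT36
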