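import Pool.Agent.LibVT36.K6
import Pool.Agent.LibVT36.K8

/-!
[VT36 K9] (SHORT/MEDIUM) Signature `(3, 3, 3, m)`. Points `p, q, r, u` with indices `3, 3, 3, m`. `mob3` moves `q, p, r` to `∞, 0, 1`; then `c = 2 t' - 1` has them at `∞, - 1, 1` (`c - 1 = 2 (t' - 1)`, `c + 1 = 2 t'`; write the scaling and translation of `Ram` directly) and `u` at `some c0`, `c0 ≠ 1, - 1`.
`f = (c - 1)(c + 1)`: `3 ∣ w.ord f` for all `w`. `Reach.step`: `h^3 = φ f`, `c^2 = h^3 + 1`; `NC h`; `Ram (φ c) (some c0) m` (restriction of places); `h0^3 = c0^2 - 1 ≠ 0` (`IsAlgClosed`); `k8`, `z_DEm`.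
-/

namespace Pool.Agent.LibVT36

open Pool.Agent.LibBH2
open Pool.Agent.LibCHd (FunF)

variable {k : Type} [Field k]

private theorem K9_pole {L : Type} [Field L] [Algebra k L] {w : Place k L} {f : L} (h : w.ord f < 0) :
    w.ord (f - 1) = w.ord f := by
  have hf : f ≠ 0 := by
    rintro rfl
    rw [w.ord_zero] at h
    exact lt_irrefl _ h
  rw [sub_eq_add_neg]
  refine (w.ord_add_of_lt hf (neg_ne_zero.2 one_ne_zero) ?_).2
  rw [w.ord_neg, w.ord_one]
  exact h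

/-- the three divisible points: `3` divides all orders of `t (t - 1)` -/
private theorem K9_div {L : Type} [Field L] [Algebra k L] {t : L} (ht : NC k t)
    (h0 : Ram t (some (0 : k)) 3) (h1 : Ram t (none : Option k) 3) (h2 : Ram t (some (1 : k)) 3)
    (w : Place k L) : (3 : ℤ) ∣ w.ord (t * (t - 1)) := by
  have hne0 : t ≠ 0 := ht.ne_zero
  have hne1 : t - 1 ≠ 0 := by
    have := ht.sub_ne 1
    simpa [cc] using this
  rw [w.ord_mul _ _ hne0 hne1]
  have e0 : lp t (some (0 : k)) = t := by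
    simp [lp, cc]
  have e1 : lp t (some (1 : k)) = t - 1 := by
    simp [lp, cc]
  have e2 : lp t (none : Option k) = t⁻¹ := rfl
  rcases lt_trichotomy (w.ord t) 0 with h | h | h
  · rw [K9_pole h]
    have h3 := h1 w
    rw [e2, w.ord_inv] at h3
    have h4 : ((3 : ℕ) : ℤ) ∣ -w.ord t := h3 (by linarith)
    have h5 : (3 : ℤ) ∣ w.ord t := by
      have h6 := (dvd_neg).1 h4
      exact_mod_cast h6
    exact dvd_add h5 h5
  · have hr : w.Reg (t - 1) := by
      refine Place.Reg.sub (Or.inr h.ge) (Or.inr ?_)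
      rw [w.ord_one]
    rw [h, zero_add]
    rcases hr with hr | hr
    · exact absurd hr hne1
    · rcases hr.lt_or_eq with h3 | h3
      · have h4 := h2 w
        rw [e1] at h4
        exact_mod_cast h4 h3
      · rw [← h3]
        exact dvd_zero _
  · have h3 := h0 w
    rw [e0] at h3
    have h4 : (3 : ℤ) ∣ w.ord t := by exact_mod_cast h3 h
    have h5 : w.ord (t - 1) = 0 := by
      have h6 : w.Zer ((t - 1) - algebraMap k L (-1)) := by
        rw [map_neg, map_one, sub_neg_eq_add, sub_add_cancel]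
        exact Or.inr h
      exact Place.ord_eq_zero_of_val h6 (neg_ne_zero.2 one_ne_zero)
    rw [h5, add_zero]
    exact h4

theorem vv_333m [IsAlgClosed k] [CharZero k] {m : ℕ} (hm : 2 ≤ m) : VV k [3, 3, 3, m] := by
  intro L _ _ hL hs
  obtain ⟨t, P, hn, hnd, hf⟩ := hs
  obtain ⟨p, P1, hp, hf1, rfl⟩ := List.forall₂_cons_right_iff.1 hf
  obtain ⟨q, P2, hq, hf2, rfl⟩ := List.forall₂_cons_right_iff.1 hf1
  obtain ⟨r, P3, hr, hf3, rfl⟩ := List.forall₂_cons_right_iff.1 hf2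
  obtain ⟨u, P4, hu, hf4, rfl⟩ := List.forall₂_cons_right_iff.1 hf3
  simp only [List.nodup_cons, List.mem_cons, not_or] at hnd
  obtain ⟨⟨hpq, hpr, hpu, -⟩, ⟨hqr, hqu, -⟩, ⟨hru, -⟩, -⟩ := hnd
  obtain ⟨t', μ, hn', hμ, m0, m1, m2, hR⟩ := mob3 hn hpq hpr hqr
  have r0 : Ram t' (some (0 : k)) 3 := m0 ▸ hR p 3 hp
  have r1 : Ram t' (none : Option k) 3 := m1 ▸ hR q 3 hq
  have r2 : Ram t' (some (1 : k)) 3 := m2 ▸ hR r 3 hr
  have r3 := hR u m hu
  obtain ⟨u0, hu0⟩ : ∃ u0 : k, μ u = some u0 := by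
    rcases h : μ u with _ | u0
    · exact absurd (hμ (m1.trans h.symm)) hqu
    · exact ⟨u0, rfl⟩
  rw [hu0] at r3
  have hu1 : u0 ≠ 0 := by
    rintro rfl
    exact hpu (hμ (m0.trans hu0.symm))
  have hu2 : u0 ≠ 1 := by
    rintro rfl
    exact hru (hμ (m2.trans hu0.symm))
  have two0 : (2 : k) ≠ 0 := two_ne_zero
  have two1 : (2 : L) ≠ 0 := by
    intro h
    apply two0
    apply (algebraMap k L).injective
    rw [map_ofNat, map_zero]
    exact h
  have ord2 : ∀ w : Place k L, w.ord (2 : L) = 0 := by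
    intro w
    have h := w.ord_const 2 two0
    rwa [map_ofNat] at h
  obtain ⟨c, hc⟩ : ∃ c : L, c = 2 * t' - 1 := ⟨_, rfl⟩
  have hcn : NC k c := by
    rintro ⟨a, ha⟩
    apply hn'
    refine ⟨(a + 1) / 2, ?_⟩
    rw [map_div₀, map_add, map_one, map_ofNat, ha, hc, sub_add_cancel, mul_div_cancel_left₀ _ two1]
  have hfe : c ^ 2 - 1 = 2 * (2 * (t' * (t' - 1))) := by
    rw [hc]; ring
  have hne0 : t' ≠ 0 := hn'.ne_zero
  have hne1 : t' - 1 ≠ 0 := by
    have := hn'.sub_ne 1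
    simpa [cc] using this
  have hf0 : c ^ 2 - 1 ≠ 0 := by
    rw [hfe]
    exact mul_ne_zero two1 (mul_ne_zero two1 (mul_ne_zero hne0 hne1))
  have hd : ∀ w : Place k L, ((3 : ℕ) : ℤ) ∣ w.ord (c ^ 2 - 1) := by
    intro w
    rw [hfe, w.ord_mul _ _ two1 (mul_ne_zero two1 (mul_ne_zero hne0 hne1)), ord2 w, zero_add,
      w.ord_mul _ _ two1 (mul_ne_zero hne0 hne1), ord2 w, zero_add]
    exact_mod_cast K9_div hn' r0 r1 r2 w
  refine Reach.step hL hf0 (n := 3) (by norm_num) hd ?_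
  intro L' _ _ φ h hφ hL' hh
  have heq : (φ c) ^ 2 = h ^ 3 + 1 := by
    rw [hh, map_sub, map_pow, map_one, sub_add_cancel]
  have hcn' : NC k (φ c) := hcn.map φ
  have hhn : NC k h := by
    rintro ⟨a, ha⟩
    apply hcn'
    refine mem_of_root (Polynomial.X ^ 2 - Polynomial.C (a ^ 3 + 1) : Polynomial k) ?_ ?_
    · exact (Polynomial.monic_X_pow_sub_C _ two_ne_zero).ne_zero
    · rw [map_sub, map_pow, Polynomial.aeval_X, Polynomial.aeval_C, map_add, map_pow, map_one, ha, heq, sub_self]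
  obtain ⟨c0, hc0⟩ : ∃ c0 : k, c0 = 2 * u0 - 1 := ⟨_, rfl⟩
  have hram : Ram (φ c) (some c0) m := by
    intro w hw
    obtain ⟨v, hv⟩ := hφ.restr w
    have e1 : lp (φ c) (some c0) = φ (c - cc k L c0) := by
      simp [lp, cc, map_sub]
    have e2 : c - cc k L c0 = 2 * (t' - cc k L u0) := by
      rw [hc, hc0]
      simp only [cc, map_sub, map_mul, map_ofNat, map_one]
      ring
    have e3 : v.ord (c - cc k L c0) = v.ord (lp t' (some u0)) := by
      rw [e2, v.ord_mul _ _ two1 (hn'.sub_ne u0), ord2 v, zero_add]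
      rfl
    rw [e1, ← hv, e3] at hw ⊢
    exact r3 v hw
  have hc1 : c0 ^ 2 - 1 ≠ 0 := by
    rw [hc0]
    have h4 : (2 * u0 - 1) ^ 2 - 1 = 2 * (2 * (u0 * (u0 - 1))) := by ring
    rw [h4]
    exact mul_ne_zero two0 (mul_ne_zero two0 (mul_ne_zero hu1 (sub_ne_zero.2 hu2)))
  obtain ⟨h0, hh0⟩ := IsAlgClosed.exists_pow_nat_eq (c0 ^ 2 - 1) (n := 3) (by norm_num)
  have h0n : h0 ≠ 0 := by
    rintro rfl
    apply hc1
    rw [← hh0]
    norm_num
  have hQ : c0 ^ 2 = h0 ^ 3 + 1 := by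
    rw [hh0, sub_add_cancel]
  obtain ⟨h', c', hE⟩ := k8 hhn heq h0n hQ hram
  exact z_DEm hL' hm hE

end Pool.Agent.LibVT36
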