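import Pool.Agent.LibVT36.K6
import Pool.Agent.LibVT36.K7
import Pool.Agent.LibVT36.K9

/-!
[VT36 K10] (SHORT/MEDIUM) Derived signatures. Cites `VV.cyc`, `VV.subperm`, `VV.dvd`, `vv_2222m`, `vv_nnn`, `vv_333m`. Entries `1` may be dropped (`VV.subperm`).
`vv_2222'` `[2, 2 m, 2, 2]` (`m ≥ 2`): cyclic with `d = 2` (`a = 1`, `b = m`): `[1, m, 2, 2, 2, 2]`. `vv4 e` `[e, e, e, e]`: `e = 3`: `vv_333m`; `e = 4`: `VV.dvd` from `[2, 4, 2, 2]`; `e ≥ 5`: `vv_nnn`. `vv3 c` `[c, c, c]` (`c ≥ 4`): `c ≥ 5`: `vv_nnn`; `c = 4`: cyclic `d = 4`: `[1, 1, 4, 4, 4, 4]`.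
`vvq` `[c, c, e, e]`: if `e ≥ 3`: cyclic `d = c`: `[1, 1] ++ 2 c` times `e`, contains `[e, e, e, e]`; if `e = 2` then `c ≥ 3`, permute.
-/

namespace Pool.Agent.LibVT36

open Pool.Agent.LibBH2
open Pool.Agent.LibCHd (FunF)

variable {k : Type} [Field k]
variable [IsAlgClosed k] [CharZero k]

theorem vv_222' {m : ℕ} (hm : 2 ≤ m) : VV k [2, 2 * m, 2, 2] := by
  have h0 : VV k (1 :: m :: (List.replicate 2 [2, 2]).flatten) := by
    refine VV.subperm (vv_2222m hm) ?_
    have h1 : (List.replicate 2 [2, 2]).flatten = [2, 2, 2, 2] := rfl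
    rw [h1]
    have h2 : [2, 2, 2, 2, m].Perm [m, 2, 2, 2, 2] :=
      List.perm_append_comm (l₁ := [2, 2, 2, 2]) (l₂ := [m])
    exact h2.subperm.trans (List.Sublist.cons 1 (List.Sublist.refl _)).subperm
  exact VV.cyc (d := 2) (a := 1) (b := m) (l := [2, 2]) (by norm_num) h0

theorem vv4 {e : ℕ} (he : 3 ≤ e) : VV k [e, e, e, e] := by
  rcases Nat.lt_or_ge 4 e with h | h
  · exact VV.sub (vv_nnn h) (List.Sublist.cons e (List.Sublist.refl _))
  · have h3 : e = 3 ∨ e = 4 := by omega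
    rcases h3 with rfl | rfl
    · exact vv_333m (by norm_num)
    · refine VV.dvd (vv_222' (m := 2) le_rfl) ?_
      exact List.Forall₂.cons (by norm_num) (List.Forall₂.cons (by norm_num)
        (List.Forall₂.cons (by norm_num) (List.Forall₂.cons (by norm_num) List.Forall₂.nil)))

theorem vv3 {c : ℕ} (hc : 4 ≤ c) : VV k [c, c, c] := by
  rcases Nat.lt_or_ge 4 c with h | h
  · exact vv_nnn h
  · obtain rfl : c = 4 := by omega
    have h0 : VV k (1 :: 1 :: (List.replicate 4 [4]).flatten) := by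
      refine VV.sub (vv4 (e := 4) (by norm_num)) ?_
      exact List.Sublist.cons 1 (List.Sublist.cons 1 (List.Sublist.refl _))
    exact VV.cyc (d := 4) (a := 1) (b := 1) (l := [4]) (by norm_num) h0

private theorem K10_vvq {c e : ℕ} (hc : 2 ≤ c) (he : 3 ≤ e) : VV k [c, c, e, e] := by
  have h0 : VV k (1 :: 1 :: (List.replicate c [e, e]).flatten) := by
    refine VV.sub (vv4 he) ?_
    refine List.Sublist.cons 1 (List.Sublist.cons 1 ?_)
    obtain ⟨n, rfl⟩ : ∃ n, c = n + 2 := ⟨c - 2, by omega⟩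
    rw [List.replicate_succ, List.replicate_succ, List.flatten_cons, List.flatten_cons]
    exact List.Sublist.cons_cons e (List.Sublist.cons_cons e
      (List.Sublist.cons_cons e (List.Sublist.cons_cons e (List.nil_sublist _))))
  have h1 := VV.cyc (d := c) (a := 1) (b := 1) (l := [e, e]) (by omega) h0
  rw [mul_one] at h1
  exact h1

theorem vvq {c e : ℕ} (hc : 2 ≤ c) (he : 2 ≤ e) (h : ¬ (c = 2 ∧ e = 2)) : VV k [c, c, e, e] := by
  rcases Nat.lt_or_ge 2 e with h3 | h3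
  · exact K10_vvq hc h3
  · have h4 : 3 ≤ c := by omega
    exact VV.perm (K10_vvq he h4) (List.perm_append_comm (l₁ := [c, c]) (l₂ := [e, e]))

end Pool.Agent.LibVT36
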