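import Pool.Agent.LibVT36.K10

/-!
[VT36 K11] (MEDIUM) Triangles `[p a, p b, c]`, `p` prime, `1/(p a) + 1/(p b) + 1/c < 1`. `VV.cyc` with `d = p`: `[a, b] ++ p` times `c`. By symmetry (`VV.perm`) `a ≤ b`. Cases:
`c ≥ 4, p ≥ 3`: contains `[c, c, c]` (`vv3`). `c ≥ 4, p = 2`: `b ≥ 2` (else `1/2 + 1/2 ≥ 1`); `[a, b, c, c]`: permute, cyclic `d = c` on `[c, c, b, a]`: contains `c ≥ 4` times `b`: `b ≥ 3`: `vv4`; `b = 2`, `c ≥ 5`: `vv_2222m` with `m = 2`; `b = 2`, `c = 4`: `a ≥ 2` (else `1/2 + 1/4 + 1/4 = 1`), so `a = 2`: eight entries `2`.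
`c = 3, p = 2`: `[a, b, 3, 3]`, cyclic `d = 3` on `[3, 3, a, b]`: three times `a`, three times `b`. `1/(2a) + 1/(2b) < 2/3`: `b ≥ 4` (`vv3`), or `a, b` in `{2, 3}`: `(2, 2)`: six times 2; `(2, 3)`: `[3, 3, 3, 2]` (`vv_333m`); `(3, 3)`: `vv4`. `c = 3, p = 3`: `[a, b, 3, 3, 3]`, `b ≥ 2`: `vv_333m`. `c = 3, p ≥ 5`: `vv4` (`[3, 3, 3, 3]`).
`c = 2, p = 2`: `[a, b, 2, 2]`, `1/a + 1/b < 1`, so `a, b ≥ 2`, not both 2; cyclic `d = 2` on `[2, 2, a, b]`: `[a, b, a, b]`, `vvq`. `c = 2, p = 3`: `[a, b, 2, 2, 2]`; `1/a + 1/b < 3/2`; cyclic `d = 2` on `[2, 2, 2, a, b]`: `[1, 1, 2, a, b, 2, a, b]`, again cyclic on the two `2`: four times `a`, four times `b`: `b ≥ 3`: `vv4`;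
`b ≤ 2`: `a = b = 2` (else `1/a + 1/b ≥ 3/2`): eight times 2. `c = 2, p ≥ 5`: `vv_2222m`, `m = 2`.
`vv_tri` is stated with natural numbers: `1/(pa) + 1/(pb) + 1/c < 1` as an inequality of rationals; for the cases use the bounds on `a, b` (if `a, b, c, p` are bounded substitute and `norm_num`; for the exclusions: `a = b = 1`, etc.).
-/

namespace Pool.Agent.LibVT36

open Pool.Agent.LibBH2
open Pool.Agent.LibCHd (FunF)

variable {k : Type} [Field k]
private theorem K11_rep {m e : ℕ} {l : List ℕ} (h : VV k (List.replicate m e))
    (hl : m ≤ l.count e) : VV k l :=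
  VV.subperm h (List.replicate_sublist_iff.2 hl).subperm

private theorem K11_cnt {c e : ℕ} {l : List ℕ} (he : e ∈ l) :
    c ≤ (List.replicate c l).flatten.count e := by
  rw [List.count_flatten, List.map_replicate, List.sum_replicate, smul_eq_mul]
  exact Nat.le_mul_of_pos_right _ (List.count_pos_iff.2 he)

private theorem K11_base [IsAlgClosed k] [CharZero k] {p a b c : ℕ} (hp : 0 < p) (h : VV k (a :: b :: List.replicate p c)) :
    VV k [p * a, p * b, c] := by
  refine VV.cyc hp ?_
  rw [List.flatten_replicate_singleton]
  exact h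

private theorem K11_cc [IsAlgClosed k] [CharZero k] {a b c : ℕ} (hc : 0 < c)
    (h : VV k (1 :: 1 :: (List.replicate c [a, b]).flatten)) :
    VV k (a :: b :: List.replicate 2 c) := by
  have h1 : VV k [c * 1, c * 1, a, b] := VV.cyc hc h
  rw [mul_one] at h1
  exact h1.perm (List.perm_append_comm (l₁ := [a, b]) (l₂ := [c, c]))

private theorem K11_cnt2 {a b c e m : ℕ} (he : e = a ∨ e = b) (hm : m ≤ c) :
    m ≤ (1 :: 1 :: (List.replicate c [a, b]).flatten).count e := by
  have h1 : c ≤ (List.replicate c [a, b]).flatten.count e := K11_cnt (by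
    rcases he with he | he <;> simp [he])
  have h2 : (List.replicate c [a, b]).flatten.count e ≤
      (1 :: 1 :: (List.replicate c [a, b]).flatten).count e :=
    List.Sublist.count_le _ (by simp)
  omega

private theorem K11_aux [IsAlgClosed k] [CharZero k] {p a b c : ℕ} (hp : p.Prime) (ha : 1 ≤ a)
    (hc : 2 ≤ c) (hab : a ≤ b)
    (h : (1 : ℚ) / (p * a) + 1 / (p * b) + 1 / c < 1) : VV k [p * a, p * b, c] := by
  have hc0 : (0 : ℚ) < 1 / c := by positivity
  have hp2 := hp.two_le
  refine K11_base hp.pos ?_
  by_cases hc4 : 4 ≤ c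
  · by_cases hp3 : 3 ≤ p
    · refine K11_rep (m := 3) (e := c) (vv3 hc4) ?_
      simp only [List.count_cons, List.count_replicate, beq_self_eq_true, if_true]
      omega
    · obtain rfl : p = 2 := by omega
      have hb2 : 2 ≤ b := by
        by_contra hb2
        obtain rfl : b = 1 := by omega
        obtain rfl : a = 1 := by omega
        norm_num at h
        have : (0 : ℚ) < (c : ℚ)⁻¹ := by positivity
        linarith
      refine K11_cc (by omega) ?_
      by_cases hb3 : 3 ≤ b
      · exact K11_rep (m := 4) (e := b) (vv4 hb3) (K11_cnt2 (Or.inr rfl) hc4)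
      · obtain rfl : b = 2 := by omega
        by_cases hc5 : 5 ≤ c
        · exact K11_rep (m := 5) (e := 2) vv22222 (K11_cnt2 (Or.inr rfl) hc5)
        · obtain rfl : c = 4 := by omega
          have ha2 : a = 2 := by
            by_contra ha2
            obtain rfl : a = 1 := by omega
            norm_num at h
          subst ha2
          exact K11_rep (m := 5) (e := 2) vv22222 (by decide)
  · by_cases hc3 : c = 3
    · subst hc3
      by_cases hp4 : 4 ≤ p
      · refine K11_rep (m := 4) (e := 3) (vv4 le_rfl) ?_
        simp only [List.count_cons, List.count_replicate, beq_self_eq_true, if_true]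
        omega
      · by_cases hp3 : p = 3
        · subst hp3
          have hb2 : 2 ≤ b := by
            by_contra hb2
            obtain rfl : b = 1 := by omega
            obtain rfl : a = 1 := by omega
            norm_num at h
          refine VV.subperm (vv_333m hb2) ?_
          have e1 : [3, 3, 3, b].Perm (b :: [3, 3, 3]) :=
            List.perm_append_comm (l₁ := [3, 3, 3]) (l₂ := [b])
          exact e1.subperm.trans (List.sublist_cons_self a (b :: [3, 3, 3])).subperm
        · obtain rfl : p = 2 := by omega
          refine K11_cc (by omega) ?_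
          by_cases hb4 : 4 ≤ b
          · exact K11_rep (m := 3) (e := b) (vv3 hb4) (K11_cnt2 (Or.inr rfl) le_rfl)
          · have hcase : (a = 2 ∧ b = 2) ∨ (a = 2 ∧ b = 3) ∨ (a = 3 ∧ b = 3) := by
              have hb3 : b = 1 ∨ b = 2 ∨ b = 3 := by omega
              have ha3 : a = 1 ∨ a = 2 ∨ a = 3 := by omega
              rcases hb3 with rfl | rfl | rfl <;> rcases ha3 with rfl | rfl | rfl <;>
                first
                | omega
                | (exfalso; norm_num at h)
            rcases hcase with ⟨rfl, rfl⟩ | ⟨rfl, rfl⟩ | ⟨rfl, rfl⟩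
            · exact K11_rep (m := 5) (e := 2) vv22222 (by decide)
            · exact VV.subperm (vv_333m (m := 2) le_rfl) (by decide)
            · exact K11_rep (m := 4) (e := 3) (vv4 le_rfl) (by decide)
    · obtain rfl : c = 2 := by omega
      by_cases hp5 : 5 ≤ p
      · refine K11_rep (m := 5) (e := 2) vv22222 ?_
        simp only [List.count_cons, List.count_replicate, beq_self_eq_true, if_true]
        omega
      · have hp4 : p ≠ 4 := by
          rintro rfl
          exact absurd hp (by decide)
        by_cases hp3 : p = 3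
        · subst hp3
          -- `[a, b, 2, 2, 2]`
          have h2 : VV k [1, 1, 1, 1, a, b, a, b, 1, 1, a, b, a, b] → VV k (a :: b :: List.replicate 3 2) := by
            intro h3
            have h4 : VV k [2 * 1, 2 * 1, 1, 1, a, b, a, b] := VV.cyc (by norm_num) h3
            have h5 : VV k [1, 1, 2, a, b, 2, a, b] := by
              refine h4.perm ?_
              show ([1, 1, 2] ++ [a, b] ++ [2] ++ [a, b]).Perm ([2, 2] ++ [1, 1] ++ [a, b] ++ [a, b])
              rw [← Multiset.coe_eq_coe]
              simp only [← Multiset.coe_add]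
              simp only [← Multiset.cons_coe, ← Multiset.singleton_add, Multiset.coe_nil, add_zero]
              abel
            have h6 : VV k [2 * 1, 2 * 1, 2, a, b] := VV.cyc (by norm_num) h5
            refine h6.perm ?_
            exact List.perm_append_comm (l₁ := [a, b]) (l₂ := [2, 2, 2])
          refine h2 ?_
          by_cases hb3 : 3 ≤ b
          · refine K11_rep (m := 4) (e := b) (vv4 hb3) ?_
            simp only [List.count_cons, List.count_nil, beq_self_eq_true, if_true]
            omega
          · have hcase : a = 2 ∧ b = 2 := by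
              have hb2 : b = 1 ∨ b = 2 := by omega
              have ha2 : a = 1 ∨ a = 2 := by omega
              rcases hb2 with rfl | rfl <;> rcases ha2 with rfl | rfl <;>
                first
                | omega
                | (exfalso; norm_num at h)
            obtain ⟨rfl, rfl⟩ := hcase
            exact K11_rep (m := 5) (e := 2) vv22222 (by decide)
        · obtain rfl : p = 2 := by omega
          refine K11_cc (by omega) ?_
          have hsum : (1 : ℚ) / a + 1 / b < 1 := by
            push_cast at h
            have e1 : (1 : ℚ) / (2 * a) = 1 / 2 * (1 / a) := by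
              rw [one_div_mul_one_div]
            have e2 : (1 : ℚ) / (2 * b) = 1 / 2 * (1 / b) := by
              rw [one_div_mul_one_div]
            rw [e1, e2] at h
            linarith
          have hb0 : 0 < b := by omega
          have hb1 : (0 : ℚ) < 1 / b := by positivity
          have ha2 : 2 ≤ a := by
            by_contra ha2
            obtain rfl : a = 1 := by omega
            norm_num at hsum
            have : (0 : ℚ) < (b : ℚ)⁻¹ := by positivity
            linarith
          have hne : ¬ (a = 2 ∧ b = 2) := by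
            rintro ⟨rfl, rfl⟩
            norm_num at hsum
          refine VV.subperm (vvq ha2 (ha2.trans hab) hne) ?_
          have e1 : ([a, a, b, b] : List ℕ).Perm ([a, b, a, b]) := by
            refine List.Perm.cons a ?_
            exact List.Perm.swap b a [b]
          exact e1.subperm.trans (List.Sublist.subperm (by simp [List.replicate]))

theorem vv_tri [IsAlgClosed k] [CharZero k] {p a b c : ℕ} (hp : p.Prime) (ha : 1 ≤ a) (hb : 1 ≤ b) (hc : 2 ≤ c)
    (h : (1 : ℚ) / (p * a) + 1 / (p * b) + 1 / c < 1) : VV k [p * a, p * b, c] := by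
  rcases le_total a b with hab | hab
  · exact K11_aux hp ha hc hab h
  · have h1 : VV k [p * b, p * a, c] := K11_aux hp hb hc hab (by linarith)
    exact h1.perm (List.Perm.swap _ _ _)

end Pool.Agent.LibVT36
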