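import Pool.Agent.LibVT36.A0
import Pool.Agent.LibVT36.Defs2

/-!
[VT36 K4] (MEDIUM) The rows B1, B2 with `m` instead of `2` over infinity: THE SAME PROOFS (see VT36_B1.lean, VT36_B2.lean in the store; `w.ord X = 2 * w.ord s`, so `2 m ∣ w.ord X`). If they are not there yet read their headers.
-/

namespace Pool.Agent.LibVT36

open Pool.Agent.LibBH2
open Pool.Agent.LibCHd (FunF)

variable {k : Type} [Field k]
variable {L L' : Type} [Field L] [Algebra k L] [Field L'] [Algebra k L']

private theorem K4_pole {s : L} {w : Place k L} (hs : w.ord s < 0) (c : k)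
    (hc : s - cc k L c ≠ 0) : w.ord (s - cc k L c) = w.ord s := by
  by_cases hc0 : c = 0
  · rw [hc0]
    show w.ord (s - algebraMap k L 0) = w.ord s
    rw [map_zero, sub_zero]
  have hs0 : s ≠ 0 := by
    rintro rfl
    rw [w.ord_zero] at hs
    exact absurd hs (lt_irrefl _)
  have hc1 : cc k L c ≠ 0 := by
    intro h
    exact hc0 ((map_eq_zero (algebraMap k L)).1 h)
  have h1 : w.ord (cc k L c) = 0 := w.ord_const c hc0
  have h2 := w.ord_add s (-cc k L c) hs0 (neg_ne_zero.2 hc1) (by rw [← sub_eq_add_neg]; exact hc)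
  rw [Place.ord_neg, h1, ← sub_eq_add_neg] at h2
  have h3 := w.ord_add (s - cc k L c) (cc k L c) hc hc1 (by rw [sub_add_cancel]; exact hs0)
  rw [sub_add_cancel, h1] at h3
  rw [min_def] at h2 h3
  split_ifs at h2 h3 <;> omega

private theorem K4_ord_add_const (w : Place k L) {f : L} (hf : w.ord f < 0) (a : k) :
    w.ord (f + cc k L a) = w.ord f := by
  by_cases ha : a = 0
  · subst ha; simp [cc]
  · have hf0 : f ≠ 0 := by rintro rfl; rw [w.ord_zero] at hf; exact lt_irrefl _ hf
    have ha0 : algebraMap k L a ≠ 0 := by simpa using ha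
    exact (Place.ord_add_of_lt hf0 ha0 (by rw [w.ord_const a ha]; exact hf)).2

private theorem K4_disc (e0 e1 e2 e3 : k) [CharZero k] (hs : e0 + e1 + e2 + e3 = 0)
    (p q r : k) (hp : p = e0 * e1 + e0 * e2 + e0 * e3 + e1 * e2 + e1 * e3 + e2 * e3)
    (hq : q = -(e0 * e1 * e2 + e0 * e1 * e3 + e0 * e2 * e3 + e1 * e2 * e3))
    (hr : r = e0 * e1 * e2 * e3) :
    4 * (-4 * r - p ^ 2 / 3) ^ 3 + 27 * (q ^ 2 - 4 * p * r + 4 / 3 * p * r + 2 / 27 * p ^ 3) ^ 2 =
      -((e0 - e1) * (e0 - e2) * (e0 - e3) * (e1 - e2) * (e1 - e3) * (e2 - e3)) ^ 2 := by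
  have h3 : e3 = -e0 - e1 - e2 := by linear_combination hs
  subst hp hq hr h3
  ring

theorem b1m {s : L} {e : Fin 4 → k} {m : ℕ} (h : DA1m s e m) :
    (∏ i, (s - cc k L (e i))) ≠ 0 ∧ ∀ w : Place k L, (2 : ℤ) ∣ w.ord (∏ i, (s - cc k L (e i))) := by
  have hne : ∀ i, s - cc k L (e i) ≠ 0 := fun i => h.nc.sub_ne (e i)
  refine ⟨Finset.prod_ne_zero_iff.2 fun i _ => hne i, fun w => ?_⟩
  rw [Fin.prod_univ_four, w.ord_mul _ _ (mul_ne_zero (mul_ne_zero (hne 0) (hne 1)) (hne 2)) (hne 3),
    w.ord_mul _ _ (mul_ne_zero (hne 0) (hne 1)) (hne 2), w.ord_mul _ _ (hne 0) (hne 1)]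
  by_cases hs : w.ord s < 0
  · rw [K4_pole hs _ (hne 0), K4_pole hs _ (hne 1), K4_pole hs _ (hne 2), K4_pole hs _ (hne 3)]
    omega
  · have hreg : w.Reg s := Or.inr (not_lt.1 hs)
    have key : ∀ i, (2 : ℤ) ∣ w.ord (s - cc k L (e i)) := by
      intro i
      have h1 : w.Reg (s - cc k L (e i)) := hreg.sub (w.reg_const (e i))
      rcases h1 with h1 | h1
      · exact absurd h1 (hne i)
      · rcases h1.eq_or_lt with h2 | h2
        · rw [← h2]
          exact dvd_zero _
        · exact h.ev w i h2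
    exact dvd_add (dvd_add (dvd_add (key 0) (key 1)) (key 2)) (key 3)

theorem b1m' {s : L} {e : Fin 4 → k} {m : ℕ} (h : DA1m s e m) {φ : L →ₐ[k] L'} (hφ : IsEt φ) {y : L'}
    (hy : y ^ 2 = φ (∏ i, (s - cc k L (e i)))) : DA2m (φ s) y e m := by
  refine ⟨h.nc.map φ, h.inj, h.sum, ?_, ?_⟩
  · rw [hy, map_prod]
    refine Finset.prod_congr rfl fun i _ => ?_
    rw [map_sub]
    show φ s - φ (algebraMap k L (e i)) = φ s - algebraMap k L' (e i)
    rw [φ.commutes]
  · intro w hw
    obtain ⟨v, hv⟩ := hφ.restr w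
    rw [← hv] at hw ⊢
    exact h.pole v hw

theorem b2m [IsAlgClosed k] [CharZero k] {s y : L} {e : Fin 4 → k} {m : ℕ} (h : DA2m s y e m) :
    ∃ (X Y : L) (A B : k), DEm X Y A B m := by
  have : CharZero L := charZero_of_injective_algebraMap (algebraMap k L).injective
  obtain ⟨hnc, hinj, hsum, heq, hpole⟩ := h
  rw [Fin.sum_univ_four] at hsum
  rw [Fin.prod_univ_four] at heq
  set e0 := e 0 with he0
  set e1 := e 1 with he1
  set e2 := e 2 with he2
  set e3 := e 3 with he3
  obtain ⟨p, hp⟩ : ∃ p, p = e0 * e1 + e0 * e2 + e0 * e3 + e1 * e2 + e1 * e3 + e2 * e3 := ⟨_, rfl⟩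
  obtain ⟨q, hq⟩ : ∃ q, q = -(e0 * e1 * e2 + e0 * e1 * e3 + e0 * e2 * e3 + e1 * e2 * e3) := ⟨_, rfl⟩
  obtain ⟨r, hr⟩ : ∃ r, r = e0 * e1 * e2 * e3 := ⟨_, rfl⟩
  have hdisc := K4_disc e0 e1 e2 e3 hsum p q r hp hq hr
  have hd0 : 4 * (-4 * r - p ^ 2 / 3) ^ 3 +
      27 * (q ^ 2 - 4 * p * r + 4 / 3 * p * r + 2 / 27 * p ^ 3) ^ 2 ≠ 0 := by
    rw [hdisc]
    have hne : ∀ i j : Fin 4, i ≠ j → e i - e j ≠ 0 := by
      intro i j hij h0
      exact hij (hinj (sub_eq_zero.1 h0))
    have h01 : e0 - e1 ≠ 0 := hne 0 1 (by decide)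
    have h02 : e0 - e2 ≠ 0 := hne 0 2 (by decide)
    have h03 : e0 - e3 ≠ 0 := hne 0 3 (by decide)
    have h12 : e1 - e2 ≠ 0 := hne 1 2 (by decide)
    have h13 : e1 - e3 ≠ 0 := hne 1 3 (by decide)
    have h23 : e2 - e3 ≠ 0 := hne 2 3 (by decide)
    exact neg_ne_zero.2 (pow_ne_zero _
      (mul_ne_zero (mul_ne_zero (mul_ne_zero (mul_ne_zero (mul_ne_zero h01 h02) h03) h12) h13) h23))
  -- images
  have hS : cc k L e0 + cc k L e1 + cc k L e2 + cc k L e3 = 0 := by
    have := congrArg (algebraMap k L) hsum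
    simpa [cc] using this
  have hP : cc k L p = cc k L e0 * cc k L e1 + cc k L e0 * cc k L e2 + cc k L e0 * cc k L e3 +
      cc k L e1 * cc k L e2 + cc k L e1 * cc k L e3 + cc k L e2 * cc k L e3 := by
    rw [hp]; simp [cc]
  have hQ : cc k L q = -(cc k L e0 * cc k L e1 * cc k L e2 + cc k L e0 * cc k L e1 * cc k L e3 +
      cc k L e0 * cc k L e2 * cc k L e3 + cc k L e1 * cc k L e2 * cc k L e3) := by
    rw [hq]; simp only [cc, map_neg, map_add, map_mul]
  have hR : cc k L r = cc k L e0 * cc k L e1 * cc k L e2 * cc k L e3 := by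
    rw [hr]; simp [cc]
  have hy : y ^ 2 = s ^ 4 + cc k L p * s ^ 2 + cc k L q * s + cc k L r := by
    rw [heq, hP, hQ, hR]
    linear_combination (-s ^ 3) * hS
  set P := cc k L p with hPd
  set Q := cc k L q with hQd
  set R := cc k L r with hRd
  have hX1 : cc k L (p / 3) = P / 3 := by simp only [cc, map_div₀, map_ofNat, hPd]
  have hAm : cc k L (-4 * r - p ^ 2 / 3) = -4 * R - P ^ 2 / 3 := by
    simp only [cc, map_sub, map_mul, map_neg, map_div₀, map_pow, map_ofNat, hPd, hRd]
  have hBm : cc k L (q ^ 2 - 4 * p * r + 4 / 3 * p * r + 2 / 27 * p ^ 3) =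
      Q ^ 2 - 4 * P * R + 4 / 3 * P * R + 2 / 27 * P ^ 3 := by
    simp only [cc, map_add, map_sub, map_mul, map_div₀, map_pow, map_ofNat, hPd, hRd, hQd]
  refine ⟨2 * (y + s ^ 2) + P / 3, 2 * (2 * (y + s ^ 2) + P) * s + Q, -4 * r - p ^ 2 / 3,
    q ^ 2 - 4 * p * r + 4 / 3 * p * r + 2 / 27 * p ^ 3, ?_, ?_, hd0, ?_⟩
  · -- NC
    rintro ⟨a, ha⟩
    set a' := a - p / 3 with ha'
    have h1 : 2 * (y + s ^ 2) = cc k L a' := by
      have : cc k L a' = cc k L a - P / 3 := by rw [ha', ← hX1]; simp only [cc, map_sub]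
      rw [this]; simp only [cc]; rw [ha]; ring
    have hrel : cc k L (a' + p) * s ^ 2 + Q * s + cc k L (r - a' ^ 2 / 4) = 0 := by
      have e1 : cc k L (a' + p) = cc k L a' + P := by simp only [cc, map_add, hPd]
      have e2 : cc k L (r - a' ^ 2 / 4) = R - cc k L a' ^ 2 / 4 := by
        simp only [cc, map_sub, map_div₀, map_pow, map_ofNat, hRd]
      rw [e1, e2]
      have hyv : y = cc k L a' / 2 - s ^ 2 := by rw [← h1]; ring
      rw [hyv] at hy
      linear_combination -hy
    by_cases hz : a' + p = 0 ∧ q = 0 ∧ r - a' ^ 2 / 4 = 0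
    · obtain ⟨z1, z2, z3⟩ := hz
      apply hd0
      have ea : a' = -p := by linear_combination z1
      have er : r = p ^ 2 / 4 := by rw [ea] at z3; linear_combination z3
      rw [z2, er]; ring
    · have hP0 : (Polynomial.C (a' + p) * Polynomial.X ^ 2 + Polynomial.C q * Polynomial.X +
          Polynomial.C (r - a' ^ 2 / 4) : Polynomial k) ≠ 0 := by
        intro h0
        apply hz
        refine ⟨?_, ?_, ?_⟩
        · have := congrArg (fun F => Polynomial.coeff F 2) h0
          simpa [Polynomial.coeff_C_mul, Polynomial.coeff_X, Polynomial.coeff_C, Polynomial.coeff_X_pow,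
            -map_add, -map_sub] using this
        · have := congrArg (fun F => Polynomial.coeff F 1) h0
          simpa [Polynomial.coeff_C_mul, Polynomial.coeff_X, Polynomial.coeff_C, Polynomial.coeff_X_pow,
            -map_add, -map_sub] using this
        · have := congrArg (fun F => Polynomial.coeff F 0) h0
          simpa [Polynomial.coeff_C_mul, Polynomial.coeff_X, Polynomial.coeff_C, Polynomial.coeff_X_pow,
            -map_add, -map_sub] using this
      apply hnc
      apply mem_of_root _ hP0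
      simp only [map_add, map_mul, Polynomial.aeval_C, map_pow, Polynomial.aeval_X]
      simpa [cc, hQd] using hrel
  · -- equation
    rw [hAm, hBm]
    linear_combination (-(4 * (2 * (y + s ^ 2)) + 4 * P)) * hy
  · -- orders
    intro w hw
    have hw1 : w.ord (2 * (y + s ^ 2)) = w.ord (2 * (y + s ^ 2) + P / 3) := by
      have := K4_ord_add_const w hw (-(p / 3))
      rw [← this]
      congr 1
      have : cc k L (-(p / 3)) = -(P / 3) := by rw [← hX1]; simp only [cc, map_neg]
      rw [this]; ring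
    rw [← hw1] at hw ⊢
    have hX0 : 2 * (y + s ^ 2) ≠ 0 := by
      intro h0; rw [h0, w.ord_zero] at hw; exact lt_irrefl _ hw
    have h2 : w.Reg (2 : L) := by
      have := w.reg_const (2 : k)
      rwa [map_ofNat] at this
    have hs : w.ord s < 0 := by
      by_contra hs
      push Not at hs
      have hsr : w.Reg s := Or.inr hs
      have hyr2 : w.Reg (y ^ 2) := by
        rw [hy]
        exact (((hsr.pow 4).add ((w.reg_const p).mul (hsr.pow 2))).add ((w.reg_const q).mul hsr)).add
          (w.reg_const r)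
      have hyr : w.Reg y := by
        by_cases hy0 : y = 0
        · exact Or.inl hy0
        · have := hyr2.resolve_left (pow_ne_zero _ hy0)
          rw [w.ord_pow] at this
          right; push_cast at this; omega
      have := (h2.mul (hyr.add (hsr.pow 2))).resolve_left hX0
      omega
    have hs0 : s ≠ 0 := by rintro rfl; rw [w.ord_zero] at hs; exact lt_irrefl _ hs
    obtain ⟨n, hn⟩ := hpole w hs
    have h4s : w.ord (4 * s ^ 2) = 2 * w.ord s := by
      have h4 : w.ord (4 : L) = 0 := by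
        have := w.ord_const (4 : k) (by norm_num)
        rwa [map_ofNat] at this
      rw [w.ord_mul _ _ (by norm_num) (pow_ne_zero _ hs0), h4, w.ord_pow]
      push_cast; ring
    have key : w.ord (2 * (y + s ^ 2)) = 2 * w.ord s := by
      by_cases hX2 : 2 * (s ^ 2 - y) = 0
      · rw [← h4s]
        congr 1
        linear_combination (-1 : L) * hX2
      · have hsum2 : 2 * (y + s ^ 2) + 2 * (s ^ 2 - y) = 4 * s ^ 2 := by ring
        have hprod : 2 * (y + s ^ 2) * (2 * (s ^ 2 - y)) / s ^ 2 =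
            -4 * (P + Q * s⁻¹ + R * (s⁻¹) ^ 2) := by
          field_simp
          linear_combination (-4 : L) * hy
        have hinv : w.Reg s⁻¹ := Or.inr (by rw [w.ord_inv]; omega)
        have hreg : w.Reg (2 * (y + s ^ 2) * (2 * (s ^ 2 - y)) / s ^ 2) := by
          rw [hprod]
          have h4' : w.Reg (-4 : L) := by
            have := w.reg_const (-4 : k)
            rwa [map_neg, map_ofNat] at this
          exact h4'.mul (((w.reg_const p).add ((w.reg_const q).mul hinv)).add
            ((w.reg_const r).mul (hinv.pow 2)))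
        have hne : 2 * (y + s ^ 2) * (2 * (s ^ 2 - y)) / s ^ 2 ≠ 0 :=
          div_ne_zero (mul_ne_zero hX0 hX2) (pow_ne_zero _ hs0)
        have hge := hreg.resolve_left hne
        rw [w.ord_div _ _ (mul_ne_zero hX0 hX2) (pow_ne_zero _ hs0), w.ord_mul _ _ hX0 hX2,
          w.ord_pow] at hge
        push_cast at hge
        rcases lt_trichotomy (w.ord (2 * (y + s ^ 2))) (w.ord (2 * (s ^ 2 - y))) with hlt | heq' | hgt
        · have := (Place.ord_add_of_lt hX0 hX2 hlt).2
          rw [hsum2, h4s] at this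
          exact this.symm
        · have h4ne : (4 : L) * s ^ 2 ≠ 0 := mul_ne_zero (by norm_num) (pow_ne_zero _ hs0)
          have := w.ord_add _ _ hX0 hX2 (by rw [hsum2]; exact h4ne)
          rw [hsum2, h4s, ← heq', min_self] at this
          omega
        · have := (Place.ord_add_of_lt hX2 hX0 hgt).2
          rw [add_comm, hsum2, h4s] at this
          omega
    rw [key, hn]
    exact ⟨n, by ring⟩

end Pool.Agent.LibVT36
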