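import Pool.Agent.LibVT36.A0
import Pool.Agent.LibVT36.Defs2

/-!
[VT36 K5] (MEDIUM) Multiplication by two on `Y^2 = (X - e_1)(X - e_2)(X - e_3)`. `k5_root`: the roots, different (discriminant). `k5_even`: `w.ord (X - e_i)` is even for all `w`: at a pole of `X` it is `w.ord X`, divisible by `2 m`; otherwise only one of the three factors can vanish at `w` and their product is `Y^2`.
(`DEm.map`: along `IsEt φ`.)
`k5_sig`: `α^2 = X - e_1`, `β^2 = X - e_2`, `γ^2 = X - e_3`, `δ = e_2 - e_1`, `ε = e_3 - e_1`: `(α - β)(α + β) = δ`, `(α - γ)(α + γ) = ε`, `(β - γ)(β + γ) = ε - δ`. `τ = (β - α) / (γ - α)`; points `0, 1, ∞, δ/ε` of `τ`, all with ramification divisible by `2 m`.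
`τ - 1 = (β - γ) / (γ - α)`, `τ - δ/ε = (δ/ε) (γ - β) / (β + α)` [as `β - α = - δ / (β + α)`, `γ - α = - ε / (γ + α)`]. At a place where `X` is regular: `α, β, γ` are regular, all six factors are units, so `τ, τ - 1, τ - δ/ε` are units: nothing to prove. At a pole of `X`: `w.ord α = w.ord β = w.ord γ = - e`, `2 e = - w.ord X`, `m ∣ e`;
one of `α ± β` has order `- e` (their sum is `2 α`), the other `+ e`; same for `α ± γ` and `β ± γ`. So `w.ord τ`, `w.ord (τ - 1)`, `w.ord (τ - δ/ε)` are all in `{0, 2 e, - 2 e}`: differences of numbers `± e`. That is all (each of them is divisible by `2 m`).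
`NC τ`: if `τ` is constant: `β = α + τ (γ - α)` and `δ (γ + α) = τ ε (β + α)` give `γ (δ - τ^2 ε) = α (2 τ ε - τ^2 ε - δ)`; if `δ ≠ τ^2 ε` then `γ = κ α`, `α^2 (1 - κ^2) = ε ≠ 0`, so `α^2` and `X` are constant; if `δ = τ^2 ε` then (`α ≠ 0`) `2 τ ε = 2 τ^2 ε`, `τ = 0` or `1`, `δ = 0` or `δ = ε`, contradiction.
-/

namespace Pool.Agent.LibVT36

open Pool.Agent.LibBH2
open Pool.Agent.LibCHd (FunF)

variable {k : Type} [Field k]
variable {L L' : Type} [Field L] [Algebra k L] [Field L'] [Algebra k L']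

private theorem K5_exists_cubic [IsAlgClosed k] [CharZero k] (A B : k) :
    ∃ x : k, x ^ 3 + A * x + B = 0 := by
  obtain ⟨x, hx⟩ := IsAlgClosed.exists_root
    ((Polynomial.X : Polynomial k) ^ 3 + Polynomial.C A * Polynomial.X + Polynomial.C B) (by
        have h : ((Polynomial.X : Polynomial k) ^ 3 + Polynomial.C A * Polynomial.X +
          Polynomial.C B).degree = 3 := by
          compute_degree!
        rw [h]
        decide)
  refine ⟨x, ?_⟩
  rw [Polynomial.IsRoot.def] at hx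
  simp only [Polynomial.eval_add, Polynomial.eval_mul, Polynomial.eval_C, Polynomial.eval_pow,
    Polynomial.eval_X] at hx
  exact hx

private theorem K5_exists_quad [IsAlgClosed k] [CharZero k] (A B : k) :
    ∃ x : k, x ^ 2 + A * x + B = 0 := by
  obtain ⟨x, hx⟩ := IsAlgClosed.exists_root
    ((Polynomial.X : Polynomial k) ^ 2 + Polynomial.C A * Polynomial.X + Polynomial.C B) (by
        have h : ((Polynomial.X : Polynomial k) ^ 2 + Polynomial.C A * Polynomial.X +
          Polynomial.C B).degree = 2 := by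
          compute_degree!
        rw [h]
        decide)
  refine ⟨x, ?_⟩
  rw [Polynomial.IsRoot.def] at hx
  simp only [Polynomial.eval_add, Polynomial.eval_mul, Polynomial.eval_C, Polynomial.eval_pow,
    Polynomial.eval_X] at hx
  exact hx

theorem k5_root [IsAlgClosed k] [CharZero k] {A B : k} (h : 4 * A ^ 3 + 27 * B ^ 2 ≠ 0) :
    ∃ e : Fin 3 → k, Function.Injective e ∧ ∀ (M : Type) [Field M] [Algebra k M] (X : M),
      X ^ 3 + cc k M A * X + cc k M B = (X - cc k M (e 0)) * (X - cc k M (e 1)) * (X - cc k M (e 2)) := by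
  obtain ⟨e0, h0⟩ := K5_exists_cubic A B
  obtain ⟨e1, h1⟩ := K5_exists_quad e0 (e0 ^ 2 + A)
  have hA : A = -(e0 ^ 2 + e0 * e1 + e1 ^ 2) := by linear_combination h1
  have hB : B = e0 * e1 * (e0 + e1) := by
    rw [hA] at h0
    linear_combination h0
  have hdisc : -(4 * A ^ 3 + 27 * B ^ 2) =
      ((e0 - e1) * (e0 - (-e0 - e1)) * (e1 - (-e0 - e1))) ^ 2 := by
    rw [hA, hB]
    ring
  have hne : (e0 - e1) * (e0 - (-e0 - e1)) * (e1 - (-e0 - e1)) ≠ 0 := by
    intro h2
    apply h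
    rw [h2] at hdisc
    linear_combination (-1 : k) * hdisc
  have h01 : e0 ≠ e1 := by
    intro h2
    apply hne
    rw [h2]
    ring
  have h02 : e0 ≠ -e0 - e1 := by
    intro h2
    apply hne
    rw [← h2]
    ring
  have h12 : e1 ≠ -e0 - e1 := by
    intro h2
    apply hne
    rw [← h2]
    ring
  refine ⟨![e0, e1, -e0 - e1], ?_, ?_⟩
  · intro i j hij
    fin_cases i <;> fin_cases j
    · rfl
    · exact absurd hij h01
    · exact absurd hij h02
    · exact absurd hij.symm h01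
    · rfl
    · exact absurd hij h12
    · exact absurd hij.symm h02
    · exact absurd hij.symm h12
    · rfl
  · intro M _ _ X
    have g0 : (![e0, e1, -e0 - e1] : Fin 3 → k) 0 = e0 := rfl
    have g1 : (![e0, e1, -e0 - e1] : Fin 3 → k) 1 = e1 := rfl
    have g2 : (![e0, e1, -e0 - e1] : Fin 3 → k) 2 = -e0 - e1 := rfl
    rw [g0, g1, g2, hA, hB]
    simp only [map_neg, map_add, map_mul, map_pow, map_sub]
    ring

private theorem K5_cc0 : cc k L (0 : k) = 0 := map_zero _

private theorem K5_cc1 : cc k L (1 : k) = 1 := map_one _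

private theorem K5_ccs (a b : k) : cc k L (a - b) = cc k L a - cc k L b := map_sub _ _ _

private theorem K5_const {w : Place k L} {X : L} (h : w.ord X < 0) (c : k) :
    w.ord (X - cc k L c) = w.ord X := by
  by_cases hc : c = 0
  · rw [hc, K5_cc0, sub_zero]
  · have hX : X ≠ 0 := by
      rintro rfl
      rw [w.ord_zero] at h
      exact lt_irrefl _ h
    have h1 : -(algebraMap k L c) ≠ 0 := by
      rw [neg_ne_zero]
      intro h2
      exact hc ((map_eq_zero (algebraMap k L)).1 h2)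
    have h2 := (Place.ord_add_of_lt (v := w) hX h1 (by rw [w.ord_neg, w.ord_const c hc]; exact h)).2
    rw [sub_eq_add_neg]
    exact h2

private theorem K5_reg {w : Place k L} {X : L} (h : 0 ≤ w.ord X) (c : k) (hne : X - cc k L c ≠ 0) :
    0 ≤ w.ord (X - cc k L c) := by
  have h1 : w.Reg (X - algebraMap k L c) := Place.Reg.sub (Or.inr h) (w.reg_const c)
  exact h1.resolve_left hne

theorem k5_even [CharZero k] {X Y : L} {A B : k} {m : ℕ} (h : DEm X Y A B m) {e : Fin 3 → k}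
    (he : Function.Injective e) (hX : Y ^ 2 = (X - cc k L (e 0)) * (X - cc k L (e 1)) * (X - cc k L (e 2))) (i : Fin 3) :
    X - cc k L (e i) ≠ 0 ∧ ∀ w : Place k L, (2 : ℤ) ∣ w.ord (X - cc k L (e i)) := by
  have hne : ∀ j, X - cc k L (e j) ≠ 0 := fun j => h.nc.sub_ne (e j)
  refine ⟨hne i, fun w => ?_⟩
  rcases lt_or_ge (w.ord X) 0 with hlt | hge
  · rw [K5_const hlt]
    exact Dvd.dvd.trans (Dvd.intro _ rfl) (h.pole w hlt)
  · have hpos : ∀ j, 0 ≤ w.ord (X - cc k L (e j)) := fun j => K5_reg hge _ (hne j)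
    have hY : Y ≠ 0 := by
      rintro rfl
      have h1 : (X - cc k L (e 0)) * (X - cc k L (e 1)) * (X - cc k L (e 2)) ≠ 0 :=
        mul_ne_zero (mul_ne_zero (hne 0) (hne 1)) (hne 2)
      apply h1
      rw [← hX]
      ring
    have hsum : 2 * w.ord Y = w.ord (X - cc k L (e 0)) + w.ord (X - cc k L (e 1)) +
        w.ord (X - cc k L (e 2)) := by
      have h1 := congrArg w.ord hX
      rw [w.ord_pow, w.ord_mul _ _ (mul_ne_zero (hne 0) (hne 1)) (hne 2),
        w.ord_mul _ _ (hne 0) (hne 1)] at h1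
      push_cast at h1
      exact h1
    have hone : ∀ j j', j ≠ j' → 0 < w.ord (X - cc k L (e j)) → w.ord (X - cc k L (e j')) = 0 := by
      intro j j' hjj hj
      by_contra hj'
      have h2 : 0 < w.ord (X - cc k L (e j')) := lt_of_le_of_ne (hpos j') (Ne.symm hj')
      exact hjj (he (Place.val_unique (v := w) (Or.inr hj) (Or.inr h2)))
    rcases (hpos i).lt_or_eq with h3 | h3
    · refine ⟨w.ord Y, ?_⟩
      rw [hsum]
      fin_cases i
      · have h4 := hone 0 1 (by decide) h3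
        have h5 := hone 0 2 (by decide) h3
        rw [h4, h5]
        simp
      · have h4 := hone 1 0 (by decide) h3
        have h5 := hone 1 2 (by decide) h3
        rw [h4, h5]
        simp
      · have h4 := hone 2 0 (by decide) h3
        have h5 := hone 2 1 (by decide) h3
        rw [h4, h5]
        simp
    · rw [← h3]
      exact dvd_zero _

theorem DEm.map {X Y : L} {A B : k} {m : ℕ} (h : DEm X Y A B m) {φ : L →ₐ[k] L'} (hφ : IsEt φ) :
    DEm (φ X) (φ Y) A B m := by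
  refine ⟨h.nc.map φ, ?_, h.disc, ?_⟩
  · have h1 := congrArg φ h.eq
    rw [map_pow, map_add, map_add, map_mul, map_pow, φ.commutes, φ.commutes] at h1
    exact h1
  · intro w hw
    obtain ⟨v, hv⟩ := hφ.restr w
    rw [← hv] at hw ⊢
    exact h.pole v hw

private theorem K5_pm [CharZero k] {w : Place k L} {a b : L} {c : k} (hc : c ≠ 0)
    (h : (a - b) * (a + b) = cc k L c) (ha0 : a ≠ 0) (hb0 : b ≠ 0) {E : ℤ} (hE : 0 ≤ E)
    (ha : -E ≤ w.ord a) (hb : -E ≤ w.ord b) (hE' : 0 < E → w.ord a = -E) :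
    (w.ord (a - b) = E ∨ w.ord (a - b) = -E) ∧ (w.ord (a + b) = E ∨ w.ord (a + b) = -E) := by
  have hcc : cc k L c ≠ 0 := by
    intro h2
    exact hc ((map_eq_zero (algebraMap k L)).1 h2)
  have hm : a - b ≠ 0 := by
    intro h2
    rw [h2, zero_mul] at h
    exact hcc h.symm
  have hp : a + b ≠ 0 := by
    intro h2
    rw [h2, mul_zero] at h
    exact hcc h.symm
  have hsum : w.ord (a - b) + w.ord (a + b) = 0 := by
    rw [← w.ord_mul _ _ hm hp, h]
    exact w.ord_const c hc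
  have h1 : -E ≤ w.ord (a - b) := by
    have h2 := w.ord_add a (-b) ha0 (neg_ne_zero.2 hb0) (by rw [← sub_eq_add_neg]; exact hm)
    rw [w.ord_neg, ← sub_eq_add_neg] at h2
    exact (le_min ha hb).trans h2
  have h2 : -E ≤ w.ord (a + b) := (le_min ha hb).trans (w.ord_add a b ha0 hb0 hp)
  rcases hE.lt_or_eq with h3 | h3
  · have h4 : (a - b) + (a + b) = cc k L 2 * a := by
      have h5 : cc k L (2 : k) = 2 := map_ofNat _ _
      rw [h5]
      ring
    have h20 : (2 : k) ≠ 0 := two_ne_zero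
    have h2c : cc k L (2 : k) ≠ 0 := by
      intro h6
      exact h20 ((map_eq_zero (algebraMap k L)).1 h6)
    have h5 := w.ord_add (a - b) (a + b) hm hp (by rw [h4]; exact mul_ne_zero h2c ha0)
    rw [h4, w.ord_mul _ _ h2c ha0, w.ord_const 2 h20, hE' h3, zero_add] at h5
    rcases min_le_iff.1 h5 with h6 | h6
    · constructor
      · right
        omega
      · left
        omega
    · constructor
      · left
        omega
      · right
        omega
  · constructor
    · left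
      omega
    · left
      omega

private theorem K5_E {X Y : L} {A B : k} {m : ℕ} (h : DEm X Y A B m) (w : Place k L) :
    ∃ E : ℤ, 0 ≤ E ∧ (m : ℤ) ∣ E ∧ ∀ (x : L) (c : k), x ^ 2 = X - cc k L c →
      -E ≤ w.ord x ∧ (0 < E → w.ord x = -E) := by
  rcases lt_or_ge (w.ord X) 0 with hlt | hge
  · obtain ⟨q, hq⟩ := h.pole w hlt
    have h1 : w.ord X = 2 * ((m : ℤ) * q) := by
      rw [hq]
      ring
    refine ⟨-((m : ℤ) * q), by omega, ?_, ?_⟩
    · rw [dvd_neg]
      exact Dvd.intro _ rfl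
    · intro x c hx
      have h2 : (2 : ℤ) * w.ord x = w.ord X := by
        rw [← K5_const hlt c, ← hx, w.ord_pow]
        push_cast
        ring
      constructor
      · omega
      · intro _
        omega
  · refine ⟨0, le_refl _, dvd_zero _, ?_⟩
    intro x c hx
    have h2 : (2 : ℤ) * w.ord x = w.ord (X - cc k L c) := by
      rw [← hx, w.ord_pow]
      push_cast
      ring
    have h3 := K5_reg hge c (h.nc.sub_ne c)
    constructor
    · omega
    · intro h4
      exact absurd h4 (lt_irrefl _)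

private theorem K5_dvd {m : ℕ} {E s s' : ℤ} (hm : (m : ℤ) ∣ E) (hs : s = E ∨ s = -E)
    (hs' : s' = E ∨ s' = -E) : ((2 * m : ℕ) : ℤ) ∣ s - s' := by
  obtain ⟨q, rfl⟩ := hm
  push_cast
  rcases hs with rfl | rfl <;> rcases hs' with rfl | rfl
  · rw [sub_self]
    exact dvd_zero _
  · exact ⟨q, by ring⟩
  · exact ⟨-q, by ring⟩
  · rw [sub_self]
    exact dvd_zero _

private theorem K5_nc {X α β γ : L} (h : NC k X) {e : Fin 3 → k}
    (he : Function.Injective e) (hα : α ^ 2 = X - cc k L (e 0)) (hβ : β ^ 2 = X - cc k L (e 1))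
    (hγ : γ ^ 2 = X - cc k L (e 2)) [CharZero k] : NC k ((β - α) / (γ - α)) := by
  rintro ⟨t, ht⟩
  have hδ : e 1 - e 0 ≠ 0 := by
    intro h1
    exact absurd (he (sub_eq_zero.1 h1)) (by decide)
  have hε : e 2 - e 0 ≠ 0 := by
    intro h1
    exact absurd (he (sub_eq_zero.1 h1)) (by decide)
  have hδε : e 1 - e 0 ≠ e 2 - e 0 := by
    intro h1
    exact absurd (he (sub_left_inj.1 h1)) (by decide)
  have hα2 : NC k (α ^ 2) := by
    rw [hα]
    exact h.sub _
  have hα0 : α ≠ 0 := (NC.of_pow hα2).ne_zero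
  have hD : algebraMap k L (e 1 - e 0) = α ^ 2 - β ^ 2 := by
    rw [hα, hβ, map_sub]
    ring
  have hEp : algebraMap k L (e 2 - e 0) = (α - γ) * (α + γ) := by
    have h1 : (α - γ) * (α + γ) = α ^ 2 - γ ^ 2 := by ring
    rw [h1, hα, hγ, map_sub]
    ring
  have hga : γ - α ≠ 0 := by
    intro h1
    apply hε
    apply (map_eq_zero (algebraMap k L)).1
    rw [hEp]
    have h2 : α - γ = 0 := by linear_combination (-1 : L) * h1
    rw [h2, zero_mul]
  have h1 : β = α + algebraMap k L t * (γ - α) := by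
    rw [ht, div_mul_cancel₀ _ hga]
    ring
  have hD2 : algebraMap k L (e 1 - e 0) =
      algebraMap k L t * (α - γ) * (2 * α + algebraMap k L t * (γ - α)) := by
    rw [hD, h1]
    ring
  have key : γ * algebraMap k L (e 1 - e 0 - t ^ 2 * (e 2 - e 0)) =
      α * algebraMap k L (2 * t * (e 2 - e 0) - t ^ 2 * (e 2 - e 0) - (e 1 - e 0)) := by
    rw [map_sub (algebraMap k L) (e 1 - e 0) (t ^ 2 * (e 2 - e 0)),
      map_sub (algebraMap k L) (2 * t * (e 2 - e 0) - t ^ 2 * (e 2 - e 0)) (e 1 - e 0),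
      map_sub (algebraMap k L) (2 * t * (e 2 - e 0)) (t ^ 2 * (e 2 - e 0)),
      map_mul, map_mul, map_mul, map_pow, map_ofNat]
    linear_combination (γ + α) * hD2 -
      (algebraMap k L t * (γ * algebraMap k L t + 2 * α - α * algebraMap k L t)) * hEp
  by_cases hcase : e 1 - e 0 - t ^ 2 * (e 2 - e 0) = 0
  · rw [hcase, map_zero, mul_zero] at key
    have h2 : algebraMap k L (2 * t * (e 2 - e 0) - t ^ 2 * (e 2 - e 0) - (e 1 - e 0)) = 0 :=
      (mul_eq_zero.1 key.symm).resolve_left hα0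
    have h3 : 2 * t * (e 2 - e 0) - t ^ 2 * (e 2 - e 0) - (e 1 - e 0) = 0 :=
      (map_eq_zero (algebraMap k L)).1 h2
    have h4 : (2 * (e 2 - e 0)) * (t * (1 - t)) = 0 := by
      linear_combination h3 + hcase
    have h5 : (2 : k) * (e 2 - e 0) ≠ 0 := mul_ne_zero two_ne_zero hε
    rcases mul_eq_zero.1 ((mul_eq_zero.1 h4).resolve_left h5) with h6 | h6
    · apply hδ
      rw [h6] at hcase
      linear_combination hcase
    · apply hδε
      have h7 : t = 1 := by linear_combination (-1 : k) * h6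
      rw [h7] at hcase
      linear_combination hcase
  · obtain ⟨κ, hκ⟩ : ∃ κ : k, κ = (2 * t * (e 2 - e 0) - t ^ 2 * (e 2 - e 0) - (e 1 - e 0)) /
        (e 1 - e 0 - t ^ 2 * (e 2 - e 0)) := ⟨_, rfl⟩
    have hcc : algebraMap k L (e 1 - e 0 - t ^ 2 * (e 2 - e 0)) ≠ 0 := by
      intro h2
      exact hcase ((map_eq_zero (algebraMap k L)).1 h2)
    have hγκ : γ = algebraMap k L κ * α := by
      rw [hκ, map_div₀, div_mul_eq_mul_div, eq_div_iff hcc, key]
      ring
    have h2 : algebraMap k L (e 2 - e 0) = algebraMap k L (1 - κ ^ 2) * α ^ 2 := by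
      rw [hEp, hγκ, map_sub, map_one, map_pow]
      ring
    have h3 : (1 - κ ^ 2 : k) ≠ 0 := by
      intro h4
      apply hε
      apply (map_eq_zero (algebraMap k L)).1
      rw [h2, h4, map_zero, zero_mul]
    have h4 : algebraMap k L (1 - κ ^ 2) ≠ 0 := by
      intro h5
      exact h3 ((map_eq_zero (algebraMap k L)).1 h5)
    apply hα2
    refine ⟨(e 2 - e 0) / (1 - κ ^ 2), ?_⟩
    rw [map_div₀, h2, mul_div_cancel_left₀ _ h4]

theorem k5_sig [IsAlgClosed k] [CharZero k] {X Y α β γ : L} {A B : k} {m : ℕ} (h : DEm X Y A B m) {e : Fin 3 → k}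
    (he : Function.Injective e) (hα : α ^ 2 = X - cc k L (e 0)) (hβ : β ^ 2 = X - cc k L (e 1))
    (hγ : γ ^ 2 = X - cc k L (e 2)) : Sig k L [2 * m, 2 * m, 2 * m, 2 * m] := by
  have hδ : e 1 - e 0 ≠ 0 := by
    intro h1
    exact absurd (he (sub_eq_zero.1 h1)) (by decide)
  have hε : e 2 - e 0 ≠ 0 := by
    intro h1
    exact absurd (he (sub_eq_zero.1 h1)) (by decide)
  have hδε : e 2 - e 1 ≠ 0 := by
    intro h1
    exact absurd (he (sub_eq_zero.1 h1)) (by decide)
  have hne0 : ∀ (x : L) (c : k), x ^ 2 = X - cc k L c → x ≠ 0 := by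
    intro x c hx hx0
    rw [hx0] at hx
    apply h.nc.sub_ne c
    rw [← hx]
    ring
  have hα0 := hne0 α _ hα
  have hβ0 := hne0 β _ hβ
  have hγ0 := hne0 γ _ hγ
  have h1 : (α - β) * (α + β) = cc k L (e 1 - e 0) := by
    have h2 : (α - β) * (α + β) = α ^ 2 - β ^ 2 := by ring
    rw [h2, hα, hβ, K5_ccs]
    ring
  have h2 : (α - γ) * (α + γ) = cc k L (e 2 - e 0) := by
    have h3 : (α - γ) * (α + γ) = α ^ 2 - γ ^ 2 := by ring
    rw [h3, hα, hγ, K5_ccs]
    ring
  have h3 : (β - γ) * (β + γ) = cc k L (e 2 - e 1) := by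
    have h4 : (β - γ) * (β + γ) = β ^ 2 - γ ^ 2 := by ring
    rw [h4, hβ, hγ, K5_ccs]
    ring
  have hcc : ∀ c : k, c ≠ 0 → cc k L c ≠ 0 := by
    intro c hc h4
    exact hc ((map_eq_zero (algebraMap k L)).1 h4)
  have n1 : α - β ≠ 0 := fun h4 => hcc _ hδ (by rw [← h1, h4, zero_mul])
  have n2 : α + β ≠ 0 := fun h4 => hcc _ hδ (by rw [← h1, h4, mul_zero])
  have n3 : α - γ ≠ 0 := fun h4 => hcc _ hε (by rw [← h2, h4, zero_mul])
  have n4 : α + γ ≠ 0 := fun h4 => hcc _ hε (by rw [← h2, h4, mul_zero])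
  have n5 : β - γ ≠ 0 := fun h4 => hcc _ hδε (by rw [← h3, h4, zero_mul])
  have hτ : (β - α) / (γ - α) = (α - β) / (α - γ) := by
    rw [← neg_sub α β, ← neg_sub α γ, neg_div_neg_eq]
  have hτ1 : (α - β) / (α - γ) - cc k L 1 = -((β - γ) / (α - γ)) := by
    rw [K5_cc1]
    field_simp
    ring
  have hεc := hcc _ hε
  have hτ2 : (α - β) / (α - γ) - cc k L ((e 1 - e 0) / (e 2 - e 0)) =
      -(cc k L ((e 1 - e 0) / (e 2 - e 0)) * ((β - γ) / (α + β))) := by
    have h4 : cc k L ((e 1 - e 0) / (e 2 - e 0)) = (α - β) * (α + β) / ((α - γ) * (α + γ)) := by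
      rw [h1, h2]
      exact map_div₀ _ _ _
    rw [h4]
    field_simp
    ring
  refine ⟨(β - α) / (γ - α), [some 0, some 1, none, some ((e 1 - e 0) / (e 2 - e 0))],
    K5_nc h.nc he hα hβ hγ, ?_, ?_⟩
  · have g1 : (0 : k) ≠ 1 := zero_ne_one
    have g2 : (0 : k) ≠ (e 1 - e 0) / (e 2 - e 0) := (div_ne_zero hδ hε).symm
    have g3 : (1 : k) ≠ (e 1 - e 0) / (e 2 - e 0) := by
      intro h4
      rw [eq_div_iff hε, one_mul] at h4
      apply hδε
      linear_combination h4
    simp [g1, g2, g3]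
  · have hall : ∀ w : Place k L, ∃ E : ℤ, (m : ℤ) ∣ E ∧
        (w.ord (α - β) = E ∨ w.ord (α - β) = -E) ∧ (w.ord (α + β) = E ∨ w.ord (α + β) = -E) ∧
        (w.ord (α - γ) = E ∨ w.ord (α - γ) = -E) ∧ (w.ord (β - γ) = E ∨ w.ord (β - γ) = -E) := by
      intro w
      obtain ⟨E, hE0, hEm, hE⟩ := K5_E h w
      obtain ⟨a1, a2⟩ := hE α _ hα
      obtain ⟨b1, b2⟩ := hE β _ hβ
      obtain ⟨c1, _⟩ := hE γ _ hγ
      have p1 := K5_pm (w := w) hδ h1 hα0 hβ0 hE0 a1 b1 a2
      have p2 := K5_pm (w := w) hε h2 hα0 hγ0 hE0 a1 c1 a2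
      have p3 := K5_pm (w := w) hδε h3 hβ0 hγ0 hE0 b1 c1 b2
      exact ⟨E, hEm, p1.1, p1.2, p2.1, p3.1⟩
    have r0 : Ram ((β - α) / (γ - α)) (some (0 : k)) (2 * m) := by
      intro w _
      obtain ⟨E, hEm, q1, q2, q3, q4⟩ := hall w
      show ((2 * m : ℕ) : ℤ) ∣ w.ord ((β - α) / (γ - α) - cc k L 0)
      rw [hτ, K5_cc0, sub_zero, w.ord_div _ _ n1 n3]
      exact K5_dvd hEm q1 q3
    have r1 : Ram ((β - α) / (γ - α)) (some (1 : k)) (2 * m) := by
      intro w _
      obtain ⟨E, hEm, q1, q2, q3, q4⟩ := hall w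
      show ((2 * m : ℕ) : ℤ) ∣ w.ord ((β - α) / (γ - α) - cc k L 1)
      rw [hτ, hτ1, w.ord_neg, w.ord_div _ _ n5 n3]
      exact K5_dvd hEm q4 q3
    have r2 : Ram ((β - α) / (γ - α)) (none : Option k) (2 * m) := by
      intro w _
      obtain ⟨E, hEm, q1, q2, q3, q4⟩ := hall w
      show ((2 * m : ℕ) : ℤ) ∣ w.ord ((β - α) / (γ - α))⁻¹
      rw [hτ, w.ord_inv, w.ord_div _ _ n1 n3, neg_sub]
      exact K5_dvd hEm q3 q1
    have r3 : Ram ((β - α) / (γ - α)) (some ((e 1 - e 0) / (e 2 - e 0))) (2 * m) := by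
      intro w _
      obtain ⟨E, hEm, q1, q2, q3, q4⟩ := hall w
      show ((2 * m : ℕ) : ℤ) ∣ w.ord ((β - α) / (γ - α) - cc k L ((e 1 - e 0) / (e 2 - e 0)))
      have g2 : (e 1 - e 0) / (e 2 - e 0) ≠ 0 := div_ne_zero hδ hε
      rw [hτ, hτ2, w.ord_neg, w.ord_mul _ _ (hcc _ g2) (div_ne_zero n5 n2), w.ord_const _ g2, zero_add,
        w.ord_div _ _ n5 n2]
      exact K5_dvd hEm q4 q2
    exact List.Forall₂.cons r0 (List.Forall₂.cons r1 (List.Forall₂.cons r2
      (List.Forall₂.cons r3 List.Forall₂.nil)))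

end Pool.Agent.LibVT36
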