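import Pool.Agent.LibVT36.K3
import Pool.Agent.LibVT36.K4
import Pool.Agent.LibVT36.K5

/-!
[VT36 K6] (MEDIUM) Assembly. `vv22222`: `mob_fin` makes the five points finite, `DA`, `z_DA`. `vv_2m`: `VV.cyc` with `d = m`, `a = b = 2`, `l = [2 m, 2 m]` (write `2 * m = m * 2`), then `VV.subperm` and `VV.dvd` from `[2,2,2,2,2]` (`2 + 2 m ≥ 5` entries divisible by 2).
`z_DEm`: `k5_root`; `Reach.step` with `f = X - e_0`, `n = 2`; `Reach.step` with `f = φ X - e_1`, `n = 2`; `γ = Y / (α β)`; `k5_sig`; `vv_2m` (`Reach.trans`). `vv_2222m`: points `p_0, .., p_3, p_4`; `mob2` (some `p`, `p_4`) moves `p_4` to `∞`, translate so that the sum of the four finite points is `0`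
(translation: as in K1, or directly); `DA1m`; `b1m`, `Reach.step` with `n = 2`, `b1m'`, `b2m`, `z_DEm`.
-/

namespace Pool.Agent.LibVT36

open Pool.Agent.LibBH2
open Pool.Agent.LibCHd (FunF)

variable {k : Type} [Field k]
variable [IsAlgClosed k] [CharZero k]

private theorem K6_pts {L : Type} [Field L] [Algebra k L] {t : L} {P : List (Option k)} {l : List ℕ}
    (hN : P.Nodup) (hF : List.Forall₂ (fun p n => Ram t p n) P l) :
    ∃ q : Fin l.length → Option k, Function.Injective q ∧ (∀ i, q i ∈ P) ∧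
      ∀ i, Ram t (q i) (l.get i) := by
  rw [List.forall₂_iff_get] at hF
  obtain ⟨hlen, hR⟩ := hF
  refine ⟨fun i => P.get (Fin.cast hlen.symm i), ?_, ?_, ?_⟩
  · intro i j hij
    have h1 := List.nodup_iff_injective_get.1 hN hij
    exact Fin.cast_injective _ h1
  · intro i
    exact List.get_mem _ _
  · intro i
    exact hR i (by rw [hlen]; exact i.2) i.2

private theorem K6_ord_sub {L : Type} [Field L] [Algebra k L] (w : Place k L) {x : L} (a : k)
    (h : w.ord (x - cc k L a) < 0) : w.ord x = w.ord (x - cc k L a) := by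
  by_cases ha : a = 0
  · subst ha
    simp [cc]
  have hs0 : x - cc k L a ≠ 0 := by
    intro h0
    rw [h0, w.ord_zero] at h
    exact lt_irrefl _ h
  have hc0 : cc k L a ≠ 0 := by
    intro h0
    exact ha ((algebraMap k L).injective (by rw [map_zero]; exact h0))
  have hca : w.ord (cc k L a) = 0 := w.ord_const a ha
  have hx0 : x ≠ 0 := by
    intro h0
    rw [h0, zero_sub, w.ord_neg, hca] at h
    exact lt_irrefl _ h
  have e1 : x - cc k L a + cc k L a = x := by ring
  have h1 := w.ord_add (x - cc k L a) (cc k L a) hs0 hc0 (by rw [e1]; exact hx0)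
  rw [e1, hca] at h1
  have e2 : x + -(cc k L a) = x - cc k L a := by ring
  have h2 := w.ord_add x (-(cc k L a)) hx0 (neg_ne_zero.2 hc0) (by rw [e2]; exact hs0)
  rw [e2, w.ord_neg, hca] at h2
  rw [min_eq_left h.le] at h1
  rcases le_total (w.ord x) 0 with h3 | h3
  · rw [min_eq_left h3] at h2
    exact le_antisymm h2 h1
  · rw [min_eq_right h3] at h2
    exact absurd h (not_lt.2 h2)

theorem vv22222 : VV k [2, 2, 2, 2, 2] := by
  intro L _ _ hL hS
  obtain ⟨t, P, ht, hN, hF⟩ := hS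
  obtain ⟨q, hq, hqP, hR⟩ := K6_pts hN hF
  obtain ⟨t', μ, ht', hμ, hfin, hRam⟩ := mob_fin ht P
  have hc : ∀ i : Fin 5, ∃ c : k, μ (q i) = some c := by
    intro i
    exact Option.ne_none_iff_exists'.1 (hfin _ (hqP i))
  choose c hc' using hc
  refine z_DA (t := t') (c := c) hL ⟨ht', ?_, ?_⟩
  · intro i j hij
    apply hq
    apply hμ
    rw [hc' i, hc' j, hij]
  · intro w i hw
    have h1 := hRam _ _ (hR i)
    rw [hc' i] at h1
    have h2 : [2, 2, 2, 2, 2].get i = 2 := by
      fin_cases i <;> rfl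
    rw [h2] at h1
    have h3 := h1 w hw
    exact_mod_cast h3

theorem vv_2m {m : ℕ} (hm : 2 ≤ m) : VV k [2 * m, 2 * m, 2 * m, 2 * m] := by
  obtain ⟨n, rfl⟩ : ∃ n, m = n + 2 := ⟨m - 2, by omega⟩
  have h1 : VV k [2, 2, 2 * (n + 2), 2 * (n + 2), 2 * (n + 2)] := by
    apply VV.dvd (vv22222 (k := k))
    refine List.Forall₂.cons (dvd_refl _) (List.Forall₂.cons (dvd_refl _)
      (List.Forall₂.cons (dvd_mul_right _ _) (List.Forall₂.cons (dvd_mul_right _ _)
      (List.Forall₂.cons (dvd_mul_right _ _) List.Forall₂.nil))))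
  have h2 : VV k (2 :: 2 :: (List.replicate (n + 2) [2 * (n + 2), 2 * (n + 2)]).flatten) := by
    apply VV.sub h1
    rw [List.replicate_succ, List.replicate_succ, List.flatten_cons, List.flatten_cons]
    apply List.Sublist.cons_cons
    apply List.Sublist.cons_cons
    apply List.Sublist.cons_cons
    apply List.Sublist.cons_cons
    apply List.Sublist.cons_cons
    exact List.nil_sublist _
  have h3 := VV.cyc (k := k) (d := n + 2) (a := 2) (b := 2) (l := [2 * (n + 2), 2 * (n + 2)])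
    (by omega) h2
  rw [mul_comm (n + 2) 2] at h3
  exact h3

theorem z_DEm {L : Type} [Field L] [Algebra k L] (hL : FunF k 1 L) {X Y : L} {A B : k} {m : ℕ} (hm : 2 ≤ m)
    (h : DEm X Y A B m) : Reach k L (fun L' _ _ => End k L') := by
  obtain ⟨e, he, hroot⟩ := k5_root (k := k) h.disc
  have hX := h.eq.trans (hroot L X)
  obtain ⟨hf0, hev0⟩ := k5_even h he hX 0
  refine Reach.step hL hf0 (n := 2) (by norm_num) (fun w => by exact_mod_cast hev0 w) ?_
  intro L' _ _ φ α hφ hL' hα
  have h' := h.map hφ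
  have hX' := h'.eq.trans (hroot L' (φ X))
  obtain ⟨hf1, hev1⟩ := k5_even h' he hX' 1
  refine Reach.step hL' hf1 (n := 2) (by norm_num) (fun w => by exact_mod_cast hev1 w) ?_
  intro L'' _ _ ψ β hψ hL'' hβ
  have h'' := h'.map hψ
  have hX'' := h''.eq.trans (hroot L'' (ψ (φ X)))
  have hα' : (ψ α) ^ 2 = ψ (φ X) - cc k L'' (e 0) := by
    rw [← map_pow, hα, map_sub, map_sub]
    simp [cc]
  have hβ' : β ^ 2 = ψ (φ X) - cc k L'' (e 1) := by
    rw [hβ, map_sub]
    simp [cc]
  have hn0 := (k5_even h'' he hX'' 0).1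
  have hn1 := (k5_even h'' he hX'' 1).1
  have hγ' : (ψ (φ Y) / (ψ α * β)) ^ 2 = ψ (φ X) - cc k L'' (e 2) := by
    rw [div_pow, mul_pow, hα', hβ', hX'']
    field_simp
  exact vv_2m hm L'' hL'' (k5_sig h'' he hα' hβ' hγ')

theorem vv_2222m {m : ℕ} (hm : 2 ≤ m) : VV k [2, 2, 2, 2, m] := by
  intro L _ _ hL hS
  obtain ⟨t, P, ht, hN, hF⟩ := hS
  obtain ⟨q, hq, hR4, hRl⟩ : ∃ q : Fin 5 → Option k, Function.Injective q ∧
      (∀ i : Fin 4, Ram t (q (Fin.castSucc i)) 2) ∧ Ram t (q 4) m := by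
    obtain ⟨q, hq, hqP, hR⟩ := K6_pts hN hF
    refine ⟨q, hq, ?_, hR (4 : Fin 5)⟩
    intro i
    have h1 := hR (Fin.castSucc i : Fin 5)
    have h2 : [2, 2, 2, 2, m].get (Fin.castSucc i : Fin 5) = 2 := by
      fin_cases i <;> rfl
    rw [h2] at h1
    exact h1
  obtain ⟨t', μ, ht', hμ, hμ0, hμ4, hRam⟩ := mob2 ht (p := q 0) (q := q 4)
    (fun h => absurd (hq h) (by decide))
  have hc : ∀ i : Fin 4, ∃ c : k, μ (q (Fin.castSucc i : Fin 5)) = some c := by
    intro i
    apply Option.ne_none_iff_exists'.1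
    intro h
    rw [← hμ4] at h
    have h1 := congrArg Fin.val (hq (hμ h))
    have h2 := i.2
    simp at h1
    omega
  choose c hc' using hc
  have hcinj : Function.Injective c := by
    intro i j hij
    have h1 : μ (q (Fin.castSucc i : Fin 5)) = μ (q (Fin.castSucc j : Fin 5)) := by
      rw [hc' i, hc' j, hij]
    exact Fin.castSucc_injective _ (hq (hμ h1))
  have hcR : ∀ i : Fin 4, Ram t' (some (c i)) 2 := by
    intro i
    have h1 := hRam _ _ (hR4 i)
    rw [hc' i] at h1
    exact h1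
  have hRm : Ram t' (none : Option k) m := by
    have h1 := hRam _ _ hRl
    rw [hμ4] at h1
    exact h1
  obtain ⟨σ, hσ⟩ : ∃ σ : k, σ = (∑ i, c i) / 4 := ⟨_, rfl⟩
  have hse : ∀ i, t' - cc k L σ - cc k L (c i - σ) = t' - cc k L (c i) := by
    intro i
    simp only [cc, map_sub]
    ring
  have hD : DA1m (t' - cc k L σ) (fun i => c i - σ) m := by
    refine ⟨ht'.sub σ, ?_, ?_, ?_, ?_⟩
    · intro i j hij
      exact hcinj (sub_left_injective hij)
    · rw [Finset.sum_sub_distrib, hσ]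
      simp only [Finset.sum_const, Finset.card_univ, Fintype.card_fin, nsmul_eq_mul]
      have h4 : (4 : k) ≠ 0 := by norm_num
      push_cast
      field_simp
      ring
    · intro w hw
      have h1 := K6_ord_sub w σ hw
      have h2 : 0 < w.ord (lp t' (none : Option k)) := by
        show 0 < w.ord (t'⁻¹)
        rw [w.ord_inv, h1]
        omega
      have h3 := hRm w h2
      have h4 : w.ord (lp t' (none : Option k)) = - w.ord (t' - cc k L σ) := by
        show w.ord (t'⁻¹) = _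
        rw [w.ord_inv, h1]
      rw [h4] at h3
      exact (dvd_neg.1 h3)
    · intro w i hw
      rw [hse i] at hw ⊢
      have h1 := hcR i w hw
      exact_mod_cast h1
  obtain ⟨hf, hev⟩ := b1m hD
  refine Reach.step hL hf (n := 2) (by norm_num) (fun w => by exact_mod_cast hev w) ?_
  intro L' _ _ φ y hφ hL' hy
  obtain ⟨X, Y, A, B, hDE⟩ := b2m (b1m' hD hφ hy)
  exact z_DEm hL' hm hDE

end Pool.Agent.LibVT36
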