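import Pool.Agent.LibVT36.A3
import Pool.Agent.LibVT36.B0
import Pool.Agent.LibVT36.B1
import Pool.Agent.LibVT36.B2
import Pool.Agent.LibVT36.C0
import Pool.Agent.LibVT36.C2
import Pool.Agent.LibVT36.D1
import Pool.Agent.LibVT36.D2
import Pool.Agent.LibVT36.E2
import Pool.Agent.LibVT36.F1
import Pool.Agent.LibVT36.G0
import Pool.Agent.LibVT36.G1
import Pool.Agent.LibVT36.H1
import Pool.Agent.LibVT36.I1
import Pool.Agent.LibVT36.J1
import Pool.Agent.LibVT36.J2

/-!
[VT36 Z] (MEDIUM) Assembly of the chain. Every step: `kum` with the data of the step, then the transition theorem; compose with `IsEt.comp`. Prove first a lemma `reach_step` (below) to compose.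
-/

namespace Pool.Agent.LibVT36

open Pool.Agent.LibBH2
open Pool.Agent.LibCHd (FunF)

variable {k : Type} [Field k]
/-- some finite unramified extension of `L` has the property `P` -/
def Reach (k : Type) [Field k] (L : Type) [Field L] [Algebra k L]
    (P : ∀ (L' : Type) [Field L'] [Algebra k L'], Prop) : Prop :=
  ∃ (L' : Type) (_ : Field L') (_ : Algebra k L') (φ : L →ₐ[k] L'), IsEt φ ∧ FunF k 1 L' ∧ P L'

/-- the end of the chain -/
def End (k : Type) [Field k] (L : Type) [Field L] [Algebra k L] : Prop := ∃ (x v : L) (i : k), DF x v i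

variable [IsAlgClosed k] [CharZero k]

theorem Reach.of {L : Type} [Field L] [Algebra k L] (hL : FunF k 1 L)
    {P : ∀ (L' : Type) [Field L'] [Algebra k L'], Prop} (h : P L) : Reach k L P :=
  ⟨L, inferInstance, inferInstance, AlgHom.id k L, IsEt.refl, hL, h⟩

theorem Reach.step {L : Type} [Field L] [Algebra k L] (hL : FunF k 1 L) {f : L} (hf : f ≠ 0) {n : ℕ} (hn : 0 < n)
    (hd : ∀ w : Place k L, (n : ℤ) ∣ w.ord f) {P : ∀ (L' : Type) [Field L'] [Algebra k L'], Prop}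
    (h : ∀ (L' : Type) [Field L'] [Algebra k L'] (φ : L →ₐ[k] L') (β : L'), IsEt φ → FunF k 1 L' → β ^ n = φ f →
      Reach k L' P) : Reach k L P := by
  obtain ⟨L', i1, i2, φ, β, hφ, hF, hβ⟩ := kum hL hf hn hd
  obtain ⟨L'', j1, j2, ψ, hψ, hF', hP⟩ := h L' φ β hφ hF hβ
  exact ⟨L'', j1, j2, ψ.comp φ, hφ.comp hψ, hF', hP⟩

private theorem Z_omega : ∃ ω : k, IsPrimitiveRoot ω 3 := by
  have : NeZero ((3 : ℕ) : k) := ⟨by norm_num⟩
  obtain ⟨ω, hω⟩ := IsAlgClosed.exists_root (Polynomial.cyclotomic 3 k) (by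
    rw [Polynomial.degree_cyclotomic]
    have : Nat.totient 3 = 2 := by decide
    rw [this]
    norm_num)
  exact ⟨ω, Polynomial.isRoot_cyclotomic_iff.1 hω⟩

theorem z_DT {L : Type} [Field L] [Algebra k L] (hL : FunF k 1 L) {t : L} (h : DT k t) : Reach k L (fun L' _ _ => End k L') := by
  refine Reach.step hL (i1 h).1 (n := 3) (by norm_num) (fun w => h.zp w) ?_
  intro L1 _ _ φ x hφ hF hx
  have h' : DT k (φ t) := h.map hφ
  refine Reach.step hF (i1 h').2.1 (n := 6) (by norm_num) (fun w => (i1 h').2.2 w) ?_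
  intro L2 _ _ ψ v hψ hF2 hv
  have h'' : DT k (ψ (φ t)) := h'.map hψ
  refine Reach.of hF2 ?_
  obtain ⟨x', v', i, hDF⟩ := i2 (x := ψ x) (v := v) h'' (by rw [← map_pow, hx]) (by
    rw [hv, map_div₀, map_sub, map_add, map_one])
  exact ⟨x', v', i, hDF⟩

theorem z_DZ {L : Type} [Field L] [Algebra k L] (hL : FunF k 1 L) {z : L} {ω : k} (h : DZ z ω) :
    Reach k L (fun L' _ _ => End k L') := by
  refine Reach.step hL (h1 h).1 (n := 2) (by norm_num) (fun w => (h1 h).2 w) ?_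
  intro L1 _ _ φ s hφ hF hs
  obtain ⟨t, ht⟩ := h2 h hφ hs
  exact z_DT hF ht

theorem z_DC {L : Type} [Field L] [Algebra k L] (hL : FunF k 1 L) {c : L} (h : DC k c) :
    Reach k L (fun L' _ _ => End k L') := by
  obtain ⟨ω, hω⟩ := Z_omega (k := k)
  refine Reach.step hL (g1 h).1 (n := 3) (by norm_num) (fun w => (g1 h).2 w) ?_
  intro L1 _ _ φ z hφ hF hz
  exact z_DZ hF (g2 h hω hφ hz)

theorem z_DR {L : Type} [Field L] [Algebra k L] (hL : FunF k 1 L) {t : L} (h : DR k t) :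
    Reach k L (fun L' _ _ => End k L') := by
  refine Reach.step hL (j1 h).1 (n := 2) (by norm_num) (fun w => (j1 h).2 w) ?_
  intro L1 _ _ φ c hφ hF hc
  exact z_DC hF (j2 h hφ hc)

theorem z_DN {L : Type} [Field L] [Algebra k L] (hL : FunF k 1 L) {a b : L} {ka : k} (h : DN a b ka) :
    Reach k L (fun L' _ _ => End k L') := by
  refine Reach.step hL (e1 h).1 (n := 2) (by norm_num) (fun w => (e1 h).2 w) ?_
  intro L1 _ _ φ c hφ hF hc
  obtain ⟨h', c', hO⟩ := f1 (e2 h hφ hc)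
  exact z_DC hF (g0 hO)

theorem z_DH {L : Type} [Field L] [Algebra k L] (hL : FunF k 1 L) {U V : L} {la : k} (h : DH U V la) :
    Reach k L (fun L' _ _ => End k L') := by
  obtain ⟨ω, hω⟩ := Z_omega (k := k)
  refine Reach.step hL (d1 h hω).1 (n := 3) (by norm_num) (fun w => (d1 h hω).2 w) ?_
  intro L1 _ _ φ a hφ hF ha
  obtain ⟨b, ka, hN⟩ := d2 h hω hφ ha
  exact z_DN hF hN

theorem z_DE {L : Type} [Field L] [Algebra k L] (hL : FunF k 1 L) {X Y : L} {A B : k} (h : DE X Y A B) :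
    Reach k L (fun L' _ _ => End k L') := by
  obtain ⟨x, y0, al, hf⟩ := c0 h.disc
  refine Reach.step hL (c1 h hf).1 (n := 3) (by norm_num) (fun w => (c1 h hf).2.2 w) ?_
  intro L1 _ _ φ u hφ hF hu
  obtain ⟨U, V, la, hH⟩ := c2 h hf hφ hu
  exact z_DH hF hH

theorem z_DA {L : Type} [Field L] [Algebra k L] (hL : FunF k 1 L) {t : L} {c : Fin 5 → k} (h : DA t c) :
    Reach k L (fun L' _ _ => End k L') := by
  obtain ⟨s, e, h1⟩ := b0 h
  refine Reach.step hL (b1 h1).1 (n := 2) (by norm_num) (fun w => (b1 h1).2 w) ?_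
  intro L1 _ _ φ y hφ hF hy
  obtain ⟨X, Y, A, B, hE⟩ := b2 (b1' h1 hφ hy)
  exact z_DE hF hE

end Pool.Agent.LibVT36
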